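import Pool.Agent.Lib.MP_12adaf_ntE7.F0p

/-!
# `E₇`: facts about the tables, checked by the kernel, and the rotation group
-/

namespace Pool.Agent.Lib.MP_12adaf_nt.E7

namespace Pk

/-- the sum of `(wt7 + 1) (rho7 + 2)` -/
def sw (i a : ℕ) : ℕ :=
  Nat.add (Nat.add (Nat.add (Nat.mul (w a 0) (r i 0)) (Nat.mul (w a 1) (r i 1)))
      (Nat.add (Nat.mul (w a 2) (r i 2)) (Nat.mul (w a 3) (r i 3))))
    (Nat.add (Nat.add (Nat.mul (w a 4) (r i 4)) (Nat.mul (w a 5) (r i 5)))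
      (Nat.mul (w a 6) (r i 6)))

/-- the sum of `wt7 + 1` -/
def tw (a : ℕ) : ℕ :=
  Nat.add (Nat.add (Nat.add (w a 0) (w a 1)) (Nat.add (w a 2) (w a 3)))
    (Nat.add (Nat.add (w a 4) (w a 5)) (w a 6))

/-- the sum of `rho7 + 2` -/
def tr (i : ℕ) : ℕ :=
  Nat.add (Nat.add (Nat.add (r i 0) (r i 1)) (Nat.add (r i 2) (r i 3)))
    (Nat.add (Nat.add (r i 4) (r i 5)) (r i 6))

/-- positive part of the inner product -/
def pp (i a : ℕ) : ℕ := Nat.add (sw i a) 14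

/-- negative part of the inner product -/
def pn (i a : ℕ) : ℕ := Nat.add (Nat.mul 2 (tw a)) (tr i)

/-- the check of `wt7_sT7` -/
noncomputable def wtC : Bool :=
  allB (fun i => allB (fun a => allB (fun j =>
    Nat.beq
      (Nat.add (Nat.add (Nat.mul 2 (w (s i a) j)) (Nat.mul 4 (h i a)))
        (Nat.add (Nat.add (Nat.mul (pn i a) (r i j)) (Nat.mul 2 (pp i a))) (Nat.mul 2 (w a j))))
      (Nat.add (Nat.add (Nat.mul (pp i a) (r i j)) (Nat.mul 2 (pn i a)))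
        (Nat.add 4 (Nat.mul (Nat.mul 4 (h i a)) (w (s i a) j))))) 7) 28) 63

theorem wtC_true : wtC = true := by decide +kernel

/-- the check of `sT7_di7` -/
noncomputable def diC : Bool :=
  allB (fun a => allB (fun b => disB (Nat.beq a b) (Nat.beq (s (d a b) a) b)) 28) 28

theorem diC_true : diC = true := by decide +kernel

/-- the check of `sT7_di7_fix` -/
noncomputable def fixC : Bool :=
  allB (fun a => allB (fun b => disB (Nat.beq a b) (allB (fun c =>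
    disB (Nat.beq c a) (disB (Nat.beq c b)
      (iffB (Nat.beq (s (d a b) c) c) (Nat.beq (t a b c) 1)))) 28)) 28) 28

theorem fixC_true : fixC = true := by decide +kernel

theorem wE (a : Fin 28) (j : Fin 7) : ((w a j : ℕ) : ℤ) = wt7 a j + 1 := (w_eq a j).symm

theorem rE (i : Fin 63) (j : Fin 7) : ((r i j : ℕ) : ℤ) = rho7 i j + 2 := (r_eq i j).symm

theorem tr_eq (i : Fin 63) : ((tr i : ℕ) : ℤ) = ∑ j, rho7 i j + 14 := by
  have h1 : tr i = ((r i 0 + r i 1) + (r i 2 + r i 3)) + ((r i 4 + r i 5) + r i 6) := rfl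
  have e0 : ((r i 0 : ℕ) : ℤ) = rho7 i 0 + 2 := rE i 0
  have e1 : ((r i 1 : ℕ) : ℤ) = rho7 i 1 + 2 := rE i 1
  have e2 : ((r i 2 : ℕ) : ℤ) = rho7 i 2 + 2 := rE i 2
  have e3 : ((r i 3 : ℕ) : ℤ) = rho7 i 3 + 2 := rE i 3
  have e4 : ((r i 4 : ℕ) : ℤ) = rho7 i 4 + 2 := rE i 4
  have e5 : ((r i 5 : ℕ) : ℤ) = rho7 i 5 + 2 := rE i 5
  have e6 : ((r i 6 : ℕ) : ℤ) = rho7 i 6 + 2 := rE i 6
  rw [h1, Fin.sum_univ_seven]
  push_cast
  rw [e0, e1, e2, e3, e4, e5, e6]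
  ring

theorem pp_pn (i : Fin 63) (a : Fin 28) :
    ((pp i a : ℕ) : ℤ) - (pn i a : ℕ) = ∑ l, wt7 a l * rho7 i l := by
  have h1 : pp i a = ((w a 0 * r i 0 + w a 1 * r i 1) + (w a 2 * r i 2 + w a 3 * r i 3)) +
    ((w a 4 * r i 4 + w a 5 * r i 5) + w a 6 * r i 6) + 14 := rfl
  have h2 : pn i a = 2 * (((w a 0 + w a 1) + (w a 2 + w a 3)) + ((w a 4 + w a 5) + w a 6)) +
    tr i := rfl
  have e0 : ((r i 0 : ℕ) : ℤ) = rho7 i 0 + 2 := rE i 0
  have e1 : ((r i 1 : ℕ) : ℤ) = rho7 i 1 + 2 := rE i 1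
  have e2 : ((r i 2 : ℕ) : ℤ) = rho7 i 2 + 2 := rE i 2
  have e3 : ((r i 3 : ℕ) : ℤ) = rho7 i 3 + 2 := rE i 3
  have e4 : ((r i 4 : ℕ) : ℤ) = rho7 i 4 + 2 := rE i 4
  have e5 : ((r i 5 : ℕ) : ℤ) = rho7 i 5 + 2 := rE i 5
  have e6 : ((r i 6 : ℕ) : ℤ) = rho7 i 6 + 2 := rE i 6
  have f0 : ((w a 0 : ℕ) : ℤ) = wt7 a 0 + 1 := wE a 0
  have f1 : ((w a 1 : ℕ) : ℤ) = wt7 a 1 + 1 := wE a 1
  have f2 : ((w a 2 : ℕ) : ℤ) = wt7 a 2 + 1 := wE a 2
  have f3 : ((w a 3 : ℕ) : ℤ) = wt7 a 3 + 1 := wE a 3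
  have f4 : ((w a 4 : ℕ) : ℤ) = wt7 a 4 + 1 := wE a 4
  have f5 : ((w a 5 : ℕ) : ℤ) = wt7 a 5 + 1 := wE a 5
  have f6 : ((w a 6 : ℕ) : ℤ) = wt7 a 6 + 1 := wE a 6
  rw [h1, h2]
  push_cast
  rw [tr_eq, Fin.sum_univ_seven, Fin.sum_univ_seven, e0, e1, e2, e3, e4, e5, e6, f0, f1, f2, f3,
    f4, f5, f6]
  ring

/-- The reflections are isometries. -/
theorem isom {n : ℕ} {a b r A B : Fin n → ℤ} (hr : ∑ j, r j * r j = 4)
    (hA : ∀ j, 2 * A j = (∑ l, a l * r l) * r j - 2 * a j)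
    (hB : ∀ j, 2 * B j = (∑ l, b l * r l) * r j - 2 * b j) :
    ∑ j, A j * B j = ∑ j, a j * b j := by
  set p := ∑ l, a l * r l with hp
  set q := ∑ l, b l * r l with hq
  have h1 : ∑ j, 4 * (A j * B j) = ∑ j, (p * q * (r j * r j) - 2 * p * (b j * r j) -
      2 * q * (a j * r j) + 4 * (a j * b j)) :=
    Finset.sum_congr rfl fun j _ => by
      have h2 : 4 * (A j * B j) = (2 * A j) * (2 * B j) := by ring
      rw [h2, hA, hB]
      ring
  rw [Finset.sum_add_distrib, Finset.sum_sub_distrib, Finset.sum_sub_distrib, ← Finset.mul_sum,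
    ← Finset.mul_sum, ← Finset.mul_sum, ← Finset.mul_sum, ← Finset.mul_sum, hr, ← hp, ← hq] at h1
  linarith

end Pk

theorem e7_eq : ∀ a b : Fin 28, e7 a b = ∑ j, wt7 a j * wt7 b j := by decide +kernel

theorem e7_cases : ∀ a b : Fin 28, (a = b ∧ e7 a b = 3) ∨ (a ≠ b ∧ (e7 a b = 1 ∨ e7 a b = -1)) := by
  decide +kernel

theorem sT7_sT7 : ∀ (i : Fin 63) (a : Fin 28), sT7 i (sT7 i a) = a := by decide +kernel

theorem sg7_cases : ∀ (i : Fin 63) (a : Fin 28), sg7 i a = 1 ∨ sg7 i a = -1 := by decide +kernel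

theorem wt7_sT7 : ∀ (i : Fin 63) (a : Fin 28) (j : Fin 7),
    2 * (sg7 i a * wt7 (sT7 i a) j) =
      (∑ l, wt7 a l * rho7 i l) * rho7 i j - 2 * wt7 a j := by
  intro i a j
  have h1 : 2 * Pk.w (Pk.s i a) j + 4 * Pk.h i a + (Pk.pn i a * Pk.r i j + 2 * Pk.pp i a +
      2 * Pk.w a j) = Pk.pp i a * Pk.r i j + 2 * Pk.pn i a +
      (4 + 4 * Pk.h i a * Pk.w (Pk.s i a) j) :=
    Pk.of_beq (Pk.allB_spec (Pk.allB_spec (Pk.allB_spec Pk.wtC_true i i.2) a a.2) j j.2)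
  rw [← Pk.s_eq] at h1
  have h2 := congrArg (Nat.cast : ℕ → ℤ) h1
  push_cast at h2
  rw [Pk.wE, Pk.wE, Pk.rE] at h2
  rw [← Pk.pp_pn, Pk.h_eq]
  linear_combination h2

theorem norm_rho7 : ∀ i : Fin 63, ∑ j, rho7 i j * rho7 i j = 4 := by decide +kernel

theorem e7_sT7 : ∀ (i : Fin 63) (a b : Fin 28),
    e7 (sT7 i a) (sT7 i b) = sg7 i a * sg7 i b * e7 a b := by
  intro i a b
  have h1 := Pk.isom (norm_rho7 i) (wt7_sT7 i a) (wt7_sT7 i b)
  rw [← e7_eq] at h1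
  have h2 : ∑ j, sg7 i a * wt7 (sT7 i a) j * (sg7 i b * wt7 (sT7 i b) j) =
      sg7 i a * sg7 i b * e7 (sT7 i a) (sT7 i b) := by
    rw [e7_eq, Finset.mul_sum]
    exact Finset.sum_congr rfl fun j _ => by ring
  rw [h2] at h1
  rw [← h1]
  rcases sg7_cases i a with h3 | h3 <;> rcases sg7_cases i b with h4 | h4 <;> rw [h3, h4] <;> ring

theorem sT7_di7 : ∀ a b : Fin 28, a ≠ b → sT7 (di7 a b) a = b := by
  intro a b hab
  rcases Pk.disB_spec (Pk.allB_spec (Pk.allB_spec Pk.diC_true a a.2) b b.2) with h | h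
  · exact absurd (Fin.ext (Pk.of_beq h)) hab
  · refine Fin.ext ?_
    rw [Pk.s_eq, Pk.d_eq]
    exact Pk.of_beq h

theorem di7_unique : ∀ (i : Fin 63) (a : Fin 28), sT7 i a ≠ a → i = di7 a (sT7 i a) := by
  decide +kernel

theorem sT7_ne : ∀ i : Fin 63, ∃ a, sT7 i a ≠ a := by decide +kernel

/-- The reflection exchanging `a` and `b` fixes `c`, up to sign, iff `tg7 a b c = 1`. -/
theorem sT7_di7_fix : ∀ a b c : Fin 28, a ≠ b → c ≠ a → c ≠ b →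
    (sT7 (di7 a b) c = c ↔ tg7 a b c = 1) := by
  intro a b c hab hca hcb
  rcases Pk.disB_spec (Pk.allB_spec (Pk.allB_spec Pk.fixC_true a a.2) b b.2) with h | h
  · exact absurd (Fin.ext (Pk.of_beq h)) hab
  rcases Pk.disB_spec (Pk.allB_spec h c c.2) with h | h
  · exact absurd (Fin.ext (Pk.of_beq h)) hca
  rcases Pk.disB_spec h with h | h
  · exact absurd (Fin.ext (Pk.of_beq h)) hcb
  have h1 := Pk.iffB_spec h
  have h2 : sT7 (di7 a b) c = c ↔ Pk.t a b c = 1 := by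
    rw [← Pk.beq_iff, ← h1, Pk.beq_iff, ← Pk.d_eq, ← Pk.s_eq]
    exact Fin.ext_iff
  rw [h2]
  refine ⟨fun h3 => ?_, Pk.t_of_one⟩
  have h4 := Pk.t_eq a b c
  rw [h3] at h4
  have e1 : e7 a b = 1 ∨ e7 a b = -1 := ((e7_cases a b).resolve_left fun h => hab h.1).2
  have e2 : e7 b c = 1 ∨ e7 b c = -1 := ((e7_cases b c).resolve_left fun h => hcb h.1.symm).2
  have e3 : e7 a c = 1 ∨ e7 a c = -1 := ((e7_cases a c).resolve_left fun h => hca h.1.symm).2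
  unfold tg7 at h4 ⊢
  rcases e1 with e1 | e1 <;> rcases e2 with e2 | e2 <;> rcases e3 with e3 | e3 <;>
    rw [e1, e2, e3] at h4 ⊢ <;> first | rfl | exact absurd h4 (by norm_num)

/-- The group of the two-graph, which is the rotation group of the Weyl group of type `E₇`, of order
1451520, isomorphic to `Sp₆(2)`. -/
def S7 : Subgroup (Equiv.Perm (Fin 28)) where
  carrier := {π | ∀ a b c, tg7 (π a) (π b) (π c) = tg7 a b c}
  mul_mem' := by
    intro π π' h h' a b c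
    rw [Equiv.Perm.mul_apply, Equiv.Perm.mul_apply, Equiv.Perm.mul_apply, h, h']
  one_mem' := fun a b c => rfl
  inv_mem' := by
    intro π h a b c
    have h1 := h (π⁻¹ a) (π⁻¹ b) (π⁻¹ c)
    have h2 : ∀ x, π (π⁻¹ x) = x := fun x => π.apply_symm_apply x
    rw [h2, h2, h2] at h1
    exact h1.symm

lemma mem_S7 {π : Equiv.Perm (Fin 28)} :
    π ∈ S7 ↔ ∀ a b c, tg7 (π a) (π b) (π c) = tg7 a b c := Iff.rfl

lemma smul7_def (w : S7) (a : Fin 28) : w • a = (w : Equiv.Perm (Fin 28)) a := rfl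

lemma S7_ext {w w' : S7} (h : ∀ a : Fin 28, w • a = w' • a) : w = w' :=
  Subtype.ext (Equiv.ext h)

/-- The negatives of the reflections as permutations of the 28 weights up to sign. -/
def tW (i : Fin 63) : S7 := ⟨⟨sT7 i, sT7 i, sT7_sT7 i, sT7_sT7 i⟩, by
  intro a b c
  change tg7 (sT7 i a) (sT7 i b) (sT7 i c) = tg7 a b c
  unfold tg7
  rw [e7_sT7, e7_sT7, e7_sT7]
  rcases sg7_cases i a with h1 | h1 <;> rcases sg7_cases i b with h2 | h2 <;>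
    rcases sg7_cases i c with h3 | h3 <;> rw [h1, h2, h3] <;> ring⟩

lemma tW_smul (i : Fin 63) (a : Fin 28) : tW i • a = sT7 i a := rfl

lemma tW_mul_self (i : Fin 63) : tW i * tW i = 1 :=
  S7_ext fun a => by rw [mul_smul, tW_smul, tW_smul, sT7_sT7, one_smul]

end Pool.Agent.Lib.MP_12adaf_nt.E7
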