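import Pool.Agent.Lib.MP_12adaf_ntE7.F0

/-!
# The order of the rotation group of type `E₇`
-/

namespace Pool.Agent.Lib.MP_12adaf_nt.E7

section chain

open MulAction

private lemma tg7_smul (w : S7) (a b c : Fin 28) : tg7 (w • a) (w • b) (w • c) = tg7 a b c :=
  w.2 a b c

private theorem sT7_di7' : ∀ a b : Fin 28, a ≠ b → sT7 (di7 a b) b = a := by decide +kernel

/-- The base points. -/
private def cL7 : List ℕ := [0, 1, 4, 5, 20, 2]

private def cb (k : Fin 6) : Fin 28 := Fin.ofNat 28 (cL7.getD k 0)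

/-- the same relations to the earlier base points as the base point `k` -/
private def Rel7 (k : Fin 6) (b : Fin 28) : Prop :=
  ∀ i j : Fin 6, i < k → j < k → tg7 (cb i) (cb j) b = tg7 (cb i) (cb j) (cb k)

private instance (k : Fin 6) (b : Fin 28) : Decidable (Rel7 k b) := by
  unfold Rel7; infer_instance

private theorem chain_dec7 : ∀ (k : Fin 6) (b : Fin 28), Rel7 k b → b = cb k ∨
    (b ≠ cb k ∧ ∀ j : Fin 6, j < k → sT7 (di7 (cb k) b) (cb j) = cb j) ∨
    ∃ c, c ≠ cb k ∧ b ≠ c ∧ (∀ j : Fin 6, j < k → sT7 (di7 (cb k) c) (cb j) = cb j) ∧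
      ∀ j : Fin 6, j < k → sT7 (di7 c b) (cb j) = cb j := by
  decide +kernel

private lemma tW_mem (i : Fin 63) : tW i ∈ Subgroup.closure (Set.range tW) :=
  Subgroup.subset_closure ⟨i, rfl⟩

/-- One correction step. -/
private lemma chain_step7 (k : Fin 6) (b : Fin 28) (h : Rel7 k b) :
    ∃ u ∈ Subgroup.closure (Set.range tW), u • b = cb k ∧ ∀ j : Fin 6, j < k → u • cb j = cb j := by
  rcases chain_dec7 k b h with rfl | ⟨h0, h1⟩ | ⟨c, h1, h2, h3, h4⟩
  · exact ⟨1, one_mem _, one_smul _ _, fun j _ => one_smul _ _⟩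
  · refine ⟨tW (di7 (cb k) b), tW_mem _, ?_, fun j hj => ?_⟩
    · rw [tW_smul, sT7_di7' _ _ (Ne.symm h0)]
    · rw [tW_smul, h1 j hj]
  · refine ⟨tW (di7 (cb k) c) * tW (di7 c b), mul_mem (tW_mem _) (tW_mem _), ?_, fun j hj => ?_⟩
    · rw [mul_smul, tW_smul, tW_smul, sT7_di7' _ _ (Ne.symm h2), sT7_di7' _ _ (Ne.symm h1)]
    · rw [mul_smul, tW_smul, tW_smul, h4 j hj, h3 j hj]

/-- Correction of an element, step by step. -/
private lemma chain_all7 (w : S7) (n : ℕ) (hn : n ≤ 6) :
    ∃ u ∈ Subgroup.closure (Set.range tW), ∀ j : Fin 6, (j : ℕ) < n → (u * w) • cb j = cb j := by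
  induction n with
  | zero => exact ⟨1, one_mem _, fun j hj => absurd hj (Nat.not_lt_zero _)⟩
  | succ n ih =>
    obtain ⟨u, hu, hfix⟩ := ih (by omega)
    have key : Rel7 ⟨n, by omega⟩ ((u * w) • cb ⟨n, by omega⟩) := by
      intro i j hi hj
      have h1 := tg7_smul (u * w) (cb i) (cb j) (cb ⟨n, by omega⟩)
      rwa [hfix i hi, hfix j hj] at h1
    obtain ⟨v, hv, hv1, hv2⟩ := chain_step7 ⟨n, by omega⟩ _ key
    refine ⟨v * u, mul_mem hv hu, fun j hj => ?_⟩
    rw [mul_assoc, mul_smul]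
    rcases Nat.lt_succ_iff_lt_or_eq.mp hj with h | h
    · rw [hfix j h]
      exact hv2 j h
    · have h2 : j = ⟨n, by omega⟩ := Fin.ext h
      rw [h2]
      exact hv1

private theorem sig_dec : ∀ c d : Fin 28,
    (∀ i j : Fin 6, tg7 (cb i) (cb j) c = tg7 (cb i) (cb j) d) →
      c = d ∨ (c = 22 ∧ d = 23) ∨ (c = 23 ∧ d = 22) := by decide +kernel

private theorem sig_dec2 : tg7 8 (cb 0) 22 ≠ tg7 8 (cb 0) 23 := by decide +kernel

/-- An element which fixes the six base points is the identity. -/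
private lemma eq_one_of_base (w : S7) (h : ∀ j : Fin 6, w • cb j = cb j) : w = 1 := by
  have h1 : ∀ c : Fin 28, w • c = c ∨ (w • c = 22 ∧ c = 23) ∨ (w • c = 23 ∧ c = 22) := by
    intro c
    refine sig_dec (w • c) c fun i j => ?_
    have h2 := tg7_smul w (cb i) (cb j) c
    rwa [h i, h j] at h2
  have h8 : w • (8 : Fin 28) = 8 := by
    rcases h1 8 with h2 | ⟨_, h2⟩ | ⟨_, h2⟩
    · exact h2
    · exact absurd h2 (by decide)
    · exact absurd h2 (by decide)
  refine S7_ext fun c => ?_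
  rw [one_smul]
  rcases h1 c with h2 | ⟨h2, h3⟩ | ⟨h2, h3⟩
  · exact h2
  · have h4 := tg7_smul w 8 (cb 0) c
    rw [h8, h 0, h2, h3] at h4
    exact absurd h4 sig_dec2
  · have h4 := tg7_smul w 8 (cb 0) c
    rw [h8, h 0, h2, h3] at h4
    exact absurd h4.symm sig_dec2

end chain

/-- **Stabilizer chain.**  Base points `0, 1, 4, 5, 20, 2`, orbits of the successive pointwise
stabilizers of lengths `28, 27, 16, 10, 6, 2`.  Each orbit is the set of all points `c` with the same
two-graph relations `tg7 x y c` to the earlier base points `x`, `y` as the base point (these are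
preserved by `S7`), and it is reached from the base point by at most two reflections `tW i` which
fix the earlier base points (kernel-checked, as `chain_dec` in MP_12adaf_ntE6/E09.lean).  An element
which fixes the six base points fixes all points except possibly 22, 23 (the relations `tg7 x y c`,
`x`, `y` base points, determine `c`), and then these two.  So every element of `S7` is a product of
elements `tW i`, and the orders are the products of the lengths of the orbits
(`MulAction.card_orbit_mul_card_stabilizer`). -/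
theorem closure_tW : Subgroup.closure (Set.range tW) = ⊤ := by
  rw [eq_top_iff]
  intro w _
  obtain ⟨u, hu, hfix⟩ := chain_all7 w 6 le_rfl
  have h1 : u * w = 1 := eq_one_of_base _ fun j => hfix j j.isLt
  have h2 : w = u⁻¹ := (inv_eq_of_mul_eq_one_right h1).symm
  rw [h2]
  exact inv_mem hu

section orders

open MulAction

/-- Orbit and stabilizer inside a subgroup. -/
private lemma card_step7 (H : Subgroup S7) (a : Fin 28) (s : Finset (Fin 28))
    (hs : ∀ b, b ∈ s ↔ ∃ w ∈ H, w • a = b) :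
    Nat.card H = s.card * Nat.card (H ⊓ stabilizer S7 a : Subgroup S7) := by
  have h1 : (stabilizer H a).index = s.card := by
    rw [index_stabilizer]
    have h2 : orbit H a = (s : Set (Fin 28)) := by
      ext b
      rw [Finset.mem_coe, hs]
      constructor
      · rintro ⟨w, rfl⟩
        exact ⟨w, w.2, rfl⟩
      · rintro ⟨w, hw, rfl⟩
        exact ⟨⟨w, hw⟩, rfl⟩
    rw [h2, Set.ncard_coe_finset]
  have h2 : Nat.card (stabilizer H a) = Nat.card (H ⊓ stabilizer S7 a : Subgroup S7) := by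
    refine Nat.card_congr ⟨fun w => ⟨w.1.1, w.1.2, w.2⟩, fun w => ⟨⟨w.1, w.2.1⟩, w.2.2⟩,
      fun w => rfl, fun w => rfl⟩
  rw [← h1, ← h2, ← Subgroup.card_mul_index (stabilizer H a), mul_comm]

/-- The pointwise stabilizer of the first `k` base points. -/
private def St7 (k : ℕ) : Subgroup S7 where
  carrier := {w | ∀ j : Fin 6, (j : ℕ) < k → w • cb j = cb j}
  mul_mem' := by
    intro u v hu hv j hj
    rw [mul_smul, hv j hj, hu j hj]
  one_mem' := fun j _ => one_smul _ _
  inv_mem' := by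
    intro w hw j hj
    rw [inv_smul_eq_iff, hw j hj]

private lemma mem_St7 {k : ℕ} {w : S7} :
    w ∈ St7 k ↔ ∀ j : Fin 6, (j : ℕ) < k → w • cb j = cb j := Iff.rfl

private lemma St7_succ (k : Fin 6) :
    St7 k ⊓ stabilizer S7 (cb k) = St7 (k + 1) := by
  ext w
  rw [Subgroup.mem_inf, mem_stabilizer_iff, mem_St7, mem_St7]
  constructor
  · rintro ⟨h1, h2⟩ j hj
    rcases Nat.lt_succ_iff_lt_or_eq.mp hj with h | h
    · exact h1 j h
    · rw [Fin.ext h]
      exact h2
  · intro h
    exact ⟨fun j hj => h j (by omega), h k (by omega)⟩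

private lemma St7_orbit (k : Fin 6) (b : Fin 28) :
    b ∈ Finset.univ.filter (Rel7 k) ↔ ∃ w ∈ St7 k, w • cb k = b := by
  rw [Finset.mem_filter]
  constructor
  · rintro ⟨_, h⟩
    obtain ⟨u, _, hu, hfix⟩ := chain_step7 k b h
    have hu' : u ∈ St7 k := fun j hj => hfix j hj
    refine ⟨u⁻¹, inv_mem hu', ?_⟩
    rw [inv_smul_eq_iff, hu]
  · rintro ⟨w, hw, rfl⟩
    refine ⟨Finset.mem_univ _, fun i j hi hj => ?_⟩
    have h1 := tg7_smul w (cb i) (cb j) (cb k)
    rwa [hw i hi, hw j hj] at h1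

private lemma card_St7 (k : Fin 6) :
    Nat.card (St7 k) = (Finset.univ.filter (Rel7 k)).card * Nat.card (St7 (k + 1)) := by
  rw [card_step7 (St7 k) (cb k) _ (St7_orbit k), St7_succ]

private theorem card_Rel7 : ∀ k : Fin 6, (Finset.univ.filter (Rel7 k)).card =
    [28, 27, 16, 10, 6, 2].getD k 0 := by decide +kernel

private lemma St7_six : St7 6 = ⊥ := by
  rw [eq_bot_iff]
  intro w hw
  rw [Subgroup.mem_bot]
  exact eq_one_of_base w fun j => hw j j.isLt

private lemma St7_zero : St7 0 = ⊤ := by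
  rw [eq_top_iff]
  intro w _ j hj
  exact absurd hj (Nat.not_lt_zero _)

end orders

theorem card_S7 : Nat.card S7 = 1451520 := by
  have h6 : Nat.card (St7 6) = 1 := by rw [St7_six]; exact Nat.card_unique
  have h5 := card_St7 5
  have h4 := card_St7 4
  have h3 := card_St7 3
  have h2 := card_St7 2
  have h1 := card_St7 1
  have h0 := card_St7 0
  rw [card_Rel7] at h0 h1 h2 h3 h4 h5
  have e5 : Nat.card (St7 5) = 2 * Nat.card (St7 6) := h5
  have e4 : Nat.card (St7 4) = 6 * Nat.card (St7 5) := h4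
  have e3 : Nat.card (St7 3) = 10 * Nat.card (St7 4) := h3
  have e2 : Nat.card (St7 2) = 16 * Nat.card (St7 3) := h2
  have e1 : Nat.card (St7 1) = 27 * Nat.card (St7 2) := h1
  have e0 : Nat.card (St7 0) = 28 * Nat.card (St7 1) := h0
  rw [St7_zero] at e0
  rw [← Subgroup.card_top (G := S7), e0, e1, e2, e3, e4, e5, h6]

/-- Every pair can be moved to the first two base points. -/
private lemma to_base2 {a b : Fin 28} (hab : a ≠ b) : ∃ w : S7, w • a = cb 0 ∧ w • b = cb 1 := by
  obtain ⟨u, _, hu, _⟩ := chain_step7 0 a (fun i j hi _ => absurd hi (Nat.not_lt_zero _))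
  have h1 : Rel7 1 (u • b) := by
    have h2 : u • b ≠ cb 0 := by
      rw [← hu]
      intro h
      exact hab (MulAction.injective u h).symm
    have h3 : ∀ b : Fin 28, b ≠ cb 0 → Rel7 1 b := by decide +kernel
    exact h3 _ h2
  obtain ⟨v, _, hv, hfix⟩ := chain_step7 1 (u • b) h1
  refine ⟨v * u, ?_, ?_⟩
  · rw [mul_smul, hu]
    exact hfix 0 (by decide)
  · rw [mul_smul, hv]

/-- The action on the 28 weights up to sign is doubly transitive. -/
theorem exists_smul_eq2 {a b c d : Fin 28} (hab : a ≠ b) (hcd : c ≠ d) :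
    ∃ w : S7, w • a = c ∧ w • b = d := by
  obtain ⟨u, hu1, hu2⟩ := to_base2 hab
  obtain ⟨v, hv1, hv2⟩ := to_base2 hcd
  refine ⟨v⁻¹ * u, ?_, ?_⟩
  · rw [mul_smul, hu1, inv_smul_eq_iff, hv1]
  · rw [mul_smul, hu2, inv_smul_eq_iff, hv2]

theorem card_stab (a : Fin 28) : Nat.card (MulAction.stabilizer S7 a) = 51840 := by
  have h1 := card_step7 ⊤ a Finset.univ fun b => by
    refine ⟨fun _ => ?_, fun _ => Finset.mem_univ _⟩
    obtain ⟨a', ha'⟩ : ∃ a' : Fin 28, a ≠ a' := by
      have h : ∀ a : Fin 28, ∃ a' : Fin 28, a ≠ a' := by decide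
      exact h a
    obtain ⟨b', hb'⟩ : ∃ b' : Fin 28, b ≠ b' := by
      have h : ∀ a : Fin 28, ∃ a' : Fin 28, a ≠ a' := by decide
      exact h b
    obtain ⟨w, hw, _⟩ := exists_smul_eq2 ha' hb'
    exact ⟨w, Subgroup.mem_top _, hw⟩
  rw [Subgroup.card_top, card_S7, top_inf_eq, Finset.card_univ, Fintype.card_fin] at h1
  omega

theorem card_stab2 {a b : Fin 28} (hab : a ≠ b) :
    Nat.card (MulAction.stabilizer S7 a ⊓ MulAction.stabilizer S7 b : Subgroup S7) = 1920 := by
  have h1 := card_step7 (MulAction.stabilizer S7 a) b (Finset.univ.erase a) fun c => by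
    rw [Finset.mem_erase]
    constructor
    · rintro ⟨hc, _⟩
      obtain ⟨w, hw1, hw2⟩ := exists_smul_eq2 hab hc.symm
      exact ⟨w, hw1, hw2⟩
    · rintro ⟨w, hw, rfl⟩
      refine ⟨fun h => hab ?_, Finset.mem_univ _⟩
      have h2 : w • a = a := hw
      exact (MulAction.injective w (h.trans h2.symm)).symm
  rw [card_stab, Finset.card_erase_of_mem (Finset.mem_univ _), Finset.card_univ,
    Fintype.card_fin] at h1
  omega

/-- The pointwise stabilizer of two weights is transitive on the 16 weights fixed by the reflection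
which exchanges them. -/
theorem exists_smul_eq3 {a b c d : Fin 28} (hab : a ≠ b) (hc : c ≠ a ∧ c ≠ b)
    (hd : d ≠ a ∧ d ≠ b) (h1 : tg7 a b c = 1) (h2 : tg7 a b d = 1) :
    ∃ w : S7, w • a = a ∧ w • b = b ∧ w • c = d := by
  obtain ⟨u, hu1, hu2⟩ := to_base2 hab
  have h3 : ∀ c : Fin 28, c ≠ cb 0 → c ≠ cb 1 → tg7 (cb 0) (cb 1) c = 1 → Rel7 2 c := by
    decide +kernel
  have key : ∀ c : Fin 28, c ≠ a → c ≠ b → tg7 a b c = 1 →
      ∃ v : S7, v • a = cb 0 ∧ v • b = cb 1 ∧ v • c = cb 2 := by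
    intro c hca hcb h
    have h4 : Rel7 2 (u • c) := by
      refine h3 _ ?_ ?_ ?_
      · rw [← hu1]
        exact fun h5 => hca (MulAction.injective u h5)
      · rw [← hu2]
        exact fun h5 => hcb (MulAction.injective u h5)
      · rw [← hu1, ← hu2, tg7_smul, h]
    obtain ⟨v, _, hv, hfix⟩ := chain_step7 2 (u • c) h4
    refine ⟨v * u, ?_, ?_, ?_⟩
    · rw [mul_smul, hu1]
      exact hfix 0 (by decide)
    · rw [mul_smul, hu2]
      exact hfix 1 (by decide)
    · rw [mul_smul, hv]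
  obtain ⟨v, hv1, hv2, hv3⟩ := key c hc.1 hc.2 h1
  obtain ⟨v', hv1', hv2', hv3'⟩ := key d hd.1 hd.2 h2
  refine ⟨v'⁻¹ * v, ?_, ?_, ?_⟩
  · rw [mul_smul, hv1, inv_smul_eq_iff, hv1']
  · rw [mul_smul, hv2, inv_smul_eq_iff, hv2']
  · rw [mul_smul, hv3, inv_smul_eq_iff, hv3']

end Pool.Agent.Lib.MP_12adaf_nt.E7
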