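import Pool.Agent.Lib.MP_12adaf_ntE7.F1

/-!
# The reflection representation of the rotation group of type `E₇`
-/

namespace Pool.Agent.Lib.MP_12adaf_nt.E7

open Matrix

private lemma e7_comm (a b : Fin 28) : e7 a b = e7 b a := by
  rw [e7_eq, e7_eq]
  exact Finset.sum_congr rfl fun j _ => mul_comm _ _

private lemma wt7_sum : ∀ j l : Fin 7, ∑ a, wt7 a j * wt7 a l = if j = l then 12 else 0 := by
  decide +kernel

private def wM : Matrix (Fin 28) (Fin 7) ℚ := Matrix.of fun a j => (wt7 a j : ℚ)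

private lemma wM_apply (a : Fin 28) (j : Fin 7) : wM a j = (wt7 a j : ℚ) := rfl

private lemma wM_tmul : wMᵀ * wM = (12 : ℚ) • (1 : Matrix (Fin 7) (Fin 7) ℚ) := by
  ext j l
  rw [Matrix.mul_apply, Matrix.smul_apply, Matrix.one_apply, smul_eq_mul, mul_ite, mul_one,
    mul_zero]
  simp only [Matrix.transpose_apply, wM_apply]
  have h := wt7_sum j l
  have h2 : ((∑ a, wt7 a j * wt7 a l : ℤ) : ℚ) = ((if j = l then 12 else 0 : ℤ) : ℚ) := by rw [h]
  push_cast at h2
  exact h2

private lemma wM_mulT (a b : Fin 28) : (wM * wMᵀ) a b = (e7 a b : ℚ) := by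
  rw [Matrix.mul_apply]
  simp only [Matrix.transpose_apply, wM_apply]
  rw [e7_eq]
  push_cast
  rfl

/-- `A` maps the weights to the permuted weights with signs `ε`. -/
private structure Rep (π : Equiv.Perm (Fin 28)) (A : Matrix (Fin 7) (Fin 7) ℚ) (ε : Fin 28 → ℤ) :
    Prop where
  sgn : ∀ a, ε a = 1 ∨ ε a = -1
  gram : ∀ a b, e7 (π a) (π b) = ε a * ε b * e7 a b
  map : ∀ a j, ∑ l, A j l * (wt7 a l : ℚ) = ε a * wt7 (π a) j

private lemma Rep.mulT {π : Equiv.Perm (Fin 28)} {A : Matrix (Fin 7) (Fin 7) ℚ}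
    {ε : Fin 28 → ℤ} (h : Rep π A ε) (j : Fin 7) (a : Fin 28) :
    (A * wMᵀ) j a = ε a * wt7 (π a) j := by
  rw [Matrix.mul_apply]
  simp only [Matrix.transpose_apply, wM_apply]
  exact h.map a j

private lemma cancel_right {A B : Matrix (Fin 7) (Fin 7) ℚ} (h : A * wMᵀ = B * wMᵀ) : A = B := by
  have h1 : A * wMᵀ * wM = B * wMᵀ * wM := by rw [h]
  rw [Matrix.mul_assoc, Matrix.mul_assoc, wM_tmul, Matrix.mul_smul, Matrix.mul_smul,
    Matrix.mul_one, Matrix.mul_one] at h1
  exact smul_right_injective _ (by norm_num : (12 : ℚ) ≠ 0) h1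

private lemma cancel_left {A B : Matrix (Fin 7) (Fin 7) ℚ} (h : wM * A = wM * B) : A = B := by
  have h1 : wMᵀ * (wM * A) = wMᵀ * (wM * B) := by rw [h]
  rw [← Matrix.mul_assoc, ← Matrix.mul_assoc, wM_tmul, Matrix.smul_mul, Matrix.smul_mul,
    Matrix.one_mul, Matrix.one_mul] at h1
  exact smul_right_injective _ (by norm_num : (12 : ℚ) ≠ 0) h1

private lemma Rep.orth {π : Equiv.Perm (Fin 28)} {A : Matrix (Fin 7) (Fin 7) ℚ}
    {ε : Fin 28 → ℤ} (h : Rep π A ε) : Aᵀ * A = 1 := by
  have h1 : (A * wMᵀ)ᵀ * (A * wMᵀ) = wM * wMᵀ := by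
    ext a b
    rw [Matrix.mul_apply, wM_mulT]
    simp only [Matrix.transpose_apply, h.mulT]
    have h2 := h.gram a b
    have h3 : (ε a * ε b) * e7 (π a) (π b) = e7 a b := by
      rw [h2]
      rcases h.sgn a with h4 | h4 <;> rcases h.sgn b with h5 | h5 <;> rw [h4, h5] <;> ring
    rw [← h3, e7_eq]
    push_cast
    rw [Finset.mul_sum]
    refine Finset.sum_congr rfl fun l _ => ?_
    ring
  rw [Matrix.transpose_mul, Matrix.transpose_transpose] at h1
  have h2 : wM * (Aᵀ * A) = wM * (1 : Matrix (Fin 7) (Fin 7) ℚ) := by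
    have h3 : (wM * (Aᵀ * A)) * wMᵀ = wM * wMᵀ := by
      rw [← h1]
      simp only [Matrix.mul_assoc]
    have h4 : (wM * (Aᵀ * A)) * wMᵀ * wM = wM * wMᵀ * wM := by rw [h3]
    rw [Matrix.mul_assoc, Matrix.mul_assoc wM wMᵀ, wM_tmul, Matrix.mul_smul, Matrix.mul_smul,
      Matrix.mul_one] at h4
    exact smul_right_injective _ (by norm_num : (12 : ℚ) ≠ 0) h4
  exact cancel_left h2

private lemma Rep.det_cases {π : Equiv.Perm (Fin 28)} {A : Matrix (Fin 7) (Fin 7) ℚ}
    {ε : Fin 28 → ℤ} (h : Rep π A ε) : A.det = 1 ∨ A.det = -1 := by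
  have h1 := congrArg Matrix.det h.orth
  rw [Matrix.det_mul, Matrix.det_transpose, Matrix.det_one] at h1
  exact mul_self_eq_one_iff.1 h1

private lemma Rep.neg {π : Equiv.Perm (Fin 28)} {A : Matrix (Fin 7) (Fin 7) ℚ}
    {ε : Fin 28 → ℤ} (h : Rep π A ε) : Rep π (-A) (fun a => -ε a) := by
  refine ⟨fun a => ?_, fun a b => ?_, fun a j => ?_⟩
  · rcases h.sgn a with h1 | h1
    · right
      rw [h1]
    · left
      rw [h1, neg_neg]
  · rw [h.gram]
    ring
  · have h1 := h.map a j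
    simp only [Matrix.neg_apply, neg_mul, Finset.sum_neg_distrib, h1]
    push_cast
    ring

private lemma Rep.mul {π π' : Equiv.Perm (Fin 28)} {A A' : Matrix (Fin 7) (Fin 7) ℚ}
    {ε ε' : Fin 28 → ℤ} (h : Rep π A ε) (h' : Rep π' A' ε') :
    Rep (π * π') (A * A') (fun a => ε (π' a) * ε' a) := by
  refine ⟨fun a => ?_, fun a b => ?_, fun a j => ?_⟩
  · rcases h.sgn (π' a) with h1 | h1 <;> rcases h'.sgn a with h2 | h2 <;> simp [h1, h2]
  · rw [Equiv.Perm.mul_apply, Equiv.Perm.mul_apply, h.gram, h'.gram]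
    ring
  · have h1 : (A * A' * wMᵀ) j a = ((ε (π' a) * ε' a : ℤ) : ℚ) * wt7 ((π * π') a) j := by
      rw [Matrix.mul_assoc, Matrix.mul_apply]
      simp only [h'.mulT]
      have h2 := h.map (π' a) j
      rw [Equiv.Perm.mul_apply]
      push_cast
      calc ∑ x, A j x * (↑(ε' a) * ↑(wt7 (π' a) x))
          = ε' a * ∑ x, A j x * (wt7 (π' a) x : ℚ) := by
            rw [Finset.mul_sum]
            refine Finset.sum_congr rfl fun l _ => ?_
            ring
        _ = _ := by
            rw [h2]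
            ring
    rw [Matrix.mul_apply] at h1
    simp only [Matrix.transpose_apply, wM_apply] at h1
    exact h1

private lemma Rep.one : Rep 1 1 (fun _ => 1) := by
  refine ⟨fun a => Or.inl rfl, fun a b => ?_, fun a j => ?_⟩
  · simp
  · simp [Matrix.one_apply]

private lemma e7_ne_zero (a b : Fin 28) : e7 a b ≠ 0 := by
  rcases e7_cases a b with ⟨_, h⟩ | ⟨_, h | h⟩ <;> rw [h] <;> decide

private lemma Rep.unique {π : Equiv.Perm (Fin 28)} {A A' : Matrix (Fin 7) (Fin 7) ℚ}
    {ε ε' : Fin 28 → ℤ} (h : Rep π A ε) (h' : Rep π A' ε') (hA : A.det = 1) (hA' : A'.det = 1) :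
    A = A' := by
  have h1 : ∀ a, ε a * ε 0 = ε' a * ε' 0 := by
    intro a
    have h2 := h.gram a 0
    rw [h'.gram a 0] at h2
    exact (mul_right_cancel₀ (e7_ne_zero a 0) h2).symm
  have h3 : ∀ a, ε a = (ε 0 * ε' 0) * ε' a := by
    intro a
    have h4 := h1 a
    rcases h.sgn 0 with h5 | h5 <;> rcases h'.sgn 0 with h6 | h6 <;> rw [h5, h6] at h4 ⊢ <;>
      linarith
  have h7 : ε 0 * ε' 0 = 1 ∨ ε 0 * ε' 0 = -1 := by
    rcases h.sgn 0 with h5 | h5 <;> rcases h'.sgn 0 with h6 | h6 <;> simp [h5, h6]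
  rcases h7 with h7 | h7
  · apply cancel_right
    ext j a
    rw [h.mulT, h'.mulT, h3 a, h7, one_mul]
  · exfalso
    have h8 : A = -A' := by
      apply cancel_right
      ext j a
      rw [h.mulT, h'.neg.mulT, h3 a, h7]
      push_cast
      ring
    rw [h8, Matrix.det_neg, hA', Fintype.card_fin] at hA
    norm_num at hA

private lemma Rep.exists_det_one {π : Equiv.Perm (Fin 28)} {A : Matrix (Fin 7) (Fin 7) ℚ}
    {ε : Fin 28 → ℤ} (h : Rep π A ε) : ∃ A' ε', Rep π A' ε' ∧ A'.det = 1 := by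
  rcases h.det_cases with h1 | h1
  · exact ⟨A, ε, h, h1⟩
  · refine ⟨-A, _, h.neg, ?_⟩
    rw [Matrix.det_neg, h1, Fintype.card_fin]
    norm_num

private lemma e7_sq {a b : Fin 28} (h : a ≠ b) : e7 a b * e7 a b = 1 := by
  rcases e7_cases a b with ⟨h1, _⟩ | ⟨_, h1 | h1⟩
  · exact absurd h1 h
  · rw [h1]; rfl
  · rw [h1]; rfl

private lemma exists_sign (w : S7) : ∃ ε : Fin 28 → ℤ, (∀ a, ε a = 1 ∨ ε a = -1) ∧
    ∀ a b, e7 (w • a) (w • b) = ε a * ε b * e7 a b := by
  have hinj : ∀ a b : Fin 28, a ≠ b → w • a ≠ w • b := fun a b h h2 =>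
    h (smul_left_cancel w h2)
  have hself : ∀ a : Fin 28, e7 a a = 3 := by
    intro a
    rcases e7_cases a a with ⟨_, h⟩ | ⟨h, _⟩
    · exact h
    · exact absurd rfl h
  refine ⟨fun a => if a = 0 then 1 else e7 (w • a) (w • (0 : Fin 28)) * e7 a 0, ?_, ?_⟩
  · intro a
    by_cases h : a = 0
    · left
      simp only [if_pos h]
    · simp only [if_neg h]
      have h1 := e7_sq h
      have h2 := e7_sq (hinj a 0 h)
      have h3 : (e7 (w • a) (w • (0 : Fin 28)) * e7 a 0) *
          (e7 (w • a) (w • (0 : Fin 28)) * e7 a 0) = 1 := by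
        calc _ = (e7 (w • a) (w • (0 : Fin 28)) * e7 (w • a) (w • (0 : Fin 28))) *
              (e7 a 0 * e7 a 0) := by ring
          _ = 1 := by rw [h1, h2, one_mul]
      exact mul_self_eq_one_iff.1 h3
  · intro a b
    by_cases hab : a = b
    · subst hab
      rw [hself, hself]
      by_cases h : a = 0
      · simp only [if_pos h]
        rfl
      · simp only [if_neg h]
        have h1 := e7_sq h
        have h2 := e7_sq (hinj a 0 h)
        have h3 : (e7 (w • a) (w • (0 : Fin 28)) * e7 a 0) *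
            (e7 (w • a) (w • (0 : Fin 28)) * e7 a 0) = 1 := by
          calc _ = (e7 (w • a) (w • (0 : Fin 28)) * e7 (w • a) (w • (0 : Fin 28))) *
                (e7 a 0 * e7 a 0) := by ring
            _ = 1 := by rw [h1, h2, one_mul]
        rw [h3, one_mul]
    · by_cases ha : a = 0
      · have hb : b ≠ 0 := fun h => hab (ha.trans h.symm)
        simp only [if_pos ha, if_neg hb]
        rw [ha, one_mul, e7_comm (w • b) (w • 0), mul_assoc, e7_comm 0 b, e7_sq hb, mul_one]
      · by_cases hb : b = 0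
        · simp only [if_neg ha, if_pos hb]
          rw [hb, mul_one, mul_assoc, e7_sq ha, mul_one]
        · simp only [if_neg ha, if_neg hb]
          have h1 : tg7 (w • a) (w • b) (w • (0 : Fin 28)) = tg7 a b 0 := w.2 a b 0
          unfold tg7 at h1
          have h2 := e7_sq (hinj a 0 ha)
          have h3 := e7_sq (hinj b 0 hb)
          calc e7 (w • a) (w • b)
              = (e7 (w • a) (w • b) * e7 (w • b) (w • 0) * e7 (w • a) (w • 0)) *
                (e7 (w • b) (w • 0) * e7 (w • a) (w • 0)) := by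
                have : (e7 (w • a) (w • b) * e7 (w • b) (w • 0) * e7 (w • a) (w • 0)) *
                  (e7 (w • b) (w • 0) * e7 (w • a) (w • 0)) = e7 (w • a) (w • b) *
                  ((e7 (w • b) (w • 0) * e7 (w • b) (w • 0)) *
                  (e7 (w • a) (w • 0) * e7 (w • a) (w • 0))) := by ring
                rw [this, h2, h3, one_mul, mul_one]
            _ = (e7 a b * e7 b 0 * e7 a 0) * (e7 (w • b) (w • 0) * e7 (w • a) (w • 0)) := by
                rw [h1]
            _ = _ := by ring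

private lemma exists_Rep (w : S7) : ∃ A ε, Rep (w : Equiv.Perm (Fin 28)) A ε := by
  obtain ⟨ε, h1, h2⟩ := exists_sign w
  refine ⟨Matrix.of fun j l => (∑ a, (ε a : ℚ) * wt7 (w • a) j * wt7 a l) / 12, ε, h1, h2, ?_⟩
  intro b j
  simp only [Matrix.of_apply]
  have h3 : ∀ a : Fin 28, (ε a : ℚ) * e7 a b = ε b * e7 (w • a) (w • b) := by
    intro a
    have h4 : ε a * e7 a b = ε b * e7 (w • a) (w • b) := by
      rw [h2 a b]
      rcases h1 b with h5 | h5 <;> rw [h5] <;> ring
    exact_mod_cast h4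
  have h4 : ∀ i : Fin 7, ∑ a : Fin 28, (wt7 a j : ℚ) * wt7 a i = if j = i then 12 else 0 := by
    intro i
    have h := wt7_sum j i
    have h2 : ((∑ a, wt7 a j * wt7 a i : ℤ) : ℚ) = ((if j = i then 12 else 0 : ℤ) : ℚ) := by
      rw [h]
    push_cast at h2
    exact h2
  have h5 : ∀ a b : Fin 28, (e7 a b : ℚ) = ∑ l, (wt7 a l : ℚ) * wt7 b l := by
    intro a b
    rw [e7_eq]
    push_cast
    rfl
  calc ∑ l, (∑ a, (ε a : ℚ) * wt7 (w • a) j * wt7 a l) / 12 * (wt7 b l : ℚ)
      = (∑ a, (wt7 (w • a) j : ℚ) * (ε a * e7 a b)) / 12 := by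
        simp only [h5, Finset.sum_div, Finset.sum_mul, Finset.mul_sum]
        rw [Finset.sum_comm]
        refine Finset.sum_congr rfl fun a _ => Finset.sum_congr rfl fun l _ => ?_
        ring
    _ = (∑ a, (wt7 (w • a) j : ℚ) * (ε b * e7 (w • a) (w • b))) / 12 := by
        simp only [h3]
    _ = (∑ a, (wt7 a j : ℚ) * (ε b * e7 a (w • b))) / 12 := by
        congr 1
        exact Equiv.sum_comp (MulAction.toPerm w)
          (fun a : Fin 28 => (wt7 a j : ℚ) * (ε b * e7 a (w • b)))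
    _ = (∑ l, (∑ a : Fin 28, (wt7 a j : ℚ) * wt7 a l) * (ε b * wt7 (w • b) l)) / 12 := by
        congr 1
        simp only [h5, Finset.mul_sum, Finset.sum_mul]
        rw [Finset.sum_comm]
        refine Finset.sum_congr rfl fun a _ => Finset.sum_congr rfl fun l _ => ?_
        ring
    _ = ε b * wt7 (w • b) j := by
        simp only [h4]
        simp

private lemma Rep_tW (i : Fin 63) : Rep (tW i : Equiv.Perm (Fin 28))
    (Matrix.of fun j l => (rho7 i j : ℚ) * rho7 i l / 2 - if j = l then 1 else 0) (sg7 i) := by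
  refine ⟨sg7_cases i, e7_sT7 i, ?_⟩
  intro a j
  have h1 := wt7_sT7 i a j
  have h2 : (2 : ℚ) * (sg7 i a * wt7 (sT7 i a) j) =
      (∑ l, (wt7 a l : ℚ) * rho7 i l) * rho7 i j - 2 * wt7 a j := by
    exact_mod_cast h1
  have h3 : ((tW i : S7) : Equiv.Perm (Fin 28)) a = sT7 i a := rfl
  rw [h3]
  simp only [Matrix.of_apply]
  have h4 : ∑ l, ((rho7 i j : ℚ) * rho7 i l / 2 - if j = l then 1 else 0) * (wt7 a l : ℚ) =
      (∑ l, (wt7 a l : ℚ) * rho7 i l) * rho7 i j / 2 - wt7 a j := by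
    simp only [sub_mul, Finset.sum_sub_distrib]
    congr 1
    · rw [Finset.sum_mul, Finset.sum_div]
      refine Finset.sum_congr rfl fun l _ => ?_
      ring
    · simp
  rw [h4]
  linarith

private lemma det_tW (i : Fin 63) :
    (Matrix.of fun j l => (rho7 i j : ℚ) * rho7 i l / 2 - if j = l then 1 else 0 :
      Matrix (Fin 7) (Fin 7) ℚ).det = 1 := by
  have h1 : (Matrix.of fun j l => (rho7 i j : ℚ) * rho7 i l / 2 - if j = l then 1 else 0 :
      Matrix (Fin 7) (Fin 7) ℚ) = -(1 - Matrix.replicateCol Unit (fun j => (rho7 i j : ℚ)) *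
        Matrix.replicateRow Unit (fun l => (rho7 i l : ℚ) / 2)) := by
    ext j l
    rw [Matrix.neg_apply, Matrix.sub_apply, Matrix.mul_apply, Matrix.of_apply, Matrix.one_apply]
    simp
    ring
  rw [h1, Matrix.det_neg, Matrix.det_one_sub_mul_comm, Fintype.card_fin]
  have h2 : ((∑ j, rho7 i j * rho7 i j : ℤ) : ℚ) = ((4 : ℤ) : ℚ) := by rw [norm_rho7]
  push_cast at h2
  have h3 : ((1 : Matrix Unit Unit ℚ) - Matrix.replicateRow Unit (fun l => (rho7 i l : ℚ) / 2) *
      Matrix.replicateCol Unit (fun j => (rho7 i j : ℚ))).det = -1 := by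
    rw [Matrix.det_unique, Matrix.sub_apply, Matrix.mul_apply, Matrix.one_apply_eq]
    simp only [Matrix.replicateRow_apply, Matrix.replicateCol_apply]
    have h4 : ∑ x, (rho7 i x : ℚ) / 2 * rho7 i x = (∑ x, (rho7 i x : ℚ) * rho7 i x) / 2 := by
      rw [Finset.sum_div]
      refine Finset.sum_congr rfl fun l _ => ?_
      ring
    rw [h4, h2]
    norm_num
  rw [h3]
  norm_num

/-- **The representation.**
Proof.  Let `w` be in `S7`.  Put `f a b = e7 (w a) (w b) * e7 a b = ±1` (`a ≠ b`); the two-graph is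
preserved, so `f a b * f b c * f a c = 1` for different `a`, `b`, `c`, hence there are signs `ε a`
(`ε a = f a 0`, `ε 0 = 1`) with `e7 (w a) (w b) = ε a * ε b * e7 a b` for all `a`, `b`.  So `wt7 a ↦ ε a * wt7
(w a)` preserves the Gram matrix; as the seven weights with indices `0, 1, 2, 4, 5, 8, 12` are a basis
of `ℚ ^ 7` (their determinant is `-8`), there is a matrix `A` with `A (wt7 a) = ε a * wt7 (w a)` for
all `a` (orthogonal, as `wt7` spans); its determinant is `±1`, and replacing `A` and `ε` by `-A` and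
`-ε` we may assume that it is `1`.  `A` is unique: the quotient of two such matrices has all
`wt7 a` as eigenvectors with eigenvalues `±1`, and it preserves `e7 a b ≠ 0`, so the eigenvalues are
all equal, and `-1` is excluded by the determinant.  So `ρ w = A` is multiplicative.  For `tW i` the
matrix is given by `wt7_sT7`, its determinant by `norm_rho7`. -/
theorem exists_rho7 : ∃ ρ : S7 →* Matrix (Fin 7) (Fin 7) ℚ, Function.Injective ρ ∧
    (∀ w, (ρ w).det = 1) ∧
    (∀ w : S7, ∃ ε : Fin 28 → ℤ, (∀ a, ε a = 1 ∨ ε a = -1) ∧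
      ∀ a j, ∑ l, ρ w j l * (wt7 a l : ℚ) = ε a * wt7 (w • a) j) ∧
    ∀ (i : Fin 63) (j l : Fin 7), ρ (tW i) j l =
      (rho7 i j : ℚ) * rho7 i l / 2 - if j = l then 1 else 0 := by
  have h1 : ∀ w : S7, ∃ A : Matrix (Fin 7) (Fin 7) ℚ, ∃ ε,
      Rep (w : Equiv.Perm (Fin 28)) A ε ∧ A.det = 1 := by
    intro w
    obtain ⟨A, ε, h⟩ := exists_Rep w
    exact h.exists_det_one
  choose A ε hR hdet using h1
  refine ⟨⟨⟨A, ?_⟩, ?_⟩, ?_, ?_, ?_, ?_⟩
  · exact (hR 1).unique Rep.one (hdet 1) Matrix.det_one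
  · intro w w'
    refine (hR (w * w')).unique ((hR w).mul (hR w')) (hdet _) ?_
    rw [Matrix.det_mul, hdet, hdet, one_mul]
  · intro w w' hw
    have hw2 : A w = A w' := hw
    apply S7_ext
    intro a
    have h2 : ∀ j, (ε w a : ℚ) * wt7 (w • a) j = ε w' a * wt7 (w' • a) j := by
      intro j
      have h3 := (hR w).map a j
      have h4 := (hR w').map a j
      rw [hw2, h4] at h3
      exact h3.symm
    have h3 : ∀ j, ε w a * wt7 (w • a) j = ε w' a * wt7 (w' • a) j := by
      intro j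
      exact_mod_cast h2 j
    have h4 : ε w a * e7 (w • a) (w • a) = ε w' a * e7 (w • a) (w' • a) := by
      rw [e7_eq, e7_eq, Finset.mul_sum, Finset.mul_sum]
      refine Finset.sum_congr rfl fun j _ => ?_
      have h5 := h3 j
      calc ε w a * (wt7 (w • a) j * wt7 (w • a) j)
          = wt7 (w • a) j * (ε w a * wt7 (w • a) j) := by ring
        _ = wt7 (w • a) j * (ε w' a * wt7 (w' • a) j) := by rw [h5]
        _ = _ := by ring
    by_contra hne
    have h5 : e7 (w • a) (w • a) = 3 := by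
      rcases e7_cases (w • a) (w • a) with ⟨_, h⟩ | ⟨h, _⟩
      · exact h
      · exact absurd rfl h
    rcases e7_cases (w • a) (w' • a) with ⟨h, _⟩ | ⟨_, h6⟩
    · exact hne h
    · rw [h5] at h4
      rcases (hR w).sgn a with h7 | h7 <;> rcases (hR w').sgn a with h8 | h8 <;>
        rcases h6 with h6 | h6 <;> rw [h7, h8, h6] at h4 <;> norm_num at h4
  · exact hdet
  · intro w
    exact ⟨ε w, (hR w).sgn, (hR w).map⟩
  · intro i j l
    have h2 := (hR (tW i)).unique (Rep_tW i) (hdet _) (det_tW i)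
    change A (tW i) j l = _
    rw [h2, Matrix.of_apply]

end Pool.Agent.Lib.MP_12adaf_nt.E7
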