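import Pool.Agent.Lib.MP_12adaf_ntE7.F1

/-!
# The rotation group of type `E₇` is simple
-/

namespace Pool.Agent.Lib.MP_12adaf_nt.E7

open scoped Pointwise commutatorElement

/-! ### Facts checked by the kernel -/

private theorem F3_sep : ∀ d d' : Fin 28, tg7 0 1 d = -1 → tg7 0 1 d' = -1 → d ≠ d' →
    ∃ c : Fin 28, tg7 0 1 c = 1 ∧ tg7 0 c d ≠ tg7 0 c d' := by decide +kernel

private theorem F3_tg : ∀ d : Fin 28, d = 0 ∨ d = 1 ∨ tg7 0 1 d = 1 ∨ tg7 0 1 d = -1 := by
  decide +kernel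

private theorem F3_mid01 : ∀ e : Fin 28, e ≠ 0 →
    ∃ d : Fin 28, d ≠ 0 ∧ d ≠ 1 ∧ d ≠ e ∧ tg7 0 1 d = 1 ∧ tg7 0 d e = 1 := by decide +kernel

private lemma F3_self (a : Fin 28) : e7 a a = 3 := by
  rcases e7_cases a a with h | h
  · exact h.2
  · exact absurd rfl h.1

private theorem F3_tg_dist : ∀ a b c : Fin 28, tg7 a b c = 1 → a ≠ b ∧ c ≠ a ∧ c ≠ b := by
  intro a b c h
  have key : ∀ m : ℤ, 3 * m ≠ 1 := fun m => by omega
  refine ⟨?_, ?_, ?_⟩
  · rintro rfl
    refine key (e7 a c * e7 a c) ?_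
    rw [← h, tg7, F3_self]
    ring
  · rintro rfl
    refine key (e7 c b * e7 b c) ?_
    rw [← h, tg7, F3_self]
    ring
  · rintro rfl
    refine key (e7 a c * e7 a c) ?_
    rw [← h, tg7, F3_self]
    ring

private theorem F3_base : ∀ j : Fin 63, j ≠ di7 0 1 → ∃ a : Fin 28, sT7 (di7 0 1) a ≠ a ∧
    sT7 j a ≠ a ∧ (tg7 a (sT7 (di7 0 1) a) (sT7 j a) = 1 ∨
      ∃ k : Fin 63, sT7 k a = a ∧ sT7 k (sT7 (di7 0 1) a) = sT7 (di7 0 1) a ∧
        tg7 a (sT7 j a) (sT7 k (sT7 j a)) = 1) := by decide +kernel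

private theorem F3_seven : ∀ a : Fin 28,
    sT7 0 (sT7 1 (sT7 2 (sT7 3 (sT7 4 (sT7 5 (sT7 6 a)))))) = a := by decide +kernel

private theorem F3_nc : sT7 0 (sT7 15 0) ≠ sT7 15 (sT7 0 0) := by decide +kernel

private theorem F3_di_comm : ∀ a b : Fin 28, a ≠ b → di7 a b = di7 b a := by decide +kernel

private lemma F3_tg_swap (a b c : Fin 28) : tg7 a b c = tg7 a c b := by
  unfold tg7
  have h : e7 b c = e7 c b := by rw [e7_eq, e7_eq]; exact Finset.sum_congr rfl fun j _ => mul_comm _ _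
  rw [h]; ring

private lemma F3_tg_swap' (a b c : Fin 28) : tg7 a b c = tg7 b a c := by
  unfold tg7
  have h : e7 a b = e7 b a := by rw [e7_eq, e7_eq]; exact Finset.sum_congr rfl fun j _ => mul_comm _ _
  rw [h]; ring

private lemma F3_tg_smul (w : S7) (a b c : Fin 28) :
    tg7 (w • a) (w • b) (w • c) = tg7 a b c := w.2 a b c

private theorem F3_mid (a b e : Fin 28) (hab : a ≠ b) (hea : e ≠ a) :
    ∃ d : Fin 28, d ≠ a ∧ d ≠ b ∧ d ≠ e ∧ tg7 a b d = 1 ∧ tg7 a d e = 1 := by
  obtain ⟨v, hv0, hv1⟩ := exists_smul_eq2 (a := 0) (b := 1) (c := a) (d := b) (by decide) hab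
  obtain ⟨d, h1, h2, h3, h4, h5⟩ := F3_mid01 (v⁻¹ • e) fun h => hea (by
    rw [← hv0, ← h, smul_inv_smul])
  refine ⟨v • d, fun h => h1 ?_, fun h => h2 ?_, fun h => h3 ?_, ?_, ?_⟩
  · exact smul_left_cancel v (h.trans hv0.symm)
  · exact smul_left_cancel v (h.trans hv1.symm)
  · rw [← h, inv_smul_smul]
  · rw [← h4, ← F3_tg_smul v 0 1 d, hv0, hv1]
  · rw [← h5, ← F3_tg_smul v 0 d (v⁻¹ • e), hv0, smul_inv_smul]

/-! ### Reflections and conjugation -/

private lemma F3_fix01 {g : S7} (h0 : g • (0 : Fin 28) = 0) (h1 : g • (1 : Fin 28) = 1)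
    (h : ∀ c : Fin 28, tg7 0 1 c = 1 → g • c = c) : g = 1 := by
  apply S7_ext
  intro d
  rw [one_smul]
  rcases F3_tg d with hd | hd | hd | hd
  · rw [hd, h0]
  · rw [hd, h1]
  · exact h d hd
  · by_contra hne
    have h2 : tg7 0 1 (g • d) = -1 := by
      have h3 := F3_tg_smul g 0 1 d
      rw [h0, h1] at h3
      rw [h3, hd]
    obtain ⟨c, hc, hcd⟩ := F3_sep (g • d) d h2 hd hne
    apply hcd
    have h3 := F3_tg_smul g 0 c d
    rw [h0, h c hc] at h3
    exact h3

private lemma F3_fix {g : S7} {a b : Fin 28} (hab : a ≠ b) (ha : g • a = a) (hb : g • b = b)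
    (h : ∀ c : Fin 28, tg7 a b c = 1 → g • c = c) : g = 1 := by
  obtain ⟨v, hv0, hv1⟩ := exists_smul_eq2 (a := 0) (b := 1) (c := a) (d := b) (by decide) hab
  have key : v⁻¹ * g * v = 1 := by
    apply F3_fix01
    · rw [mul_smul, mul_smul, hv0, ha, ← hv0, inv_smul_smul]
    · rw [mul_smul, mul_smul, hv1, hb, ← hv1, inv_smul_smul]
    · intro c hc
      have h2 : g • (v • c) = v • c := by
        apply h
        have h3 := F3_tg_smul v 0 1 c
        rw [hv0, hv1] at h3
        rw [h3, hc]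
      rw [mul_smul, mul_smul, h2, inv_smul_smul]
  calc g = v * (v⁻¹ * g * v) * v⁻¹ := by group
    _ = 1 := by rw [key]; group

private lemma F3_smul_left {a b : Fin 28} (h : a ≠ b) : tW (di7 a b) • a = b := by
  rw [tW_smul, sT7_di7 a b h]

private lemma F3_smul_right {a b : Fin 28} (h : a ≠ b) : tW (di7 a b) • b = a := by
  rw [F3_di_comm a b h]
  exact F3_smul_left h.symm

private lemma F3_smul_fix {a b c : Fin 28} (h : tg7 a b c = 1) : tW (di7 a b) • c = c := by
  obtain ⟨h1, h2, h3⟩ := F3_tg_dist a b c h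
  rw [tW_smul]
  exact (sT7_di7_fix a b c h1 h2 h3).mpr h

private lemma F3_eq_tW {g : S7} {a b : Fin 28} (hab : a ≠ b) (ha : g • a = b) (hb : g • b = a)
    (h : ∀ c : Fin 28, tg7 a b c = 1 → g • c = c) : g = tW (di7 a b) := by
  have h1 : tW (di7 a b) * g = 1 := by
    apply F3_fix hab
    · rw [mul_smul, ha, F3_smul_right hab]
    · rw [mul_smul, hb, F3_smul_left hab]
    · intro c hc
      rw [mul_smul, h c hc, F3_smul_fix hc]
  calc g = (tW (di7 a b) * tW (di7 a b)) * g := by rw [tW_mul_self, one_mul]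
    _ = tW (di7 a b) * (tW (di7 a b) * g) := by group
    _ = tW (di7 a b) := by rw [h1, mul_one]

private lemma F3_conj (w : S7) {a b : Fin 28} (hab : a ≠ b) :
    w * tW (di7 a b) * w⁻¹ = tW (di7 (w • a) (w • b)) := by
  apply F3_eq_tW
  · intro h
    exact hab (MulAction.injective w h)
  · rw [mul_smul, mul_smul, inv_smul_smul, F3_smul_left hab]
  · rw [mul_smul, mul_smul, inv_smul_smul, F3_smul_right hab]
  · intro c hc
    have h1 : tg7 a b (w⁻¹ • c) = 1 := by
      have h2 := F3_tg_smul w a b (w⁻¹ • c)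
      rw [smul_inv_smul] at h2
      rw [← h2, hc]
    rw [mul_smul, mul_smul, F3_smul_fix h1, smul_inv_smul]

private lemma F3_exists (i : Fin 63) : ∃ a b : Fin 28, a ≠ b ∧ i = di7 a b := by
  obtain ⟨a, ha⟩ := sT7_ne i
  exact ⟨a, sT7 i a, fun h => ha h.symm, di7_unique i a ha⟩

private lemma F3_inj {i j : Fin 63} (h : tW i = tW j) : i = j := by
  obtain ⟨a, ha⟩ := sT7_ne i
  have h1 : sT7 i a = sT7 j a := by
    rw [← tW_smul, ← tW_smul, h]
  have h2 := di7_unique i a ha
  rw [h1] at ha h2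
  rw [h2, ← di7_unique j a ha]

private lemma F3_conj_exists (w : S7) (i : Fin 63) : ∃ j : Fin 63, w * tW i * w⁻¹ = tW j := by
  obtain ⟨a, b, hab, rfl⟩ := F3_exists i
  exact ⟨_, F3_conj w hab⟩

/-! ### The action on the 63 reflections -/

private noncomputable def F3_cj (w : S7) (i : Fin 63) : Fin 63 := (F3_conj_exists w i).choose

private lemma F3_cj_spec (w : S7) (i : Fin 63) : w * tW i * w⁻¹ = tW (F3_cj w i) :=
  (F3_conj_exists w i).choose_spec

@[instance_reducible] private noncomputable def F3_act : MulAction S7 (Fin 63) where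
  smul := F3_cj
  one_smul i := by
    apply F3_inj
    change tW (F3_cj 1 i) = tW i
    rw [← F3_cj_spec]
    group
  mul_smul u v i := by
    apply F3_inj
    change tW (F3_cj (u * v) i) = tW (F3_cj u (F3_cj v i))
    rw [← F3_cj_spec, ← F3_cj_spec, ← F3_cj_spec]
    group

attribute [local instance] F3_act

private lemma F3_act_spec (w : S7) (i : Fin 63) : tW (w • i) = w * tW i * w⁻¹ :=
  (F3_cj_spec w i).symm

private lemma F3_act_di (w : S7) {a b : Fin 28} (hab : a ≠ b) :
    w • di7 a b = di7 (w • a) (w • b) := by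
  apply F3_inj
  rw [F3_act_spec, F3_conj w hab]

private lemma F3_trans : MulAction.IsPretransitive S7 (Fin 63) := by
  constructor
  intro i j
  obtain ⟨a, b, hab, rfl⟩ := F3_exists i
  obtain ⟨c, d, hcd, rfl⟩ := F3_exists j
  obtain ⟨w, h1, h2⟩ := exists_smul_eq2 hab hcd
  exact ⟨w, by rw [F3_act_di w hab, h1, h2]⟩

private lemma F3_block1 {B : Set (Fin 63)} (hB : MulAction.IsBlock S7 B) {a b c : Fin 28}
    (h1 : di7 a b ∈ B) (h2 : di7 a c ∈ B) (h : tg7 a b c = 1) {d : Fin 28}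
    (hd : tg7 a b d = 1) : di7 a d ∈ B := by
  obtain ⟨hab, hca, hcb⟩ := F3_tg_dist a b c h
  obtain ⟨_, hda, hdb⟩ := F3_tg_dist a b d hd
  obtain ⟨w, hwa, hwb, hwc⟩ := exists_smul_eq3 hab ⟨hca, hcb⟩ ⟨hda, hdb⟩ h hd
  have h3 : w • di7 a b = di7 a b := by rw [F3_act_di w hab, hwa, hwb]
  have h4 : w • B = B := hB.smul_eq_of_mem h1 (by rw [h3]; exact h1)
  rw [← h4]
  exact ⟨di7 a c, h2, by
    change w • di7 a c = di7 a d
    rw [F3_act_di w hca.symm, hwa, hwc]⟩

private lemma F3_block2 {B : Set (Fin 63)} (hB : MulAction.IsBlock S7 B) {a b c : Fin 28}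
    (h1 : di7 a b ∈ B) (h2 : di7 a c ∈ B) (h : tg7 a b c = 1) {e : Fin 28}
    (he : e ≠ a) : di7 a e ∈ B := by
  obtain ⟨hab, _, _⟩ := F3_tg_dist a b c h
  obtain ⟨d, _, _, _, h3, h4⟩ := F3_mid a b e hab he
  have h5 : di7 a d ∈ B := F3_block1 hB h1 h2 h h3
  exact F3_block1 hB h5 h1 (by rw [F3_tg_swap]; exact h3) h4

private lemma F3_block3 {B : Set (Fin 63)} (hB : MulAction.IsBlock S7 B) {a b c : Fin 28}
    (h1 : di7 a b ∈ B) (h2 : di7 a c ∈ B) (h : tg7 a b c = 1) : B = Set.univ := by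
  rw [Set.eq_univ_iff_forall]
  intro i
  obtain ⟨p, q, hpq, rfl⟩ := F3_exists i
  by_cases hpa : p = a
  · subst hpa
    exact F3_block2 hB h1 h2 h hpq.symm
  obtain ⟨d, hda, hdp, _, h3, _⟩ := F3_mid a p p (fun h => hpa h.symm) hpa
  have h4 : di7 a p ∈ B := F3_block2 hB h1 h2 h hpa
  have h5 : di7 a d ∈ B := F3_block2 hB h1 h2 h hda
  have hap : a ≠ p := fun h => hpa h.symm
  have h6 : tW (di7 a p) • di7 a p = di7 a p := by
    rw [F3_act_di _ hap, F3_smul_left hap, F3_smul_right hap, F3_di_comm p a hpa]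
  have h7 : tW (di7 a p) • B = B := hB.smul_eq_of_mem h4 (by rw [h6]; exact h4)
  have h8 : di7 p d ∈ B := by
    rw [← h7]
    exact ⟨di7 a d, h5, by
      change tW (di7 a p) • di7 a d = di7 p d
      rw [F3_act_di _ hda.symm, F3_smul_left hap, F3_smul_fix h3]⟩
  have h9 : di7 p a ∈ B := by
    rw [F3_di_comm p a hpa]
    exact h4
  exact F3_block2 hB h9 h8 (by rw [F3_tg_swap']; exact h3) hpq.symm

private lemma F3_prim : MulAction.IsPreprimitive S7 (Fin 63) := by
  have := F3_trans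
  apply MulAction.IsPreprimitive.of_isTrivialBlock_base (di7 0 1)
  intro B h0 hB
  by_cases hs : B.Subsingleton
  · exact Or.inl hs
  right
  have : ∃ j ∈ B, j ≠ di7 0 1 := by
    by_contra hcon
    push Not at hcon
    apply hs
    intro x hx y hy
    rw [hcon x hx, hcon y hy]
  obtain ⟨j, hj, hne⟩ := this
  obtain ⟨a, ha1, ha2, h⟩ := F3_base j hne
  have hi : di7 0 1 = di7 a (sT7 (di7 0 1) a) := di7_unique _ a ha1
  have hj' : j = di7 a (sT7 j a) := di7_unique _ a ha2
  rcases h with h | ⟨k, hk1, hk2, hk3⟩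
  · exact F3_block3 hB (a := a) (by rw [← hi]; exact h0) (by rw [← hj']; exact hj) h
  · have h6 : tW k • di7 0 1 = di7 0 1 := by
      rw [hi, F3_act_di _ (fun h => ha1 h.symm), tW_smul, tW_smul, ← hi, hk1, hk2]
      exact hi.symm
    have h7 : tW k • B = B := hB.smul_eq_of_mem h0 (by rw [h6]; exact h0)
    have h8 : di7 a (sT7 k (sT7 j a)) ∈ B := by
      rw [← h7]
      refine ⟨j, hj, ?_⟩
      change tW k • j = _
      rw [hj', F3_act_di _ (fun h => ha2 h.symm), tW_smul, tW_smul, ← hj', hk1]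
    exact F3_block3 hB (a := a) (by rw [← hj']; exact hj) h8 hk3

private lemma F3_faithful : FaithfulSMul S7 (Fin 63) := by
  have key : ∀ z : S7, (∀ i : Fin 63, z • i = i) → z = 1 := by
    intro z hz
    apply S7_ext
    intro a
    rw [one_smul]
    by_contra hne
    obtain ⟨c, hca, _, _, _, hc⟩ := F3_mid a (z • a) (z • a) (fun h => hne h.symm) hne
    have h1 : z * tW (di7 a c) * z⁻¹ = tW (di7 a c) := by
      rw [← F3_act_spec, hz]
    have h2 : tW (di7 a c) • (z • a) = z • c := by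
      conv_lhs => rw [← h1]
      rw [mul_smul, mul_smul, inv_smul_smul, F3_smul_left hca.symm]
    rw [F3_smul_fix hc] at h2
    exact hca (MulAction.injective z h2.symm)
  constructor
  intro u v h
  have h1 : v⁻¹ * u = 1 := by
    apply key
    intro i
    rw [mul_smul, h i, inv_smul_smul]
  rw [inv_mul_eq_one] at h1
  exact h1.symm

/-! ### The group is perfect -/

private lemma F3_inv (i : Fin 63) : (tW i)⁻¹ = tW i := by
  rw [inv_eq_iff_mul_eq_one, tW_mul_self]

private lemma F3_mul_mem (i j : Fin 63) : tW i * tW j ∈ commutator S7 := by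
  obtain ⟨w, hw⟩ := F3_trans.exists_smul_eq i j
  have h1 : tW i * tW j = ⁅tW i, w⁆ := by
    rw [← hw, F3_act_spec, commutatorElement_def, F3_inv]
    group
  rw [h1]
  exact Subgroup.commutator_mem_commutator (Subgroup.mem_top _) (Subgroup.mem_top _)

private lemma F3_mem0 : tW 0 ∈ commutator S7 := by
  have h : tW 0 * (tW 1 * tW 2) * (tW 3 * tW 4) * (tW 5 * tW 6) = 1 := by
    apply S7_ext
    intro a
    rw [one_smul]
    simp only [mul_smul, tW_smul]
    exact F3_seven a
  have h1 : tW 0 = (tW 5 * tW 6)⁻¹ * (tW 3 * tW 4)⁻¹ * (tW 1 * tW 2)⁻¹ := by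
    rw [← mul_one (tW 0)]
    have h2 : tW 0 = 1 * (tW 5 * tW 6)⁻¹ * (tW 3 * tW 4)⁻¹ * (tW 1 * tW 2)⁻¹ := by
      rw [← h]; group
    rw [mul_one]
    conv_lhs => rw [h2]
    rw [one_mul]
  rw [h1]
  exact mul_mem (mul_mem (inv_mem (F3_mul_mem _ _)) (inv_mem (F3_mul_mem _ _)))
    (inv_mem (F3_mul_mem _ _))

private lemma F3_perfect : commutator S7 = ⊤ := by
  rw [eq_top_iff, ← closure_tW, Subgroup.closure_le]
  rintro _ ⟨i, rfl⟩
  have h : tW i = (tW i * tW 0) * tW 0 := by
    rw [mul_assoc, tW_mul_self, mul_one]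
  rw [h]
  exact mul_mem (F3_mul_mem i 0) F3_mem0

private noncomputable def F3_iwa : MulAction.IwasawaStructure S7 (Fin 63) where
  T i := Subgroup.zpowers (tW i)
  is_comm i := inferInstance
  is_conj g i := by
    rw [F3_act_spec]
    change _ = (Subgroup.zpowers (tW i)).map (MulAut.conj g).toMonoidHom
    rw [MonoidHom.map_zpowers]
    rfl
  is_generator := by
    rw [eq_top_iff, ← closure_tW, Subgroup.closure_le]
    rintro _ ⟨i, rfl⟩
    exact Subgroup.mem_iSup_of_mem i (Subgroup.mem_zpowers _)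

private lemma F3_noncomm : ∃ a b : S7, a * b ≠ b * a := by
  refine ⟨tW 0, tW 15, fun h => F3_nc ?_⟩
  have h2 := congrArg (fun w : S7 => w • (0 : Fin 28)) h
  exact h2

/-- **Simplicity.**
Proof by Iwasawa's criterion (`MulAction.IwasawaStructure.isSimpleGroup`) for the action on the 63
elements `tW i` by conjugation (define an action on `Fin 63`, e.g. through pairs of weights:
`w * tW (di7 a b) * w⁻¹ = tW (di7 (w • a) (w • b))`), with the commutative subgroups generated by
the `tW i`; they generate `S7` (`closure_tW`).  The action is faithful, transitive and primitive: the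
orbits of the stabilizer of `i` are `{i}`, the 30 roots orthogonal to it and the 32 others (the
stabilizer of `i` contains the `tW j`, `j` orthogonal to `i`, and `tW i`), and 31, 33 do not divide 63
(or directly).  `S7` is perfect: `tW i` and `tW j` are conjugate, so `tW i * tW j` is a commutator;
hence `tW i * tW j` is in the commutator subgroup for all `i`, `j`, and a relation of odd length, for
instance a product of seven mutually orthogonal `tW i` is the identity, shows that `tW i` is.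
Examples of seven such indices: the roots `2 e_j`, that is `0, …, 6` (kernel-checked). -/
theorem isSimpleGroup_S7 : IsSimpleGroup S7 := by
  have : MulAction.IsPreprimitive S7 (Fin 63) := F3_prim
  have : Nontrivial S7 := by
    obtain ⟨a, b, h⟩ := F3_noncomm
    exact ⟨a * b, b * a, h⟩
  exact F3_iwa.isSimpleGroup F3_perfect F3_faithful

theorem noncomm_S7 : ∃ a b : S7, a * b ≠ b * a := F3_noncomm

end Pool.Agent.Lib.MP_12adaf_nt.E7
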