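
import Pool.Agent.Lib.MP_12adaf_ntE7.F1

/-!
# Automorphisms of the rotation group of type `E₇`
-/

namespace Pool.Agent.Lib.MP_12adaf_nt.E7

private lemma f4_tg7_smul (w : S7) (a b c : Fin 28) :
    tg7 (w • a) (w • b) (w • c) = tg7 a b c := w.2 a b c

private theorem f4_sT7_di7' : ∀ a b : Fin 28, a ≠ b → sT7 (di7 a b) b = a := by decide +kernel

/-- the check of `f4_sig` -/
private noncomputable def f4_sigC : Bool :=
  Pk.allB (fun d => Pk.allB (fun d' => Pk.disB (Nat.beq d d') (Pk.anyB (fun x =>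
    Pk.conB (Pk.notB (Nat.beq x 0)) (Pk.conB (Pk.notB (Nat.beq x 1))
      (Pk.conB (Nat.beq (Pk.t 0 1 x) 1)
        (Pk.notB (Nat.beq (Pk.t 0 x d) (Pk.t 0 x d')))))) 28)) 28) 28

private theorem f4_sigC_true : f4_sigC = true := by decide +kernel

private lemma f4_tg_of {x : Fin 28} (hx0 : x ≠ 0) (hx1 : x ≠ 1) (h : Pk.t 0 1 x = 1) :
    tg7 0 1 x = 1 := by
  have h4 : tg7 0 1 x % 5 = (Pk.t 0 1 x : ℕ) := Pk.t_eq 0 1 x
  rw [h] at h4
  have e1 : e7 0 1 = 1 ∨ e7 0 1 = -1 :=
    ((e7_cases 0 1).resolve_left fun h => absurd h.1 (by decide)).2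
  have e2 : e7 1 x = 1 ∨ e7 1 x = -1 := ((e7_cases 1 x).resolve_left fun h => hx1 h.1.symm).2
  have e3 : e7 0 x = 1 ∨ e7 0 x = -1 := ((e7_cases 0 x).resolve_left fun h => hx0 h.1.symm).2
  unfold tg7 at h4 ⊢
  rcases e1 with e1 | e1 <;> rcases e2 with e2 | e2 <;> rcases e3 with e3 | e3 <;>
    rw [e1, e2, e3] at h4 ⊢ <;> first | rfl | exact absurd h4 (by norm_num)

private theorem f4_sig : ∀ d d' : Fin 28,
    (∀ x : Fin 28, x ≠ 0 → x ≠ 1 → tg7 0 1 x = 1 → tg7 0 x d = tg7 0 x d') → d = d' := by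
  intro d d' hd
  rcases Pk.disB_spec (Pk.allB_spec (Pk.allB_spec f4_sigC_true d d.2) d' d'.2) with h | h
  · exact Fin.ext (Pk.of_beq h)
  · exfalso
    obtain ⟨x, hx, h⟩ := Pk.anyB_spec h
    obtain ⟨h0, h⟩ := Pk.conB_spec h
    obtain ⟨h1, h⟩ := Pk.conB_spec h
    obtain ⟨h2, h3⟩ := Pk.conB_spec h
    have g0 : (⟨x, hx⟩ : Fin 28) ≠ 0 := fun h4 =>
      Pk.not_beq (Pk.notB_spec h0) (congrArg Fin.val h4)
    have g1 : (⟨x, hx⟩ : Fin 28) ≠ 1 := fun h4 =>
      Pk.not_beq (Pk.notB_spec h1) (congrArg Fin.val h4)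
    have g2 := hd ⟨x, hx⟩ g0 g1 (f4_tg_of g0 g1 (Pk.of_beq h2))
    exact Pk.not_beq (Pk.notB_spec h3) (Pk.t_congr g2)

/-- An element which fixes `0`, `1` and the 16 points fixed by the reflection exchanging them is
trivial. -/
private lemma f4_fix01 (z : S7) (h0 : z • (0 : Fin 28) = 0)
    (h : ∀ c : Fin 28, c ≠ 0 → c ≠ 1 → tg7 0 1 c = 1 → z • c = c) : z = 1 := by
  refine S7_ext fun d => ?_
  rw [one_smul]
  refine f4_sig _ _ fun x hx0 hx1 hx => ?_
  have h1 := f4_tg7_smul z 0 x d
  rwa [h0, h x hx0 hx1 hx] at h1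

private lemma f4_fix16 {a b : Fin 28} (hab : a ≠ b) (z : S7) (ha : z • a = a)
    (h : ∀ c : Fin 28, c ≠ a → c ≠ b → tg7 a b c = 1 → z • c = c) : z = 1 := by
  obtain ⟨w, hw1, hw2⟩ := exists_smul_eq2 hab (show (0 : Fin 28) ≠ 1 by decide)
  have ha' : w⁻¹ • (0 : Fin 28) = a := by rw [inv_smul_eq_iff, hw1]
  have hb' : w⁻¹ • (1 : Fin 28) = b := by rw [inv_smul_eq_iff, hw2]
  have key : w * z * w⁻¹ = 1 := by
    refine f4_fix01 _ ?_ fun c hc0 hc1 hc => ?_
    · rw [mul_smul, mul_smul, ha', ha, hw1]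
    · rw [mul_smul, mul_smul, h (w⁻¹ • c), smul_inv_smul]
      · intro h1
        apply hc0
        rw [← hw1, ← h1, smul_inv_smul]
      · intro h1
        apply hc1
        rw [← hw2, ← h1, smul_inv_smul]
      · rw [← ha', ← hb', f4_tg7_smul, hc]
  have h1 : z = w⁻¹ * (w * z * w⁻¹) * w := by group
  rw [h1, key, mul_one, inv_mul_cancel]

/-- The conjugates of the `tW i`. -/
theorem conj_tW (w : S7) {a b : Fin 28} (hab : a ≠ b) :
    w * tW (di7 a b) * w⁻¹ = tW (di7 (w • a) (w • b)) := by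
  have hab' : w • a ≠ w • b := fun h => hab (MulAction.injective w h)
  have hwa : w⁻¹ • (w • a) = a := inv_smul_smul w a
  have key : tW (di7 (w • a) (w • b)) * (w * tW (di7 a b) * w⁻¹) = 1 := by
    refine f4_fix16 hab' _ ?_ fun c hc0 hc1 hc => ?_
    · rw [mul_smul, mul_smul, mul_smul, hwa, tW_smul, tW_smul, sT7_di7 _ _ hab,
        f4_sT7_di7' _ _ hab']
    · have h1 : tg7 a b (w⁻¹ • c) = 1 := by
        rw [← f4_tg7_smul w, smul_inv_smul, hc]
      have h2 : w⁻¹ • c ≠ a := by
        intro h2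
        rw [inv_smul_eq_iff] at h2
        exact hc0 h2
      have h3 : w⁻¹ • c ≠ b := by
        intro h3
        rw [inv_smul_eq_iff] at h3
        exact hc1 h3
      rw [mul_smul, mul_smul, mul_smul, tW_smul (di7 a b),
        (sT7_di7_fix a b _ hab h2 h3).2 h1, smul_inv_smul, tW_smul,
        (sT7_di7_fix _ _ _ hab' hc0 hc1).2 hc]
  have h1 : (tW (di7 (w • a) (w • b)))⁻¹ = tW (di7 (w • a) (w • b)) :=
    inv_eq_of_mul_eq_one_right (tW_mul_self _)
  rw [← h1]
  exact (inv_eq_of_mul_eq_one_right key).symm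

/-- A subgroup of order 51840 fixes exactly one of the 28 points.
Proof.  Let `P` be a Sylow 3-subgroup of `H`, of order 81.  It has a fixed point `x`, as
`28 ≡ 1 mod 3` (`IsPGroup.card_modEq_card_fixedPoints`).  For `y ≠ x` the stabilizer of `y` in `P` is
contained in the pointwise stabilizer of `x` and `y` in `S7`, of order `1920 = 2 ^ 7 * 3 * 5`
(`card_stab2`), so it has at most 3 elements and the orbit of `y` has at least 27: `P` is transitive on
the 27 points different from `x`.  So if `H` does not fix `x` it is transitive on the 28 points, and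
28 divides 51840, a contradiction.  So `H` is contained in the stabilizer of `x`, which has the same
order. -/
theorem eq_stabilizer {H : Subgroup S7} (hH : Nat.card H = 51840) :
    ∃ x : Fin 28, H = MulAction.stabilizer S7 x := by
  have : Fact (Nat.Prime 3) := ⟨Nat.prime_three⟩
  obtain ⟨K, hK⟩ := Sylow.exists_subgroup_card_pow_prime (G := H) 3 (n := 4) (by
    rw [hH]; norm_num)
  obtain ⟨P, hPH, hP⟩ : ∃ P : Subgroup S7, P ≤ H ∧ Nat.card P = 81 := by
    refine ⟨K.map H.subtype, ?_, ?_⟩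
    · rintro _ ⟨u, _, rfl⟩
      exact u.2
    · have h1 : Nat.card (K.map H.subtype) = Nat.card K :=
        Nat.card_congr (K.equivMapOfInjective H.subtype H.subtype_injective).symm.toEquiv
      rw [h1, hK]; norm_num
  have hPp : IsPGroup 3 P := IsPGroup.of_card (n := 4) (by rw [hP]; norm_num)
  obtain ⟨x, hx⟩ : ∃ x : Fin 28, ∀ u : P, u • x = x := by
    have h1 := hPp.card_modEq_card_fixedPoints (Fin 28)
    by_contra h2
    push Not at h2
    have h3 : IsEmpty (MulAction.fixedPoints P (Fin 28)) := by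
      constructor
      rintro ⟨x, hx⟩
      obtain ⟨u, hu⟩ := h2 x
      exact hu (hx u)
    rw [Nat.card_of_isEmpty (α := MulAction.fixedPoints P (Fin 28)), Nat.card_eq_fintype_card,
      Fintype.card_fin] at h1
    exact absurd h1 (by decide)
  -- the orbits of `P`
  have horb : ∀ y : Fin 28, y ≠ x → 27 ≤ Nat.card (MulAction.orbit P y) := by
    intro y hy
    have h1 : Nat.card (MulAction.orbit P y) * Nat.card (MulAction.stabilizer P y) = 81 := by
      rw [← hP, ← Nat.card_prod]
      exact Nat.card_congr (MulAction.orbitProdStabilizerEquivGroup P y)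
    have h2 : Nat.card (MulAction.stabilizer P y) ∣ 1920 := by
      rw [← card_stab2 hy.symm]
      have h3 : Nat.card ((MulAction.stabilizer P y).map P.subtype) =
          Nat.card (MulAction.stabilizer P y) :=
        Nat.card_congr
          ((MulAction.stabilizer P y).equivMapOfInjective P.subtype P.subtype_injective).symm.toEquiv
      rw [← h3]
      refine Subgroup.card_dvd_of_le ?_
      rintro _ ⟨u, hu, rfl⟩
      exact ⟨hx u, hu⟩
    have h3 : Nat.card (MulAction.stabilizer P y) ∣ 81 := Dvd.intro_left _ h1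
    have h4 : Nat.card (MulAction.stabilizer P y) ∣ Nat.gcd 1920 81 := Nat.dvd_gcd h2 h3
    have h5 : Nat.card (MulAction.stabilizer P y) ≤ 3 :=
      Nat.le_of_dvd (by norm_num) (by simpa using h4)
    nlinarith
  have horb2 : ∀ y : Fin 28, y ≠ x → ∀ z : Fin 28, z ≠ x → z ∈ MulAction.orbit P y := by
    intro y hy z hz
    by_contra h1
    have h2 := horb y hy
    have h3 : MulAction.orbit P y ⊆ (((Finset.univ : Finset (Fin 28)).erase x).erase z : Finset (Fin 28)) := by
      rintro _ ⟨u, rfl⟩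
      rw [Finset.mem_coe, Finset.mem_erase, Finset.mem_erase]
      refine ⟨fun h4 => h1 ⟨u, h4⟩, fun h4 => hy ?_, Finset.mem_univ _⟩
      have h5 : u • y = u • x := h4.trans (hx u).symm
      exact MulAction.injective u h5
    have h4 : Nat.card (MulAction.orbit P y) ≤ 26 := by
      have h5 := Set.ncard_le_ncard h3 (Finset.finite_toSet _)
      rw [Set.ncard_coe_finset, Finset.card_erase_of_mem, Finset.card_erase_of_mem (Finset.mem_univ _),
        Finset.card_univ, Fintype.card_fin] at h5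
      · exact h5
      · rw [Finset.mem_erase]
        exact ⟨hz, Finset.mem_univ _⟩
    omega
  have hfix : H ≤ MulAction.stabilizer S7 x := by
    intro h0 hh0
    by_contra h1
    have h2 : h0 • x ≠ x := h1
    have h3 : MulAction.orbit H x = Set.univ := by
      rw [Set.eq_univ_iff_forall]
      intro z
      rcases eq_or_ne z x with rfl | hz
      · exact MulAction.mem_orbit_self _
      · obtain ⟨u, hu⟩ := horb2 _ h2 z hz
        exact ⟨⟨u * h0, mul_mem (hPH u.2) hh0⟩, by
          change ((u : S7) * h0) • x = z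
          rw [mul_smul]
          exact hu⟩
    have h4 : Nat.card (MulAction.orbit H x) * Nat.card (MulAction.stabilizer H x) = 51840 := by
      rw [← hH, ← Nat.card_prod]
      exact Nat.card_congr (MulAction.orbitProdStabilizerEquivGroup H x)
    rw [h3, Nat.card_coe_set_eq, Set.ncard_univ, Nat.card_eq_fintype_card, Fintype.card_fin] at h4
    omega
  refine ⟨x, Subgroup.eq_of_le_of_card_ge hfix ?_⟩
  rw [card_stab, hH]

private def F4R (c d : Fin 28) : Prop :=
  ∀ i : Fin 63, sT7 i 0 = 0 → sT7 i 1 = 1 → (sT7 i d = d ↔ sT7 i c = c)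

private instance (c d : Fin 28) : Decidable (F4R c d) := by
  unfold F4R; infer_instance

/-- the check of `f4_cent` -/
private noncomputable def f4_centC : Bool :=
  Pk.allB (fun c => Pk.disB (Pk.notB (Nat.beq (Pk.t 0 1 c) 1)) (Pk.allB (fun d =>
    Pk.disB (Nat.beq d c) (Pk.anyB (fun i => Pk.conB (Nat.beq (Pk.s i 0) 0)
      (Pk.conB (Nat.beq (Pk.s i 1) 1)
        (Pk.notB (Pk.iffB (Nat.beq (Pk.s i d) d) (Nat.beq (Pk.s i c) c))))) 63)) 28)) 28

private theorem f4_centC_true : f4_centC = true := by decide +kernel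

private lemma f4_iffB {x y : Bool} (h : (x = true ↔ y = true)) : Pk.iffB x y = true := by
  cases x with
  | false => cases y with
    | false => rfl
    | true => exact absurd (h.2 rfl) Bool.false_ne_true
  | true => exact h.1 rfl

private theorem f4_cent : ∀ c : Fin 28, c ≠ 0 → c ≠ 1 → tg7 0 1 c = 1 → ∀ d : Fin 28,
    F4R c d → d = c := by
  intro c _ _ hc d hd
  rcases Pk.disB_spec (Pk.allB_spec f4_centC_true c c.2) with h | h
  · exact absurd (Pk.t_of_one hc) (Pk.not_beq (Pk.notB_spec h))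
  rcases Pk.disB_spec (Pk.allB_spec h d d.2) with h | h
  · exact Fin.ext (Pk.of_beq h)
  exfalso
  obtain ⟨i, hi, h⟩ := Pk.anyB_spec h
  obtain ⟨h0, h⟩ := Pk.conB_spec h
  obtain ⟨h1, h2⟩ := Pk.conB_spec h
  have e : ∀ x : Fin 28, sT7 ⟨i, hi⟩ x = x ↔ Nat.beq (Pk.s i x) x = true := by
    intro x
    rw [Pk.beq_iff, Fin.ext_iff, Pk.s_eq]
  have g := hd ⟨i, hi⟩ ((e 0).2 h0) ((e 1).2 h1)
  rw [e, e] at g
  have g2 := Pk.notB_spec h2
  rw [f4_iffB g] at g2
  exact absurd g2.symm Bool.false_ne_true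

private lemma f4_central01 {z : S7} (ha : z • (0 : Fin 28) = 0)
    (h : ∀ w : S7, w • (0 : Fin 28) = 0 → w • (1 : Fin 28) = 1 → z * w = w * z) : z = 1 := by
  refine f4_fix01 z ha fun c hc0 hc1 hc => ?_
  refine f4_cent c hc0 hc1 hc _ fun i hi0 hi1 => ?_
  have h1 := h (tW i) hi0 hi1
  have h2 : tW i • (z • c) = z • (tW i • c) := by
    rw [← mul_smul, ← mul_smul, h1]
  rw [tW_smul, tW_smul] at h2
  rw [h2]
  exact (MulAction.injective z).eq_iff

/-- An element of `S7` which fixes `a` and `b` and commutes with their pointwise stabilizer is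
trivial.
Proof.  By double transitivity we may take `a = 0`, `b = 1`.  `z` commutes with the 20 elements `tW i`
which fix `a` and `b`; so for each point `c` the point `z • c` is fixed by the same `tW i` among
these as `c`, and so `z • c = c` for the 16 points `c ≠ a, b` with `tg7 a b c = 1` (kernel-checked:
for these `c`, `d = c` if `sT7 i d = d ↔ sT7 i c = c` for all `i` with `sT7 i a = a`, `sT7 i b = b`).  An
element of `S7` which fixes these 16 points and `a`, `b` is trivial (two-graph relations,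
kernel-checked). -/
theorem eq_one_of_central {a b : Fin 28} (hab : a ≠ b) {z : S7} (ha : z • a = a) (hb : z • b = b)
    (h : ∀ w : S7, w • a = a → w • b = b → z * w = w * z) : z = 1 := by
  obtain ⟨w, hw1, hw2⟩ := exists_smul_eq2 hab (show (0 : Fin 28) ≠ 1 by decide)
  have ha' : w⁻¹ • (0 : Fin 28) = a := by rw [inv_smul_eq_iff, hw1]
  have hb' : w⁻¹ • (1 : Fin 28) = b := by rw [inv_smul_eq_iff, hw2]
  have key : w * z * w⁻¹ = 1 := by
    refine f4_central01 ?_ fun u hu0 hu1 => ?_
    · rw [mul_smul, mul_smul, ha', ha, hw1]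
    · have h1 := h (w⁻¹ * u * w) (by rw [mul_smul, mul_smul, hw1, hu0, ha'])
        (by rw [mul_smul, mul_smul, hw2, hu1, hb'])
      calc w * z * w⁻¹ * u = w * (z * (w⁻¹ * u * w)) * w⁻¹ := by group
        _ = w * ((w⁻¹ * u * w) * z) * w⁻¹ := by rw [h1]
        _ = u * (w * z * w⁻¹) := by group
  have h1 : z = w⁻¹ * (w * z * w⁻¹) * w := by group
  rw [h1, key, mul_one, inv_mul_cancel]

private lemma f4_stab_inj {x y : Fin 28} (h : ∀ t : S7, t • x = x → t • y = y) : x = y := by
  by_contra hxy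
  obtain ⟨b, hb1, hb2⟩ : ∃ b : Fin 28, b ≠ x ∧ b ≠ y := by
    by_contra h2
    push Not at h2
    have g0 := h2 0
    have g1 := h2 1
    have g2 := h2 2
    have e01 : (0 : Fin 28) ≠ 1 := by decide
    have e02 : (0 : Fin 28) ≠ 2 := by decide
    have e12 : (1 : Fin 28) ≠ 2 := by decide
    by_cases h3 : (0 : Fin 28) = x
    · subst h3
      exact e12 ((g1 e01.symm).trans (g2 e02.symm).symm)
    · by_cases h4 : (1 : Fin 28) = x
      · subst h4
        exact e02 ((g0 h3).trans (g2 e12.symm).symm)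
      · exact e01 ((g0 h3).trans (g1 h4).symm)
  obtain ⟨s, hs1, hs2⟩ := exists_smul_eq2 hxy hb1.symm
  exact hb2 (hs2.symm.trans (h s hs1))

private theorem f4_symm : ∀ a b : Fin 28, e7 a b = e7 b a := by decide +kernel

private lemma f4_self (a : Fin 28) : e7 a a = 3 := by
  rcases e7_cases a a with ⟨_, h⟩ | ⟨h, _⟩
  · exact h
  · exact absurd rfl h

private lemma f4_sq {a b : Fin 28} (hab : a ≠ b) : e7 a b * e7 a b = 1 := by
  rcases e7_cases a b with ⟨h, _⟩ | ⟨_, h | h⟩
  · exact absurd h hab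
  · rw [h]; norm_num
  · rw [h]; norm_num

private lemma f4_tg_pm {a b c : Fin 28} (hab : a ≠ b) (hbc : b ≠ c) (hac : a ≠ c) :
    tg7 a b c = 1 ∨ tg7 a b c = -1 := by
  unfold tg7
  rcases e7_cases a b with ⟨h, _⟩ | ⟨_, h1 | h1⟩
  · exact absurd h hab
  all_goals
    rcases e7_cases b c with ⟨h, _⟩ | ⟨_, h2 | h2⟩
    · exact absurd h hbc
    all_goals
      rcases e7_cases a c with ⟨h, _⟩ | ⟨_, h3 | h3⟩
      · exact absurd h hac
      all_goals rw [h1, h2, h3]; norm_num

private lemma f4_tg_inj (π : Fin 28 → Fin 28) (hπ : Function.Injective π)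
    (h : ∀ a b c, a ≠ b → c ≠ a → c ≠ b → (tg7 (π a) (π b) (π c) = 1 ↔ tg7 a b c = 1))
    (a b c : Fin 28) : tg7 (π a) (π b) (π c) = tg7 a b c := by
  rcases eq_or_ne a b with rfl | hab
  · unfold tg7
    rw [f4_self, f4_self]
    rcases eq_or_ne a c with rfl | hac
    · rw [f4_self, f4_self]
    · rw [mul_assoc, mul_assoc, f4_sq hac, f4_sq fun h => hac (hπ h)]
  · rcases eq_or_ne c a with rfl | hca
    · unfold tg7
      rw [f4_self, f4_self, f4_symm (π b), f4_symm b, f4_sq hab, f4_sq fun h => hab (hπ h)]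
    · rcases eq_or_ne c b with rfl | hcb
      · unfold tg7
        have h1 := f4_sq hab
        have h2 := f4_sq (fun h => hab (hπ h) : π a ≠ π c)
        rw [f4_self, f4_self]
        linear_combination 3 * h2 - 3 * h1
      · have h1 := h a b c hab hca hcb
        rcases f4_tg_pm hab hcb.symm hca.symm with h2 | h2
        · rw [h2, h1.2 h2]
        · rcases f4_tg_pm (fun h => hab (hπ h)) (fun h => hcb (hπ h).symm)
            (fun h => hca (hπ h).symm) with h3 | h3
          · rw [h1.1 h3] at h2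
            norm_num at h2
          · rw [h2, h3]

/-- **Automorphisms of the rotation group are inner.**
Proof.  Let `φ` be an automorphism.  By `eq_stabilizer` and `card_stab` there is `π : Fin 28 → Fin 28`
with `φ (stabilizer a) = stabilizer (π a)`; it is injective (the stabilizer of `a` fixes only `a`), so
a permutation, and `φ w • π a = π (w • a)`, that is `φ w = π w π⁻¹` as permutations.
For `a ≠ b` let `v = φ (tW (di7 (π⁻¹ a) (π⁻¹ b))) = π tW (…) π⁻¹`; it exchanges `a` and `b`.  It is the only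
element of `φ (range tW)` which does so (by `di7_unique`), and `w * v * w⁻¹` is such an element for
every `w` fixing `a` and `b`, so `v` commutes with the pointwise stabilizer of `a` and `b`; the same
holds for `tW (di7 a b)`.  So `v * tW (di7 a b)` fixes `a` and `b` and commutes with their stabilizer,
and `v = tW (di7 a b)` by `eq_one_of_central`.  So `π tW (di7 a b) π⁻¹ = tW (di7 (π a) (π b))`, and
`sT7_di7_fix` shows that `π` preserves the two-graph (for three different points; the value at other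
triples is 27 or 3, `e7_cases`), so `π` is in `S7`. -/
theorem aut_S7 (φ : S7 ≃* S7) : ∃ w : S7, ∀ s : S7, φ s = w * s * w⁻¹ := by
  have hex : ∀ a : Fin 28, ∃ b : Fin 28, ∀ s : S7, s • a = a ↔ φ s • b = b := by
    intro a
    have h1 : Nat.card ((MulAction.stabilizer S7 a).map φ.toMonoidHom) = 51840 := by
      rw [← card_stab a]
      exact Nat.card_congr
        ((MulAction.stabilizer S7 a).equivMapOfInjective φ.toMonoidHom φ.injective).symm.toEquiv
    obtain ⟨b, hb⟩ := eq_stabilizer h1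
    refine ⟨b, fun s => ?_⟩
    have h2 : φ s ∈ (MulAction.stabilizer S7 a).map φ.toMonoidHom ↔ s ∈ MulAction.stabilizer S7 a := by
      constructor
      · rintro ⟨t, ht, hts⟩
        have h3 : t = s := φ.injective hts
        rw [← h3]
        exact ht
      · intro h3
        exact ⟨s, h3, rfl⟩
    rw [hb, MulAction.mem_stabilizer_iff, MulAction.mem_stabilizer_iff] at h2
    exact h2.symm
  choose π hπ using hex
  have hinj : Function.Injective π := by
    intro a b hab
    refine f4_stab_inj fun t ht => ?_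
    rw [hπ a, hab, ← hπ b] at ht
    exact ht
  have hφ : ∀ (w : S7) (a : Fin 28), φ w • π a = π (w • a) := by
    intro w a
    refine f4_stab_inj fun t ht => ?_
    obtain ⟨s, rfl⟩ := φ.surjective t
    rw [← hπ]
    have h1 : φ (w⁻¹ * s * w) • π a = π a := by
      rw [map_mul, map_mul, map_inv, mul_smul, mul_smul, ht, inv_smul_smul]
    rw [← hπ, mul_smul, mul_smul, inv_smul_eq_iff] at h1
    exact h1
  have hsurj : Function.Surjective π := Finite.surjective_of_injective hinj
  have hcomm : ∀ (a b : Fin 28), a ≠ b → ∀ w : S7, w • a = a → w • b = b →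
      w * tW (di7 a b) = tW (di7 a b) * w := by
    intro a b hab w ha hb
    have h1 := conj_tW w hab
    rw [ha, hb] at h1
    rw [← mul_inv_eq_iff_eq_mul]
    exact h1
  have htW : ∀ (a b : Fin 28), a ≠ b → φ (tW (di7 a b)) = tW (di7 (π a) (π b)) := by
    intro a b hab
    have hab' : π a ≠ π b := fun h => hab (hinj h)
    have h1 : φ (tW (di7 a b)) * tW (di7 (π a) (π b)) = 1 := by
      refine eq_one_of_central hab' ?_ ?_ fun w hwa hwb => ?_
      · rw [mul_smul, tW_smul, sT7_di7 _ _ hab', hφ, tW_smul, f4_sT7_di7' _ _ hab]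
      · rw [mul_smul, tW_smul, f4_sT7_di7' _ _ hab', hφ, tW_smul, sT7_di7 _ _ hab]
      · obtain ⟨s, rfl⟩ := φ.surjective w
        have hsa : s • a = a := (hπ a s).2 hwa
        have hsb : s • b = b := (hπ b s).2 hwb
        rw [mul_assoc, ← hcomm _ _ hab' _ hwa hwb, ← mul_assoc, ← map_mul,
          ← hcomm _ _ hab _ hsa hsb, map_mul, mul_assoc]
    have h2 : (tW (di7 (π a) (π b)))⁻¹ = tW (di7 (π a) (π b)) :=
      inv_eq_of_mul_eq_one_right (tW_mul_self _)
    rw [← h2]
    exact eq_inv_of_mul_eq_one_left h1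
  have hmem : ∀ a b c, tg7 (π a) (π b) (π c) = tg7 a b c := by
    refine f4_tg_inj π hinj fun a b c hab hca hcb => ?_
    rw [← sT7_di7_fix _ _ _ hab hca hcb, ← sT7_di7_fix (π a) (π b) (π c) (fun h => hab (hinj h))
      (fun h => hca (hinj h)) (fun h => hcb (hinj h)), ← tW_smul, ← htW a b hab, hφ, tW_smul]
    exact hinj.eq_iff
  let π' : Equiv.Perm (Fin 28) := Equiv.ofBijective π ⟨hinj, hsurj⟩
  refine ⟨⟨π', hmem⟩, fun s => ?_⟩
  rw [eq_mul_inv_iff_mul_eq]
  refine S7_ext fun a => ?_
  rw [mul_smul, mul_smul]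
  exact hφ s a

/-- The center is trivial. -/
theorem center_S7 (w : S7) (h : ∀ s : S7, w * s = s * w) : w = 1 := by
  have hfix : ∀ a : Fin 28, w • a = a := by
    intro a
    refine (f4_stab_inj fun s hs => ?_).symm
    rw [← mul_smul, ← h, mul_smul, hs]
  exact S7_ext fun a => by rw [hfix, one_smul]

end Pool.Agent.Lib.MP_12adaf_nt.E7
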