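import Mathlib

/-!
# The Jacobian criterion
-/

namespace Pool.Agent.Lib.MP_12adaf_nt.NS

private theorem g2_chain {K : Type*} [Field K] {n : ℕ}
    (p : Fin n → MvPolynomial (Fin n) K) (j : Fin n) (P : MvPolynomial (Fin n) K) :
    MvPolynomial.pderiv j (MvPolynomial.aeval p P) =
      ∑ i, MvPolynomial.aeval p (MvPolynomial.pderiv i P) * MvPolynomial.pderiv j (p i) := by
  classical
  induction P using MvPolynomial.induction_on with
  | C a => simp [MvPolynomial.algebraMap_eq]
  | add f g hf hg => simp only [map_add, hf, hg, add_mul, Finset.sum_add_distrib]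
  | mul_X f k hf =>
    rw [map_mul, MvPolynomial.pderiv_mul, hf, MvPolynomial.aeval_X]
    have e : ∀ i : Fin n, MvPolynomial.aeval p
        (MvPolynomial.pderiv i (f * MvPolynomial.X k)) * MvPolynomial.pderiv j (p i) =
        MvPolynomial.aeval p (MvPolynomial.pderiv i f) * MvPolynomial.pderiv j (p i) * p k +
        (if i = k then MvPolynomial.aeval p f * MvPolynomial.pderiv j (p i) else 0) := by
      intro i
      rw [MvPolynomial.pderiv_mul, map_add, map_mul, map_mul, MvPolynomial.aeval_X,
        MvPolynomial.pderiv_X]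
      by_cases hik : i = k
      · subst hik
        simp
        ring
      · simp [hik]
        ring
    rw [Finset.sum_congr rfl fun i _ => e i, Finset.sum_add_distrib, Finset.sum_mul]
    simp

private theorem g2_zero {K : Type*} [Field K] [CharZero K] {n : ℕ}
    (p : Fin n → MvPolynomial (Fin n) K)
    (h : (Matrix.of fun i j : Fin n => MvPolynomial.pderiv j (p i)).det ≠ 0) :
    ∀ (d : ℕ) (P : MvPolynomial (Fin n) K),
      (∀ m : Fin n →₀ ℕ, d < m.degree → MvPolynomial.coeff m P = 0) →
      MvPolynomial.aeval p P = 0 → P = 0 := by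
  classical
  have key : ∀ (P : MvPolynomial (Fin n) K),
      (∀ m : Fin n →₀ ℕ, m ≠ 0 → MvPolynomial.coeff m P = 0) →
      MvPolynomial.aeval p P = 0 → P = 0 := by
    intro P hP h0
    have hc : P = MvPolynomial.C (MvPolynomial.coeff 0 P) := by
      ext m
      rw [MvPolynomial.coeff_C]
      split_ifs with hm
      · rw [← hm]
      · exact hP m fun h => hm h.symm
    rw [hc, MvPolynomial.aeval_C, MvPolynomial.algebraMap_eq, MvPolynomial.C_eq_zero] at h0
    rw [hc, h0, map_zero]
  intro d
  induction d with
  | zero =>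
    intro P hP h0
    refine key P (fun m hm => hP m ?_) h0
    rw [pos_iff_ne_zero]
    intro h
    exact hm ((Finsupp.degree_eq_zero_iff m).1 h)
  | succ d ih =>
    intro P hP h0
    have hv : (fun i => MvPolynomial.aeval p (MvPolynomial.pderiv i P)) = 0 := by
      refine Matrix.eq_zero_of_vecMul_eq_zero h ?_
      funext j
      have := g2_chain p j P
      rw [h0, map_zero] at this
      rw [Pi.zero_apply, Matrix.vecMul, dotProduct]
      simpa using this.symm
    have hd : ∀ i, MvPolynomial.pderiv i P = 0 := by
      intro i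
      refine ih _ (fun m hm => ?_) (congrFun hv i)
      rw [MvPolynomial.coeff_pderiv, hP, zero_mul]
      rw [map_add, Finsupp.degree_single]
      omega
    refine key P (fun m hm => ?_) h0
    obtain ⟨i, hi⟩ : ∃ i, m i ≠ 0 := by
      by_contra hcon
      push Not at hcon
      exact hm (Finsupp.ext hcon)
    have hle : Finsupp.single i 1 ≤ m := by
      rw [Finsupp.single_le_iff]
      omega
    have hc := MvPolynomial.coeff_pderiv (i := i) P (m - Finsupp.single i 1)
    rw [hd i, MvPolynomial.coeff_zero, tsub_add_cancel_of_le hle] at hc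
    have hne : (((m - Finsupp.single i 1 : Fin n →₀ ℕ) i : ℕ) : K) + 1 ≠ 0 :=
      Nat.cast_add_one_ne_zero _
    rcases mul_eq_zero.1 hc.symm with h1 | h1
    · exact h1
    · exact absurd h1 hne

/-- **Jacobian criterion** in characteristic zero.
Proof: let `P ≠ 0` be a polynomial of least degree with `P (p) = 0`.  The chain rule gives
`∑ i, (∂P/∂Yᵢ)(p) * ∂pᵢ/∂Xⱼ = 0` for all `j`, so `(∂P/∂Yᵢ)(p) = 0` for all `i` as the determinant is
nonzero, so `∂P/∂Yᵢ = 0` for all `i` (smaller degree), so `P` is constant (characteristic zero). -/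
theorem algebraicIndependent_of_jacobian {K : Type*} [Field K] [CharZero K] {n : ℕ}
    (p : Fin n → MvPolynomial (Fin n) K)
    (h : (Matrix.of fun i j : Fin n => MvPolynomial.pderiv j (p i)).det ≠ 0) :
    AlgebraicIndependent K p := by
  rw [algebraicIndependent_iff]
  intro P hP
  refine g2_zero p h (P.totalDegree) P (fun m hm => ?_) hP
  exact MvPolynomial.coeff_eq_zero_of_totalDegree_lt (by simpa [Finsupp.degree] using hm)

end Pool.Agent.Lib.MP_12adaf_nt.NS
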