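import Pool.Agent.Lib.MP_12adaf_ntE7.F0t
import Pool.Agent.Lib.MP_12adaf_ntE7.G2

/-!
# The power sums of the weights of `E₇` are algebraically independent
-/

namespace Pool.Agent.Lib.MP_12adaf_nt.E7

open MvPolynomial

/-- The linear form of the weight `a`. -/
noncomputable def lin7 (a : Fin 28) : MvPolynomial (Fin 7) ℚ := ∑ j, C (wt7 a j : ℚ) * X j

/-- The exponents (half the degrees of the basic invariants of `E₇`). -/
def ex7 (i : Fin 7) : ℕ := [1, 3, 4, 5, 6, 7, 9].getD i 0

/-- The power sums of the weights. -/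
noncomputable def ps7 (i : Fin 7) : MvPolynomial (Fin 7) ℚ := ∑ a, lin7 a ^ (2 * ex7 i)

/-- The point at which the Jacobian is evaluated. -/
private def vJ (l : Fin 7) : ℤ := [1, 2, 3, 4, 5, 8, 7].getD l 0

/-- The entries of the Jacobian matrix at this point. -/
private def jE (i j : Fin 7) : ℤ :=
  ∑ a : Fin 28, 2 * (ex7 i : ℤ) * (∑ l, wt7 a l * vJ l) ^ (2 * ex7 i - 1) * wt7 a j

private def jIL : List (List ℤ) := [
  [32, 38, 10, 29, 33, 10, 38],
  [17, 14, 23, 0, 13, 1, 1],
  [35, 16, 27, 30, 1, 18, 27],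
  [31, 9, 4, 24, 4, 32, 31],
  [11, 3, 29, 38, 17, 26, 24],
  [25, 2, 22, 23, 26, 35, 3],
  [11, 21, 26, 33, 29, 25, 3]]

/-- The inverse matrix modulo 41. -/
private def jI (i j : Fin 7) : ℤ := (jIL.getD i []).getD j 0

private theorem jE_mul_jI : ∀ i j : Fin 7,
    (∑ k, jE i k * jI k j) % 41 = if i = j then 1 else 0 := by decide +kernel

private lemma det_jE : (Matrix.of jE).det ≠ 0 := by
  intro h
  have : Fact (1 < 41) := ⟨by norm_num⟩
  let φ : ℤ →+* ZMod 41 := Int.castRingHom (ZMod 41)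
  have h1 : φ.mapMatrix (Matrix.of jE) * φ.mapMatrix (Matrix.of jI) = 1 := by
    ext i j
    rw [Matrix.mul_apply]
    simp only [RingHom.mapMatrix_apply, Matrix.map_apply, Matrix.of_apply]
    have h2 := jE_mul_jI i j
    have h3 : ∑ k, φ (jE i k) * φ (jI k j) = φ (∑ k, jE i k * jI k j) := by
      rw [map_sum]
      exact Finset.sum_congr rfl fun k _ => (map_mul φ _ _).symm
    rw [h3]
    have h4 : φ (∑ k, jE i k * jI k j) = φ ((∑ k, jE i k * jI k j) % 41) := by
      change ((∑ k, jE i k * jI k j : ℤ) : ZMod 41) = (((∑ k, jE i k * jI k j) % 41 : ℤ) : ZMod 41)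
      exact (ZMod.intCast_mod (∑ k, jE i k * jI k j) 41).symm
    rw [h4, h2, Matrix.one_apply]
    split_ifs <;> simp
  have h5 := congrArg Matrix.det h1
  rw [Matrix.det_mul, Matrix.det_one, ← RingHom.map_det, h, map_zero, zero_mul] at h5
  exact zero_ne_one h5

private lemma det_of_cast (M : Matrix (Fin 7) (Fin 7) ℤ)
    (h : ((Int.castRingHom ℚ).mapMatrix M).det = 0) : M.det = 0 := by
  rw [← RingHom.map_det] at h
  exact (injective_iff_map_eq_zero (Int.castRingHom ℚ)).mp (RingHom.injective_int _) _ h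

private lemma eval_lin7 (a : Fin 28) :
    eval (fun l => (vJ l : ℚ)) (lin7 a) = ((∑ l, wt7 a l * vJ l : ℤ) : ℚ) := by
  unfold lin7
  rw [map_sum]
  push_cast
  exact Finset.sum_congr rfl fun l _ => by rw [map_mul, eval_C, eval_X]

private lemma pderiv_lin7 (a : Fin 28) (j : Fin 7) : pderiv j (lin7 a) = C (wt7 a j : ℚ) := by
  unfold lin7
  rw [map_sum, Finset.sum_eq_single j]
  · rw [pderiv_C_mul, pderiv_X_self, mul_one]
  · intro l _ hl
    rw [pderiv_C_mul, pderiv_X_of_ne hl, mul_zero]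
  · intro h
    exact absurd (Finset.mem_univ j) h

private lemma eval_pderiv_ps7 (i j : Fin 7) :
    eval (fun l => (vJ l : ℚ)) (pderiv j (ps7 i)) = (jE i j : ℚ) := by
  unfold ps7 jE
  rw [map_sum, map_sum]
  push_cast
  refine Finset.sum_congr rfl fun a _ => ?_
  rw [pderiv_pow, pderiv_lin7, map_mul, map_mul, map_pow, eval_C, eval_lin7, map_natCast]
  push_cast
  ring

/-- **Algebraic independence of the power sums.**  `algebraicIndependent_of_jacobian`; the Jacobian
determinant is nonzero at the point `(1, 2, 3, 4, 5, 8, 7)`. -/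
theorem algInd_ps7 : AlgebraicIndependent ℚ ps7 := by
  refine NS.algebraicIndependent_of_jacobian ps7 fun h => det_jE ?_
  have h1 := congrArg (eval (fun l => (vJ l : ℚ))) h
  rw [RingHom.map_det, map_zero] at h1
  have h2 : (eval fun l => (vJ l : ℚ)).mapMatrix
      (Matrix.of fun i j : Fin 7 => pderiv j (ps7 i)) =
      (Int.castRingHom ℚ).mapMatrix (Matrix.of jE) := by
    ext i j
    simp only [RingHom.mapMatrix_apply, Matrix.map_apply, Matrix.of_apply]
    exact eval_pderiv_ps7 i j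
  rw [h2] at h1
  exact det_of_cast _ h1

end Pool.Agent.Lib.MP_12adaf_nt.E7
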