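import Mathlib

/-!
# Degrees of fields generated by polynomials
-/

namespace Pool.Agent.Lib.MP_12adaf_nt.NS

private lemma gd_sum_eq {n : ℕ} (s : Fin n →₀ ℕ) : (s.sum fun _ e => e) = ∑ i, s i :=
  Finsupp.sum_fintype _ _ (fun _ => rfl)

private lemma gd_le_of_sum_le {n M : ℕ} {s : Fin n →₀ ℕ} (h : (s.sum fun _ e => e) ≤ M)
    (i : Fin n) : s i ≤ M := by
  rw [gd_sum_eq] at h
  exact (Finset.single_le_sum (fun j _ => Nat.zero_le (s j)) (Finset.mem_univ i)).trans h

private lemma gd_T_finite (n M : ℕ) : Finite {s : Fin n →₀ ℕ | (s.sum fun _ e => e) ≤ M} := by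
  refine Finite.of_injective
    (fun s : {s : Fin n →₀ ℕ | (s.sum fun _ e => e) ≤ M} => fun i : Fin n =>
      (⟨s.1 i, Nat.lt_succ_of_le (gd_le_of_sum_le s.2 i)⟩ : Fin (M + 1))) ?_
  intro s t hst
  ext i
  have := congrFun hst i
  exact Fin.mk.inj_iff.mp this

private lemma gd_T_card_le (n M : ℕ) :
    Nat.card {s : Fin n →₀ ℕ | (s.sum fun _ e => e) ≤ M} ≤ (M + 1) ^ n := by
  have h : Nat.card {s : Fin n →₀ ℕ | (s.sum fun _ e => e) ≤ M} ≤
      Nat.card (Fin n → Fin (M + 1)) := by
    refine Nat.card_le_card_of_injective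
      (fun s : {s : Fin n →₀ ℕ | (s.sum fun _ e => e) ≤ M} => fun i : Fin n =>
        (⟨s.1 i, Nat.lt_succ_of_le (gd_le_of_sum_le s.2 i)⟩ : Fin (M + 1))) ?_
    intro s t hst
    ext i
    have := congrFun hst i
    exact Fin.mk.inj_iff.mp this
  simpa using h

private lemma gd_A_le {n M : ℕ} {d : Fin n → ℕ} (hd0 : ∀ i, 0 < d i) {s : Fin n →₀ ℕ}
    (h : (∑ i, s i * d i) ≤ M) (i : Fin n) : s i ≤ M := by
  have h1 : s i * d i ≤ ∑ i, s i * d i :=
    Finset.single_le_sum (f := fun j => s j * d j) (fun j _ => Nat.zero_le _) (Finset.mem_univ i)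
  have h2 : s i ≤ s i * d i := Nat.le_mul_of_pos_right _ (hd0 i)
  omega

private lemma gd_A_finite {n : ℕ} (M : ℕ) {d : Fin n → ℕ} (hd0 : ∀ i, 0 < d i) :
    Finite {s : Fin n →₀ ℕ | (∑ i, s i * d i) ≤ M} := by
  refine Finite.of_injective
    (fun s : {s : Fin n →₀ ℕ | (∑ i, s i * d i) ≤ M} => fun i : Fin n =>
      (⟨s.1 i, Nat.lt_succ_of_le (gd_A_le hd0 s.2 i)⟩ : Fin (M + 1))) ?_
  intro s t hst
  ext i
  have := congrFun hst i
  exact Fin.mk.inj_iff.mp this

private lemma gd_T_le_A {n : ℕ} (M : ℕ) {d : Fin n → ℕ} (hd0 : ∀ i, 0 < d i) :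
    Nat.card {s : Fin n →₀ ℕ | (s.sum fun _ e => e) ≤ M} ≤
      (∏ i, d i) * Nat.card {s : Fin n →₀ ℕ | (∑ i, s i * d i) ≤ M} := by
  haveI := gd_A_finite M hd0
  have hmem : ∀ s : {s : Fin n →₀ ℕ | (s.sum fun _ e => e) ≤ M},
      (∑ i, (Finsupp.equivFunOnFinite.symm (fun i => s.1 i / d i) : Fin n →₀ ℕ) i * d i) ≤ M := by
    intro s
    have h := s.2
    simp only [Set.mem_setOf_eq, gd_sum_eq] at h
    refine le_trans (Finset.sum_le_sum fun i _ => ?_) h
    simpa using Nat.div_mul_le_self (s.1 i) (d i)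
  have h : Nat.card {s : Fin n →₀ ℕ | (s.sum fun _ e => e) ≤ M} ≤
      Nat.card (((i : Fin n) → Fin (d i)) × {s : Fin n →₀ ℕ | (∑ i, s i * d i) ≤ M}) := by
    refine Nat.card_le_card_of_injective
      (fun s : {s : Fin n →₀ ℕ | (s.sum fun _ e => e) ≤ M} =>
        ((fun i : Fin n => (⟨s.1 i % d i, Nat.mod_lt _ (hd0 i)⟩ : Fin (d i))),
          (⟨Finsupp.equivFunOnFinite.symm (fun i => s.1 i / d i), hmem s⟩ :
            {s : Fin n →₀ ℕ | (∑ i, s i * d i) ≤ M}))) ?_
    intro s t hst
    have h1 := congrArg Prod.fst hst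
    have h2 := congrArg Subtype.val (congrArg Prod.snd hst)
    ext i
    have h3 : s.1 i % d i = t.1 i % d i := Fin.mk.inj_iff.mp (congrFun h1 i)
    have h4 : s.1 i / d i = t.1 i / d i := by
      have := DFunLike.congr_fun h2 i
      simpa using this
    rw [← Nat.div_add_mod (s.1 i) (d i), ← Nat.div_add_mod (t.1 i) (d i), h3, h4]
  refine h.trans (le_of_eq ?_)
  rw [Nat.card_prod, Nat.card_pi]
  simp

/-- growth: a sequence of polynomial growth cannot be multiplied by `1 + 1/P` in each step. -/
private lemma gd_growth {n c P m : ℕ} (hP : 0 < P) (T : ℕ → ℕ) (hT0 : 0 < T 0)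
    (hT : ∀ M, T M ≤ (M + 1) ^ n) (h : ∀ M, m * T M ≤ P * T (M + c)) : m ≤ P := by
  by_contra hm
  push Not at hm
  have h1 : ∀ k : ℕ, (P + 1) ^ k * T 0 ≤ P ^ k * T (k * c) := by
    intro k
    induction k with
    | zero => simp
    | succ k ih =>
      have h2 : (P + 1) * T (k * c) ≤ P * T (k * c + c) :=
        (Nat.mul_le_mul_right _ hm).trans (h _)
      calc (P + 1) ^ (k + 1) * T 0 = (P + 1) * ((P + 1) ^ k * T 0) := by ring
        _ ≤ (P + 1) * (P ^ k * T (k * c)) := Nat.mul_le_mul_left _ ih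
        _ = P ^ k * ((P + 1) * T (k * c)) := by ring
        _ ≤ P ^ k * (P * T (k * c + c)) := Nat.mul_le_mul_left _ h2
        _ = P ^ (k + 1) * T ((k + 1) * c) := by
          rw [show (k + 1) * c = k * c + c by ring]; ring
  have hPr : (0 : ℝ) < P := by exact_mod_cast hP
  set r : ℝ := (P + 1) / P with hr
  have hr1 : 1 < r := by
    rw [hr, lt_div_iff₀ hPr]; linarith
  have h3 : ∀ k : ℕ, r ^ k ≤ ((k : ℝ) * c + 1) ^ n := by
    intro k
    have h4 : (P + 1) ^ k ≤ P ^ k * (k * c + 1) ^ n := by
      calc (P + 1) ^ k ≤ (P + 1) ^ k * T 0 := Nat.le_mul_of_pos_right _ hT0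
        _ ≤ P ^ k * T (k * c) := h1 k
        _ ≤ _ := Nat.mul_le_mul_left _ (hT _)
    have h5 : ((P : ℝ) + 1) ^ k ≤ (P : ℝ) ^ k * ((k : ℝ) * c + 1) ^ n := by exact_mod_cast h4
    rw [hr, div_pow, div_le_iff₀ (by positivity)]
    linarith
  have hlim := tendsto_pow_const_div_const_pow_of_one_lt n hr1
  have hlim2 := hlim.const_mul (((c : ℝ) + 1) ^ n)
  rw [mul_zero] at hlim2
  have hev := hlim2.eventually (gt_mem_nhds (show (0 : ℝ) < 1 by norm_num))
  obtain ⟨k, hk1, hk⟩ := (hev.and (Filter.eventually_ge_atTop 1)).exists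
  have hkr : (1 : ℝ) ≤ k := by exact_mod_cast hk
  have h6 : ((k : ℝ) * c + 1) ^ n ≤ ((c : ℝ) + 1) ^ n * (k : ℝ) ^ n := by
    rw [← mul_pow]
    apply pow_le_pow_left₀ (by positivity)
    nlinarith
  have h7 : ((c : ℝ) + 1) ^ n * ((k : ℝ) ^ n / r ^ k) < 1 := hk1
  have hrk : 0 < r ^ k := by positivity
  rw [← mul_div_assoc, div_lt_one hrk] at h7
  linarith [h3 k]

/-- **The degree bound of Bezout type, by counting monomials.**  Let `p i`, `i < n`, be algebraically
independent polynomials in `n` variables of degree `≤ d i`; then `K(x)` has degree at most `∏ d i` over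
`K(p)`.
Proof.  `F` is finitely generated and algebraic over `L = K(p)` (transcendence degrees), so it is
finite; let `m` be the degree.  There are `m` elements of the polynomial ring `K[x]` which are
linearly independent over `L` (a basis with denominators cleared), of degree `≤ c`.  Let
`N ≥ c`.  The products of these elements with the monomials `p ^ α`, `∑ α i * d i ≤ N - c`, are
linearly independent over `K` and have degree `≤ N`, so `m * A (N - c) ≤ (N + n).choose n`, where
`A (M)` is the number of `α` with `∑ α i * d i ≤ M`.  The map `β ↦ (β i / d i)` from the `β` with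
`∑ β i ≤ M` to these `α` has fibres of at most `∏ d i` elements, so
`(M + n).choose n ≤ (∏ d i) * A M`.  So `m * (N - c + n).choose n ≤ (∏ d i) * (N + n).choose n` for all
`N ≥ c`, and `m ≤ ∏ d i` for `N → ∞` (both binomials are polynomials in `N` of degree `n` with the
same leading coefficient; or: if `m ≥ ∏ d i + 1` then
`(1 + 1 / ∏ d i) ≤ (N + n).choose n / (N - c + n).choose n ≤ ((N + n) / (N - c + 1)) ^ n → 1`). -/
theorem finrank_le_prod {K F : Type*} [Field K] [Field F] [Algebra K F] {n : ℕ}
    {x : Fin n → F} (hx : AlgebraicIndependent K x)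
    (hgen : IntermediateField.adjoin K (Set.range x) = ⊤)
    {p : Fin n → MvPolynomial (Fin n) K} {d : Fin n → ℕ} (hd : ∀ i, (p i).totalDegree ≤ d i)
    (hd0 : ∀ i, 0 < d i) (hp : AlgebraicIndependent K p) :
    FiniteDimensional
      (IntermediateField.adjoin K (Set.range fun i => MvPolynomial.aeval x (p i))) F ∧
    Module.finrank
      (IntermediateField.adjoin K (Set.range fun i => MvPolynomial.aeval x (p i))) F ≤
        ∏ i, d i := by
  classical
  set y : Fin n → F := fun i => MvPolynomial.aeval x (p i) with hy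
  set L := IntermediateField.adjoin K (Set.range y) with hL
  have hP : 0 < ∏ i, d i := Finset.prod_pos fun i _ => hd0 i
  have hyind : AlgebraicIndependent K y := by
    have := hp.map' (f := (MvPolynomial.aeval x : MvPolynomial (Fin n) K →ₐ[K] F)) hx
    exact this
  have hyL : ∀ i, y i ∈ L := fun i => IntermediateField.subset_adjoin K _ ⟨i, rfl⟩
  -- the main bound
  have main : ∀ s : Finset F, (LinearIndependent L fun i : s => (i : F)) →
      s.card ≤ ∏ i, d i := by
    intro s hs
    -- numerators and denominators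
    have hfrac : ∀ z : F, ∃ a b : MvPolynomial (Fin n) K, b ≠ 0 ∧
        z = MvPolynomial.aeval x a / MvPolynomial.aeval x b := by
      intro z
      have hz : z ∈ IntermediateField.adjoin K (Set.range x) := by rw [hgen]; trivial
      obtain ⟨a, b, hab⟩ := (IntermediateField.mem_adjoin_range_iff K x z).1 hz
      by_cases hb : b = 0
      · refine ⟨0, 1, one_ne_zero, ?_⟩
        rw [hab, hb]; simp
      · exact ⟨a, b, hb, hab⟩
    choose a b hb hab using hfrac
    set B : MvPolynomial (Fin n) K := ∏ z ∈ s, b z with hB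
    have hB0 : B ≠ 0 := Finset.prod_ne_zero_iff.2 fun z _ => hb z
    have hBx : MvPolynomial.aeval x B ≠ 0 := by
      intro h
      exact hB0 (hx (by rw [h, map_zero]))
    let cc : s → MvPolynomial (Fin n) K := fun z => a z * ∏ w ∈ s.erase z.1, b w
    have hcc : ∀ z : s, MvPolynomial.aeval x (cc z) = MvPolynomial.aeval x B * (z : F) := by
      intro z
      have h1 : B = b z * ∏ w ∈ s.erase z.1, b w := (Finset.mul_prod_erase s b z.2).symm
      have h2 : MvPolynomial.aeval x (b z) ≠ 0 := fun h => hb z (hx (by rw [h, map_zero]))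
      conv_rhs => rw [hab (z : F)]
      rw [h1]
      simp only [cc, map_mul]
      field_simp
    have hw : LinearIndependent L (fun z : s => MvPolynomial.aeval x (cc z)) := by
      have h1 : (fun z : s => MvPolynomial.aeval x (cc z)) =
          fun z : s => (LinearMap.mulLeft L (MvPolynomial.aeval x B)) (z : F) := by
        funext z; rw [hcc z]; rfl
      rw [h1]
      refine hs.map' (LinearMap.mulLeft L (MvPolynomial.aeval x B)) ?_
      rw [LinearMap.ker_eq_bot]
      intro u v huv
      exact mul_left_cancel₀ hBx huv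
    -- the bound for the degrees
    set c : ℕ := Finset.univ.sup fun z : s => (cc z).totalDegree with hc
    have hcdeg : ∀ z : s, (cc z).totalDegree ≤ c := fun z =>
      Finset.le_sup (f := fun z : s => (cc z).totalDegree) (Finset.mem_univ z)
    refine gd_growth (n := n) (c := c) hP
      (fun M => Nat.card {s : Fin n →₀ ℕ | (s.sum fun _ e => e) ≤ M}) ?_
      (fun M => gd_T_card_le n M) ?_
    · haveI := gd_T_finite n 0
      haveI : Nonempty {s : Fin n →₀ ℕ | (s.sum fun _ e => e) ≤ 0} := ⟨⟨0, by simp⟩⟩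
      exact Nat.card_pos
    intro M
    show s.card * Nat.card {s : Fin n →₀ ℕ | (s.sum fun _ e => e) ≤ M} ≤
      (∏ i, d i) * Nat.card {s : Fin n →₀ ℕ | (s.sum fun _ e => e) ≤ M + c}
    have key : s.card * Nat.card {s : Fin n →₀ ℕ | (∑ i, s i * d i) ≤ M} ≤
        Nat.card {s : Fin n →₀ ℕ | (s.sum fun _ e => e) ≤ M + c} := by
      haveI := gd_A_finite M hd0
      haveI := gd_T_finite n (M + c)
      letI : Fintype {s : Fin n →₀ ℕ | (∑ i, s i * d i) ≤ M} := Fintype.ofFinite _
      letI : Fintype {s : Fin n →₀ ℕ | (s.sum fun _ e => e) ≤ M + c} := Fintype.ofFinite _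
      -- monomials in y
      have hyL' : ∀ α : Fin n →₀ ℕ, (∏ i, y i ^ α i) ∈ L := fun α =>
        prod_mem fun i _ => pow_mem (hyL i) _
      have hb1 : LinearIndependent K
          (fun α : {s : Fin n →₀ ℕ | (∑ i, s i * d i) ≤ M} =>
            (⟨∏ i, y i ^ α.1 i, hyL' α.1⟩ : L)) := by
        have h1 : LinearIndependent K (fun α : Fin n →₀ ℕ => ∏ i, y i ^ α i) := by
          have h2 := (MvPolynomial.basisMonomials (Fin n) K).linearIndependent
          have h3 := h2.map' (MvPolynomial.aeval y : MvPolynomial (Fin n) K →ₐ[K] F).toLinearMap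
            (by rw [LinearMap.ker_eq_bot]; exact hyind)
          have h4 : (fun α : Fin n →₀ ℕ => ∏ i, y i ^ α i) =
              (MvPolynomial.aeval y : MvPolynomial (Fin n) K →ₐ[K] F).toLinearMap ∘
                (MvPolynomial.basisMonomials (Fin n) K) := by
            funext α
            simp only [MvPolynomial.coe_basisMonomials, Function.comp, AlgHom.toLinearMap_apply,
              MvPolynomial.aeval_monomial, map_one, one_mul]
            rw [Finsupp.prod_fintype _ _ (fun i => pow_zero _)]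
          rw [h4]
          exact h3
        have h4 := h1.comp (fun α : {s : Fin n →₀ ℕ | (∑ i, s i * d i) ≤ M} => α.1)
          Subtype.val_injective
        exact LinearIndependent.of_comp L.val.toLinearMap h4
      have hprod := linearIndependent_smul (R := K) (S := L) (A := F) hb1 hw
      have hdeg : ∀ q : {s : Fin n →₀ ℕ | (∑ i, s i * d i) ≤ M} × s,
          ((∏ i, p i ^ q.1.1 i) * cc q.2) ∈
            MvPolynomial.restrictTotalDegree (Fin n) K (M + c) := by
        intro q
        rw [MvPolynomial.mem_restrictTotalDegree]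
        refine (MvPolynomial.totalDegree_mul _ _).trans (Nat.add_le_add ?_ (hcdeg _))
        refine (MvPolynomial.totalDegree_finsetProd _ _).trans ?_
        refine le_trans (Finset.sum_le_sum fun i _ => ?_) q.1.2
        exact (MvPolynomial.totalDegree_pow _ _).trans (Nat.mul_le_mul_left _ (hd i))
      have hu : LinearIndependent K
          (fun q : {s : Fin n →₀ ℕ | (∑ i, s i * d i) ≤ M} × s =>
            (⟨(∏ i, p i ^ q.1.1 i) * cc q.2, hdeg q⟩ :
              MvPolynomial.restrictTotalDegree (Fin n) K (M + c))) := by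
        refine LinearIndependent.of_comp
          ((MvPolynomial.aeval x : MvPolynomial (Fin n) K →ₐ[K] F).toLinearMap ∘ₗ
            (MvPolynomial.restrictTotalDegree (Fin n) K (M + c)).subtype) ?_
        have h6 : (((MvPolynomial.aeval x : MvPolynomial (Fin n) K →ₐ[K] F).toLinearMap ∘ₗ
            (MvPolynomial.restrictTotalDegree (Fin n) K (M + c)).subtype) ∘
            fun q : {s : Fin n →₀ ℕ | (∑ i, s i * d i) ≤ M} × s =>
            (⟨(∏ i, p i ^ q.1.1 i) * cc q.2, hdeg q⟩ :
              MvPolynomial.restrictTotalDegree (Fin n) K (M + c))) =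
            fun q : {s : Fin n →₀ ℕ | (∑ i, s i * d i) ≤ M} × s =>
              (⟨∏ i, y i ^ q.1.1 i, hyL' q.1.1⟩ : L) • MvPolynomial.aeval x (cc q.2) := by
          funext q
          simp only [Function.comp, LinearMap.comp_apply, Submodule.subtype_apply,
            AlgHom.toLinearMap_apply, map_mul, map_prod, map_pow, hy]
          rfl
        rw [h6]
        exact hprod
      have h5 := hu.fintype_card_le_finrank
      rw [Fintype.card_prod, Fintype.card_coe] at h5
      have h6 : Module.finrank K (MvPolynomial.restrictTotalDegree (Fin n) K (M + c)) =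
          Fintype.card {s : Fin n →₀ ℕ | (s.sum fun _ e => e) ≤ M + c} :=
        Module.finrank_eq_card_basis
          (MvPolynomial.basisRestrictSupport K {s : Fin n →₀ ℕ | (s.sum fun _ e => e) ≤ M + c})
      rw [h6] at h5
      rw [Nat.card_eq_fintype_card, Nat.card_eq_fintype_card, mul_comm]
      exact h5
    calc s.card * Nat.card {s : Fin n →₀ ℕ | (s.sum fun _ e => e) ≤ M}
        ≤ s.card * ((∏ i, d i) * Nat.card {s : Fin n →₀ ℕ | (∑ i, s i * d i) ≤ M}) :=
          Nat.mul_le_mul_left _ (gd_T_le_A M hd0)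
      _ = (∏ i, d i) * (s.card * Nat.card {s : Fin n →₀ ℕ | (∑ i, s i * d i) ≤ M}) := by ring
      _ ≤ _ := Nat.mul_le_mul_left _ key
  have hrank : Module.rank L F ≤ ((∏ i, d i : ℕ) : Cardinal) := rank_le main
  refine ⟨?_, Module.finrank_le_of_rank_le hrank⟩
  exact Module.rank_lt_aleph0_iff.1 (hrank.trans_lt (Cardinal.natCast_lt_aleph0))

end Pool.Agent.Lib.MP_12adaf_nt.NS
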