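import Mathlib

/-!
# Generators of the invariants of a rotation group of odd rank
-/

namespace Pool.Agent.Lib.MP_12adaf_nt.NS

/-- Rational functions invariant under scaling of the variable are constant. -/
theorem mem_of_scaling {L F : Type*} [Field L] [CharZero L] [Field F] [Algebra L F] {a : F}
    (ha : Transcendental L a) (σ : F →ₐ[L] F) (hσ : σ a = 4 * a) {z : F}
    (hz : z ∈ IntermediateField.adjoin L {a}) (h : σ z = z) : ∃ c : L, algebraMap L F c = z := by
  classical
  rw [IntermediateField.mem_adjoin_simple_iff] at hz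
  obtain ⟨r, s, hz⟩ := hz
  by_cases hs : s = 0
  · refine ⟨0, ?_⟩
    rw [hz, hs, map_zero, map_zero, div_zero]
  have hinj : Function.Injective (Polynomial.aeval (R := L) a) :=
    transcendental_iff_injective.1 ha
  have hcomp : ∀ p : Polynomial L, σ (Polynomial.aeval a p) =
      Polynomial.aeval a (p.comp (Polynomial.C 4 * Polynomial.X)) := by
    intro p
    rw [← Polynomial.aeval_algHom_apply, hσ, Polynomial.aeval_comp]
    congr 1
    rw [map_mul, Polynomial.aeval_C, Polynomial.aeval_X, map_ofNat]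
  have hs0 : Polynomial.aeval a s ≠ 0 := fun h0 => hs (hinj (by rw [h0, map_zero]))
  have hs1 : Polynomial.aeval a (s.comp (Polynomial.C 4 * Polynomial.X)) ≠ 0 := by
    rw [← hcomp]
    exact fun h0 => hs0 ((map_eq_zero σ).1 h0)
  have hid : r.comp (Polynomial.C 4 * Polynomial.X) * s =
      r * s.comp (Polynomial.C 4 * Polynomial.X) := by
    apply hinj
    rw [map_mul, map_mul]
    have h1 := h
    rw [hz, map_div₀, hcomp, hcomp, div_eq_div_iff hs1 hs0] at h1
    exact h1
  have hev : ∀ x : L, r.eval (4 * x) * s.eval x = r.eval x * s.eval (4 * x) := by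
    intro x
    have h1 := congrArg (Polynomial.eval x) hid
    simpa [Polynomial.eval_comp] using h1
  -- the powers of four are distinct
  have hpow : Function.Injective fun n : ℕ => (4 : L) ^ n := by
    intro i j hij
    have h1 : ((4 ^ i : ℕ) : L) = ((4 ^ j : ℕ) : L) := by
      push_cast
      exact hij
    have h2 : (4 : ℕ) ^ i = 4 ^ j := by exact_mod_cast h1
    exact Nat.pow_right_injective (by norm_num) h2
  have hfin : {n : ℕ | s.eval ((4 : L) ^ n) = 0}.Finite := by
    have h1 : {x : L | s.IsRoot x}.Finite := Polynomial.finite_setOfPred_isRoot hs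
    exact (h1.preimage hpow.injOn)
  obtain ⟨N, hN⟩ := hfin.bddAbove
  have hN' : ∀ n, N < n → s.eval ((4 : L) ^ n) ≠ 0 := fun n hn h0 =>
    absurd (hN h0) (not_le.2 hn)
  obtain ⟨c, hc⟩ : ∃ c : L, c = r.eval ((4 : L) ^ (N + 1)) / s.eval ((4 : L) ^ (N + 1)) :=
    ⟨_, rfl⟩
  have hrc : ∀ n, r.eval ((4 : L) ^ (N + 1 + n)) = c * s.eval ((4 : L) ^ (N + 1 + n)) := by
    intro n
    induction n with
    | zero =>
      rw [hc, add_zero, div_mul_cancel₀ _ (hN' _ (Nat.lt_succ_self N))]
    | succ n ih =>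
      have h1 := hev ((4 : L) ^ (N + 1 + n))
      have h2 := hN' (N + 1 + n) (by omega)
      have h3 : (4 : L) * 4 ^ (N + 1 + n) = 4 ^ (N + 1 + (n + 1)) := by ring
      rw [h3, ih] at h1
      have h4 : (r.eval ((4 : L) ^ (N + 1 + (n + 1))) -
          c * s.eval ((4 : L) ^ (N + 1 + (n + 1)))) * s.eval ((4 : L) ^ (N + 1 + n)) = 0 := by
        linear_combination h1
      exact sub_eq_zero.1 ((mul_eq_zero.1 h4).resolve_right h2)
  have hr : r - Polynomial.C c * s = 0 := by
    apply Polynomial.eq_zero_of_infinite_isRoot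
    refine (Set.infinite_range_of_injective (f := fun n : ℕ => (4 : L) ^ (N + 1 + n)) ?_).mono ?_
    · intro i j hij
      have := hpow hij
      omega
    · rintro _ ⟨n, rfl⟩
      show (r - Polynomial.C c * s).eval _ = 0
      rw [Polynomial.eval_sub, Polynomial.eval_mul, Polynomial.eval_C, hrc, sub_self]
  refine ⟨c, ?_⟩
  have hr' : r = Polynomial.C c * s := sub_eq_zero.1 hr
  rw [hz, hr', map_mul, Polynomial.aeval_C, mul_div_cancel_right₀ _ hs0]

/-- **The scaling trick.**  The group `S` acts on `F` over `K`; `ν` is an involution (the scalar `-1`)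
and `σ` the scaling by `2`; the invariants of `S` and `ν` are generated by algebraically independent
elements `f i` of degrees `2 * e i`, `e 0 = 1`, and `Δ` is an invariant of `S` of odd degree.  Then
the field of invariants of `S` is generated by `n + 1` elements.
Proof.  `t i = f i / f 0 ^ e i` (`i ≠ 0`), of degree 0, and `t 0 = Δ / f 0 ^ k`, of degree 1.  Let
`L = K(t i, i ≠ 0)`; then `K(f) = L(f 0)`, `f 0` is transcendental over `L` (transcendence degree) and
`σ` is trivial on `L`.  `D = Δ ^ 2 / f 0 ^ (2 * k + 1)` is invariant under `S` and `ν`, so it is in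
`K(f)`, and it is fixed by `σ`, so it is in `L` (`mem_of_scaling`); hence
`f 0 = t 0 ^ 2 / D` is in `K(t)` and `K(t)` contains `f` and `Δ`.  If `z` is invariant under `S`, then
`z + ν z` and `(z - ν z) * Δ` are invariant under `S` and `ν`, so they are in `K(f)`, and `z` is in
`K(t)`. -/
theorem odd_params {K F S : Type*} [Field K] [CharZero K] [Field F] [Algebra K F] [Group S]
    [MulSemiringAction S F] (hK : ∀ (g : S) (a : K), g • algebraMap K F a = algebraMap K F a)
    {n : ℕ} (f : Fin (n + 1) → F) (hf : AlgebraicIndependent K f) (e : Fin (n + 1) → ℕ)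
    (he : e 0 = 1) (σ ν : F ≃ₐ[K] F) (hσ : ∀ i, σ (f i) = 4 ^ e i * f i)
    (hν : ∀ i, ν (f i) = f i) (hS : ∀ (g : S) i, g • f i = f i) (hνν : ∀ z, ν (ν z) = z)
    (hνS : ∀ (g : S) z, ν (g • z) = g • ν z)
    (hfix : ∀ z : F, (∀ g : S, g • z = z) → ν z = z →
      z ∈ IntermediateField.adjoin K (Set.range f))
    (Δ : F) (k : ℕ) (hΔ0 : Δ ≠ 0) (hΔS : ∀ g : S, g • Δ = Δ) (hΔν : ν Δ = -Δ)
    (hΔσ : σ Δ = 2 * 4 ^ k * Δ) :
    ∃ t : Fin (n + 1) → F, (∀ (g : S) i, g • t i = t i) ∧
      ∀ z : F, (∀ g : S, g • z = z) → z ∈ IntermediateField.adjoin K (Set.range t) := by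
  classical
  have : CharZero F := charZero_of_injective_algebraMap (algebraMap K F).injective
  have hf0 : f 0 ≠ 0 := hf.ne_zero 0
  have h4 : (4 : F) ≠ 0 := by norm_num
  obtain ⟨t, ht0, htS⟩ : ∃ t : Fin (n + 1) → F, t 0 = Δ / f 0 ^ k ∧
      ∀ i : Fin n, t i.succ = f i.succ / f 0 ^ e i.succ :=
    ⟨Fin.cons (Δ / f 0 ^ k) fun i => f i.succ / f 0 ^ e i.succ, rfl, fun i => rfl⟩
  have hgt : ∀ (g : S) i, g • t i = t i := by
    intro g i
    refine Fin.cases ?_ (fun i => ?_) i
    · rw [ht0, smul_div₀', smul_pow', hΔS, hS]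
    · rw [htS, smul_div₀', smul_pow', hS, hS]
  refine ⟨t, hgt, ?_⟩
  -- the field of the elements of degree zero
  obtain ⟨L, hL⟩ : ∃ L : IntermediateField K F,
      L = IntermediateField.adjoin K (Set.range fun i : Fin n => t i.succ) := ⟨_, rfl⟩
  have htL : ∀ i : Fin n, t i.succ ∈ L := fun i => by
    rw [hL]
    exact IntermediateField.subset_adjoin K _ ⟨i, rfl⟩
  have hσt : ∀ i : Fin n, σ (t i.succ) = t i.succ := by
    intro i
    rw [htS, map_div₀, map_pow, hσ, hσ, he, pow_one, mul_pow]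
    rw [mul_div_mul_left _ _ (pow_ne_zero _ h4)]
  have hσL : ∀ x ∈ L, σ x = x := by
    intro x hx
    rw [hL] at hx
    induction hx using IntermediateField.adjoin_induction with
    | mem x hx =>
      obtain ⟨i, rfl⟩ := hx
      exact hσt i
    | algebraMap x => exact σ.commutes x
    | add x y _ _ hx hy => rw [map_add, hx, hy]
    | inv x _ hx => rw [map_inv₀, hx]
    | mul x y _ _ hx hy => rw [map_mul, hx, hy]
  let σL : F →ₐ[L] F :=
    { (σ : F →+* F) with
      commutes' := fun x => hσL x x.2 }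
  have hσL' : ∀ x, σL x = σ x := fun x => rfl
  have hσf : σL (f 0) = 4 * f 0 := by rw [hσL', hσ, he, pow_one]
  have hpow : Function.Injective fun n : ℕ => (4 : F) ^ n * f 0 := by
    intro i j hij
    have h0 : (4 : F) ^ i = 4 ^ j := mul_right_cancel₀ hf0 hij
    have h1 : ((4 ^ i : ℕ) : F) = ((4 ^ j : ℕ) : F) := by
      push_cast
      exact h0
    have h2 : (4 : ℕ) ^ i = 4 ^ j := by exact_mod_cast h1
    exact Nat.pow_right_injective (by norm_num) h2
  have hiter : ∀ m : ℕ, ∀ p : Polynomial L, Polynomial.aeval (f 0) p = 0 →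
      Polynomial.aeval ((4 : F) ^ m * f 0) p = 0 := by
    intro m
    induction m with
    | zero => intro p hp; rw [pow_zero, one_mul]; exact hp
    | succ m ih =>
      intro p hp
      have h1 := congrArg σL (ih p hp)
      rw [map_zero, ← Polynomial.aeval_algHom_apply, map_mul, map_pow, hσf, map_ofNat] at h1
      rw [pow_succ, mul_assoc]
      exact h1
  have htr : Transcendental L (f 0) := by
    rintro ⟨p, hp0, hp⟩
    have h1 : (p.map (algebraMap L F)) = 0 := by
      apply Polynomial.eq_zero_of_infinite_isRoot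
      refine (Set.infinite_range_of_injective hpow).mono ?_
      rintro _ ⟨m, rfl⟩
      show (p.map (algebraMap L F)).eval _ = 0
      rw [Polynomial.eval_map_algebraMap]
      exact hiter m p hp
    exact hp0 ((Polynomial.map_eq_zero _).1 h1)
  -- the invariants of `S` and `ν` are in `L(f 0)`
  have hfL : ∀ x ∈ IntermediateField.adjoin K (Set.range f),
      x ∈ IntermediateField.adjoin L {f 0} := by
    intro x hx
    have hf0m : f 0 ∈ IntermediateField.adjoin L {f 0} :=
      IntermediateField.mem_adjoin_simple_self L (f 0)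
    have hLm : ∀ y ∈ L, y ∈ IntermediateField.adjoin L {f 0} := fun y hy =>
      (IntermediateField.adjoin L {f 0}).algebraMap_mem ⟨y, hy⟩
    induction hx using IntermediateField.adjoin_induction with
    | mem x hx =>
      obtain ⟨i, rfl⟩ := hx
      refine Fin.cases hf0m (fun i => ?_) i
      have h1 : f i.succ = t i.succ * f 0 ^ e i.succ := by
        rw [htS, div_mul_cancel₀ _ (pow_ne_zero _ hf0)]
      rw [h1]
      exact mul_mem (hLm _ (htL i)) (pow_mem hf0m _)
    | algebraMap x => exact hLm _ (L.algebraMap_mem x)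
    | add x y _ _ hx hy => exact add_mem hx hy
    | inv x _ hx => exact inv_mem hx
    | mul x y _ _ hx hy => exact mul_mem hx hy
  -- the square of the odd invariant
  have hD : Δ ^ 2 / f 0 ^ (2 * k + 1) ∈ IntermediateField.adjoin K (Set.range f) := by
    apply hfix
    · intro g
      rw [smul_div₀', smul_pow', smul_pow', hΔS, hS]
    · rw [map_div₀, map_pow, map_pow, hΔν, hν, neg_sq]
  have hDσ : σL (Δ ^ 2 / f 0 ^ (2 * k + 1)) = Δ ^ 2 / f 0 ^ (2 * k + 1) := by
    rw [hσL', map_div₀, map_pow, map_pow, hΔσ, hσ, he, pow_one]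
    have h1 : (2 * 4 ^ k * Δ) ^ 2 = 4 ^ (2 * k + 1) * Δ ^ 2 := by ring
    rw [h1, mul_pow, mul_div_mul_left _ _ (pow_ne_zero _ h4)]
  obtain ⟨d, hd⟩ := mem_of_scaling htr σL hσf (hfL _ hD) hDσ
  have hd' : (d : F) = Δ ^ 2 / f 0 ^ (2 * k + 1) := hd
  -- everything is in `K(t)`
  obtain ⟨E, hE⟩ : ∃ E : IntermediateField K F, E = IntermediateField.adjoin K (Set.range t) :=
    ⟨_, rfl⟩
  have htE : ∀ i, t i ∈ E := fun i => by
    rw [hE]
    exact IntermediateField.subset_adjoin K _ ⟨i, rfl⟩
  have hLE : L ≤ E := by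
    rw [hL, IntermediateField.adjoin_le_iff]
    rintro _ ⟨i, rfl⟩
    exact htE i.succ
  have hf0E : f 0 ∈ E := by
    have h1 : f 0 = t 0 ^ 2 / d := by
      rw [hd', ht0]
      field_simp
      ring
    rw [h1]
    exact div_mem (pow_mem (htE 0) 2) (hLE d.2)
  have hfE : IntermediateField.adjoin K (Set.range f) ≤ E := by
    rw [IntermediateField.adjoin_le_iff]
    rintro _ ⟨i, rfl⟩
    refine Fin.cases hf0E (fun i => ?_) i
    have h1 : f i.succ = t i.succ * f 0 ^ e i.succ := by
      rw [htS, div_mul_cancel₀ _ (pow_ne_zero _ hf0)]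
    rw [h1]
    exact mul_mem (htE _) (pow_mem hf0E _)
  have hΔE : Δ ∈ E := by
    have h1 : Δ = t 0 * f 0 ^ k := by rw [ht0, div_mul_cancel₀ _ (pow_ne_zero _ hf0)]
    rw [h1]
    exact mul_mem (htE 0) (pow_mem hf0E k)
  intro z hz
  rw [← hE]
  have h1 : z + ν z ∈ E := by
    apply hfE
    apply hfix
    · intro g
      rw [smul_add, ← hνS, hz]
    · rw [map_add, hνν, add_comm]
  have h2 : (z - ν z) * Δ ∈ E := by
    apply hfE
    apply hfix
    · intro g
      rw [smul_mul', smul_sub, ← hνS, hz, hΔS]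
    · rw [map_mul, map_sub, hνν, hΔν]
      ring
  have h3 : z = ((z + ν z) + (z - ν z) * Δ / Δ) / 2 := by
    rw [mul_div_cancel_right₀ _ hΔ0]
    ring
  rw [h3]
  have h2m : (2 : F) ∈ E := by
    have := E.algebraMap_mem 2
    rwa [map_ofNat] at this
  exact div_mem (add_mem h1 (div_mem h2 hΔE)) h2m

end Pool.Agent.Lib.MP_12adaf_nt.NS
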