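import Pool.Agent.Lib.MP_12adaf_ntE7.F2
import Pool.Agent.Lib.MP_12adaf_ntE7.F5a
import Pool.Agent.Lib.MP_12adaf_ntE7.F5d
import Pool.Agent.Lib.MP_12adaf_ntE7.G1
import Pool.Agent.Lib.MP_12adaf_ntE7.G2
import Pool.Agent.Lib.MP_12adaf_ntE7.G3
import Pool.Agent.Lib.MP_12adaf_ntNS.N5

/-!
# The invariants of the rotation group of type `E₇`
-/

namespace Pool.Agent.Lib.MP_12adaf_nt.E7

open MvPolynomial

/-- The value of the linear form of the weight `a`. -/
private noncomputable def lf7 {F : Type} [Field F] (x : Fin 7 → F) (a : Fin 28) : F :=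
  ∑ j, (wt7 a j : F) * x j

/-- The product of the positive roots. -/
private noncomputable def dl7 {F : Type} [Field F] (x : Fin 7 → F) : F :=
  ∏ m, ∑ j, (rho7 m j : F) * x j

private lemma aeval_lin7 {F : Type} [Field F] [Algebra ℚ F] (x : Fin 7 → F) (a : Fin 28) :
    aeval x (lin7 a) = lf7 x a := by
  unfold lin7 lf7
  rw [map_sum]
  refine Finset.sum_congr rfl fun j _ => ?_
  rw [map_mul, aeval_C, aeval_X, eq_ratCast (algebraMap ℚ F), Rat.cast_intCast]

private lemma aeval_ps7 {F : Type} [Field F] [Algebra ℚ F] (x : Fin 7 → F) (i : Fin 7) :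
    aeval x (ps7 i) = ∑ a, lf7 x a ^ (2 * ex7 i) := by
  unfold ps7
  rw [map_sum]
  exact Finset.sum_congr rfl fun a _ => by rw [map_pow, aeval_lin7]

private lemma totalDegree_lin7 (a : Fin 28) : (lin7 a).totalDegree ≤ 1 := by
  unfold lin7
  refine (totalDegree_finsetSum _ _).trans (Finset.sup_le fun j _ => ?_)
  refine (totalDegree_mul _ _).trans ?_
  rw [totalDegree_C, totalDegree_X]

private lemma totalDegree_ps7 (i : Fin 7) : (ps7 i).totalDegree ≤ 2 * ex7 i := by
  unfold ps7
  refine (totalDegree_finsetSum _ _).trans (Finset.sup_le fun a _ => ?_)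
  refine (totalDegree_pow _ _).trans ?_
  calc 2 * ex7 i * (lin7 a).totalDegree ≤ 2 * ex7 i * 1 :=
        Nat.mul_le_mul_left _ (totalDegree_lin7 a)
    _ = 2 * ex7 i := mul_one _

/-- A nonzero linear form does not vanish at algebraically independent elements. -/
private lemma linform_ne {F : Type} [Field F] [Algebra ℚ F] {x : Fin 7 → F}
    (hx : AlgebraicIndependent ℚ x) (c : Fin 7 → ℤ) (h : ∃ j, c j ≠ 0) :
    ∑ j, (c j : F) * x j ≠ 0 := by
  intro h0
  obtain ⟨j, hj⟩ := h
  have h1 : aeval x (∑ j, C (c j : ℚ) * X j : MvPolynomial (Fin 7) ℚ) = 0 := by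
    rw [map_sum, ← h0]
    refine Finset.sum_congr rfl fun j _ => ?_
    rw [map_mul, aeval_C, aeval_X, eq_ratCast (algebraMap ℚ F), Rat.cast_intCast]
  have h2 : (∑ j, C (c j : ℚ) * X j : MvPolynomial (Fin 7) ℚ) = 0 :=
    hx (by rw [h1, map_zero])
  have h3 := congrArg (pderiv j) h2
  rw [map_sum, map_zero, Finset.sum_eq_single j] at h3
  · rw [pderiv_C_mul, pderiv_X_self, mul_one, C_eq_zero] at h3
    exact hj (by exact_mod_cast h3)
  · intro l _ hl
    rw [pderiv_C_mul, pderiv_X_of_ne hl, mul_zero]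
  · intro h
    exact absurd (Finset.mem_univ j) h

private lemma dl7_ne {F : Type} [Field F] [Algebra ℚ F] {x : Fin 7 → F}
    (hx : AlgebraicIndependent ℚ x) : dl7 x ≠ 0 :=
  Finset.prod_ne_zero_iff.mpr fun m _ => linform_ne hx _ (rho7_ne m)

section act

variable {F G : Type} [Field F] [CharZero F] [Group G] [MulSemiringAction G F]

omit [CharZero F] in
private lemma smul_int (g : G) (r : ℤ) : g • (r : F) = (r : F) :=
  map_intCast (MulSemiringAction.toRingHom G F g) r

private lemma smul_lf7 {x : Fin 7 → F} {g : G} {c : ℚ} {B : Matrix (Fin 7) (Fin 7) ℚ}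
    (hg : ∀ s, g • x s = ∑ t, ((c * B t s : ℚ) : F) * x t) {π : Fin 28 → Fin 28}
    {ε : Fin 28 → ℤ} (hB : ∀ a j, ∑ l, B j l * (wt7 a l : ℚ) = ε a * wt7 (π a) j) (a : Fin 28) :
    g • lf7 x a = (c : F) * ε a * lf7 x (π a) := by
  unfold lf7
  rw [Finset.smul_sum]
  simp_rw [smul_mul', smul_int, hg, Finset.mul_sum]
  rw [Finset.sum_comm]
  refine Finset.sum_congr rfl fun t _ => ?_
  have h := congrArg (Rat.cast (K := F)) (hB a t)
  push_cast at h
  have h2 : ∀ j, (wt7 a j : F) * (((c * B t j : ℚ) : F) * x t) =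
      ((B t j : F) * wt7 a j) * (c * x t) := by
    intro j
    push_cast
    ring
  rw [Finset.sum_congr rfl fun j _ => h2 j, ← Finset.sum_mul, h]
  ring

private lemma smul_ps7 {x : Fin 7 → F} {g : G} {c : ℚ} {B : Matrix (Fin 7) (Fin 7) ℚ}
    (hg : ∀ s, g • x s = ∑ t, ((c * B t s : ℚ) : F) * x t) {π : Equiv.Perm (Fin 28)}
    {ε : Fin 28 → ℤ} (hε : ∀ a, ε a = 1 ∨ ε a = -1)
    (hB : ∀ a j, ∑ l, B j l * (wt7 a l : ℚ) = ε a * wt7 (π a) j) (e : ℕ) :
    g • ∑ a, lf7 x a ^ (2 * e) = (c : F) ^ (2 * e) * ∑ a, lf7 x a ^ (2 * e) := by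
  rw [Finset.smul_sum, Finset.mul_sum]
  rw [← Equiv.sum_comp π fun a => (c : F) ^ (2 * e) * lf7 x a ^ (2 * e)]
  refine Finset.sum_congr rfl fun a _ => ?_
  rw [smul_pow', smul_lf7 hg hB a, mul_pow, mul_pow]
  have h : ((ε a : ℤ) : F) ^ (2 * e) = 1 := by
    rw [pow_mul]
    rcases hε a with h | h <;> rw [h] <;> norm_num
  rw [h, mul_one]

omit [CharZero F] in
private lemma smul_dl7_scalar {x : Fin 7 → F} {g : G} {c : F} (hg : ∀ s, g • x s = c * x s) :
    g • dl7 x = c ^ 63 * dl7 x := by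
  unfold dl7
  rw [Finset.smul_prod']
  have h : ∀ m : Fin 63, g • ∑ j, (rho7 m j : F) * x j = c * ∑ j, (rho7 m j : F) * x j := by
    intro m
    rw [Finset.smul_sum, Finset.mul_sum]
    refine Finset.sum_congr rfl fun j _ => ?_
    rw [smul_mul', smul_int, hg]
    ring
  rw [Finset.prod_congr rfl fun m _ => h m, Finset.prod_mul_distrib, Finset.prod_const,
    Finset.card_univ, Fintype.card_fin]

private lemma smul_dl7_refl {x : Fin 7 → F} {g : G} {i : Fin 63}
    (hg : ∀ s, g • x s = ∑ t, ((rho7 i t : F) * rho7 i s / 2 - if t = s then 1 else 0) * x t) :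
    g • dl7 x = dl7 x := by
  unfold dl7
  rw [Finset.smul_prod', ← prod_rho7_refl x i]
  refine Finset.prod_congr rfl fun m _ => ?_
  rw [Finset.smul_sum]
  refine Finset.sum_congr rfl fun j _ => ?_
  rw [smul_mul', smul_int, hg]

end act

/-- The fixed elements of a finite group of automorphisms whose order is at least the degree. -/
private lemma mem_of_fixed {F T : Type} [Field F] [Algebra ℚ F] [Group T] [Finite T]
    (ψ : T →* RingAut F) (L : IntermediateField ℚ F) [FiniteDimensional L F]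
    (hL : ∀ (t : T), ∀ z ∈ L, ψ t z = z) (hψ : ∀ t : T, ψ t = 1 → t = 1)
    (hcard : Module.finrank L F ≤ Nat.card T) {z : F} (hz : ∀ t : T, ψ t z = z) : z ∈ L := by
  classical
  let φ : T → (F ≃ₐ[L] F) := fun t =>
    AlgEquiv.ofRingEquiv (f := (ψ t : F ≃+* F)) (fun l => hL t l l.2)
  have h0 : ∀ t z, φ t z = ψ t z := fun t z => rfl
  have h1 : Function.Injective φ := by
    intro t u h
    have h2 : ψ t = ψ u := by
      ext z
      rw [← h0, ← h0, h]
    have h3 : t * u⁻¹ = 1 := hψ _ (by rw [map_mul, map_inv, h2, mul_inv_cancel])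
    exact mul_inv_eq_one.mp h3
  have h2 : Nat.card (F ≃ₐ[L] F) ≤ Module.finrank L F := by
    rw [Nat.card_eq_fintype_card]
    exact AlgEquiv.card_le
  have h3 : Function.Bijective φ := h1.bijective_of_nat_card_le (h2.trans hcard)
  have h4 : Nat.card (F ≃ₐ[L] F) = Module.finrank L F :=
    le_antisymm h2 (hcard.trans (Nat.card_eq_of_bijective φ h3).le)
  have : IsGalois L F := IsGalois.of_card_aut_eq_finrank L F h4
  obtain ⟨l, hl⟩ := (IsGalois.mem_range_algebraMap_iff_fixed (F := L) z).mpr fun g => by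
    obtain ⟨t, rfl⟩ := h3.2 g
    exact hz t
  rw [← hl]
  exact l.2

/-- An element of the group `S7` whose matrix is a scalar is trivial. -/
private lemma eq_one_of_scalar {w : S7} {B : Matrix (Fin 7) (Fin 7) ℚ} {ε : Fin 28 → ℤ}
    (hε : ∀ a, ε a = 1 ∨ ε a = -1)
    (hB : ∀ a j, ∑ l, B j l * (wt7 a l : ℚ) = ε a * wt7 (w • a) j) {c : ℚ}
    (hc : ∀ a j, ∑ l, B j l * (wt7 a l : ℚ) = c * wt7 a j) (hc1 : c = 1 ∨ c = -1) :
    w = 1 := by
  refine S7_ext fun a => ?_
  rw [one_smul]
  have h1 : c * (e7 a a : ℚ) = ε a * e7 a (w • a) := by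
    rw [e7_eq, e7_eq]
    push_cast
    rw [Finset.mul_sum, Finset.mul_sum]
    refine Finset.sum_congr rfl fun j _ => ?_
    have h2 : c * (wt7 a j : ℚ) = ε a * wt7 (w • a) j := by rw [← hc, hB]
    linear_combination (wt7 a j : ℚ) * h2
  rcases e7_cases a a with ⟨-, h3⟩ | ⟨h3, -⟩
  swap
  · exact absurd rfl h3
  rcases e7_cases a (w • a) with ⟨h4, -⟩ | ⟨-, h4⟩
  · exact h4.symm
  exfalso
  rw [h3] at h1
  rcases hε a with h5 | h5 <;> rcases hc1 with h6 | h6 <;> rcases h4 with h7 | h7 <;>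
    rw [h5, h6, h7] at h1 <;> norm_num at h1

/-- **The invariants.**  `F = ℚ(x)` with the action of `S7` by `ρ` (`exists_matrix_ext` in N5.lean with
`E = ℚ`, the trivial action).  The group `S7 × {1, -1}` of order 2903040 (`card_S7`) acts faithfully
on `F`, and the power sums `ps7 i (x)` are invariant (`ρ w` permutes the weights up to sign), so
`[F : ℚ(f)] ≥ 2903040`; it is at most `∏ (2 * ex7 i) = 2903040` by `finrank_le_prod`, so `ℚ(f)` is
the fixed field of this group.  `Δ = ∏ i, ∑ j, rho7 i j * x j` is invariant under the `tW i`, which are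
`-1` times reflections, so under `S7` (`closure_tW`).  Then `odd_params` with `k = 31`. -/
theorem exists_invariants7 (ρ : S7 →* Matrix (Fin 7) (Fin 7) ℚ)
    (_hinj : Function.Injective ρ)
    (hρ : ∀ w : S7, ∃ ε : Fin 28 → ℤ, (∀ a, ε a = 1 ∨ ε a = -1) ∧
      ∀ a j, ∑ l, ρ w j l * (wt7 a l : ℚ) = ε a * wt7 (w • a) j)
    (hρt : ∀ (i : Fin 63) (j l : Fin 7), ρ (tW i) j l =
      (rho7 i j : ℚ) * rho7 i l / 2 - if j = l then 1 else 0) :
    ∃ (F : Type) (_ : Field F) (_ : CharZero F) (_ : MulSemiringAction S7 F)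
      (x t : Fin 7 → F), AlgebraicIndependent ℚ x ∧
      IntermediateField.adjoin ℚ (Set.range x) = ⊤ ∧
      (∀ (w : S7) (i : Fin 7), w • x i = ∑ j, (ρ w j i : F) * x j) ∧
      (∀ (w : S7) (i : Fin 7), w • t i = t i) ∧
      ∀ z : F, (∀ w : S7, w • z = z) → z ∈ IntermediateField.adjoin ℚ (Set.range t) := by
  classical
  let actQ : MulSemiringAction (S7 × ℚˣ) ℚ :=
    MulSemiringAction.compHom ℚ (1 : (S7 × ℚˣ) →* RingAut ℚ)
  have hactQ : ∀ (g : S7 × ℚˣ) (a : ℚ), g • a = a := fun g a => rfl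
  let A : S7 × ℚˣ → Matrix (Fin 7) (Fin 7) ℚ := fun g => (g.2 : ℚ) • ρ g.1
  have hA : ∀ g, A g = (g.2 : ℚ) • ρ g.1 := fun g => rfl
  have hA1 : A 1 = 1 := by
    rw [hA, Prod.fst_one, Prod.snd_one, map_one, Units.val_one, one_smul]
  have hAmul : ∀ g h, A (g * h) = A g * (A h).map fun a => g • a := by
    intro g h
    have h1 : ((A h).map fun a => g • a) = A h := by
      ext i j
      rw [Matrix.map_apply, hactQ]
    rw [h1, hA, hA, hA, Prod.fst_mul, Prod.snd_mul, map_mul, Units.val_mul, Matrix.smul_mul,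
      Matrix.mul_smul, smul_smul]
  obtain ⟨F, fF, aF, act, X, hX, hgen, -, hgX⟩ := NS.exists_matrix_ext A hA1 hAmul
  have hc : CharZero F := charZero_of_injective_algebraMap (algebraMap ℚ F).injective
  have ha : aF = DivisionRing.toRatAlgebra := Subsingleton.elim _ _
  subst ha
  have hg : ∀ (g : S7 × ℚˣ) s, g • X s = ∑ t, (((g.2 : ℚ) * ρ g.1 t s : ℚ) : F) * X t := by
    intro g s
    rw [hgX]
    refine Finset.sum_congr rfl fun t _ => ?_
    rw [hA, Matrix.smul_apply, smul_eq_mul, eq_ratCast (algebraMap ℚ F)]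
  -- the scalars
  have hscal : ∀ (u : ℚˣ) s, ((1, u) : S7 × ℚˣ) • X s = ((u : ℚ) : F) * X s := by
    intro u s
    rw [hg]
    simp only [map_one, Matrix.one_apply]
    rw [Finset.sum_eq_single s]
    · rw [if_pos rfl, mul_one]
    · intro t _ ht
      rw [if_neg ht, mul_zero, Rat.cast_zero, zero_mul]
    · intro h
      exact absurd (Finset.mem_univ s) h
  -- the power sums
  obtain ⟨f, hf0⟩ : ∃ f : Fin 7 → F, f = fun i => aeval X (ps7 i) := ⟨_, rfl⟩
  have hfi : ∀ i, f i = ∑ a, lf7 X a ^ (2 * ex7 i) := fun i => by rw [hf0]; exact aeval_ps7 X i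
  have hf : AlgebraicIndependent ℚ f := by
    rw [hf0]
    exact algInd_ps7.map' (f := (aeval X : MvPolynomial (Fin 7) ℚ →ₐ[ℚ] F)) hX
  have hgf : ∀ (g : S7 × ℚˣ) i, g • f i = (((g.2 : ℚ)) : F) ^ (2 * ex7 i) * f i := by
    intro g i
    obtain ⟨ε, hε, hB⟩ := hρ g.1
    rw [hfi]
    exact smul_ps7 (hg g) (π := (g.1 : Equiv.Perm (Fin 28))) hε hB (ex7 i)
  obtain ⟨hfd, hfr⟩ := NS.finrank_le_prod hX hgen (p := ps7) (d := fun i => 2 * ex7 i)
    totalDegree_ps7 (by decide) algInd_ps7
  rw [← hf0] at hfd hfr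
  have hprod : ∏ i : Fin 7, 2 * ex7 i = 2903040 := by decide
  rw [hprod] at hfr
  -- the automorphisms
  have hrat : ∀ (g : S7 × ℚˣ) (q : ℚ), g • (algebraMap ℚ F q) = algebraMap ℚ F q := by
    intro g q
    rw [eq_ratCast (algebraMap ℚ F)]
    exact map_ratCast (MulSemiringAction.toRingHom (S7 × ℚˣ) F g) q
  obtain ⟨τ, hτ⟩ : ∃ τ : ℚˣ → (F ≃ₐ[ℚ] F), ∀ u z, τ u z = ((1, u) : S7 × ℚˣ) • z :=
    ⟨fun u => AlgEquiv.ofRingEquiv
      (f := MulSemiringAction.toRingEquiv (S7 × ℚˣ) F (1, u)) (hrat _), fun u z => rfl⟩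
  let act7 : MulSemiringAction S7 F := MulSemiringAction.compHom F (MonoidHom.inl S7 ℚˣ)
  have h7 : ∀ (w : S7) (z : F), w • z = ((w, 1) : S7 × ℚˣ) • z := fun w z => rfl
  -- the finite group
  let ψ : S7 × ℤˣ →* RingAut F := (MulSemiringAction.toRingAut (S7 × ℚˣ) F).comp
    (MonoidHom.prodMap (MonoidHom.id S7) (Units.map (Int.castRingHom ℚ).toMonoidHom))
  have hψ : ∀ (w : S7) (u : ℤˣ) z, ψ (w, u) z =
      ((w, Units.map (Int.castRingHom ℚ).toMonoidHom u) : S7 × ℚˣ) • z := fun w u z => rfl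
  have hcard : Nat.card (S7 × ℤˣ) = 2903040 := by
    rw [Nat.card_prod, card_S7, Nat.card_eq_fintype_card, Fintype.card_units_int]
  have : Finite (S7 × ℤˣ) := inferInstance
  have hfix : ∀ z : F, (∀ w : S7, w • z = z) → τ (-1) z = z →
      z ∈ IntermediateField.adjoin ℚ (Set.range f) := by
    intro z hz1 hz2
    have hL : ∀ (t : S7 × ℤˣ), ∀ y ∈ IntermediateField.adjoin ℚ (Set.range f), ψ t y = y := by
      rintro ⟨w, u⟩ y hy
      induction hy using IntermediateField.adjoin_induction with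
      | mem y hy =>
        obtain ⟨i, rfl⟩ := hy
        rw [hψ, hgf]
        have h : (((Units.map (Int.castRingHom ℚ).toMonoidHom u : ℚˣ) : ℚ) : F) ^ (2 * ex7 i) =
            1 := by
          rw [pow_mul]
          rcases Int.units_eq_one_or u with h | h <;> rw [h] <;> simp
        rw [h, one_mul]
      | algebraMap q => exact hrat _ q
      | add x y _ _ hx hy => rw [map_add, hx, hy]
      | inv x _ hx => rw [map_inv₀, hx]
      | mul x y _ _ hx hy => rw [map_mul, hx, hy]
    refine mem_of_fixed ψ _ hL ?_ (by rw [hcard]; exact hfr) ?_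
    · rintro ⟨w, u⟩ h
      obtain ⟨c, hc0⟩ : ∃ c : ℚ, c =
          ((Units.map (Int.castRingHom ℚ).toMonoidHom u : ℚˣ) : ℚ) := ⟨_, rfl⟩
      have hc1 : c = 1 ∨ c = -1 := by
        rw [hc0]
        rcases Int.units_eq_one_or u with h | h <;> rw [h] <;> simp
      have hcc : c * c = 1 := by
        rcases hc1 with h | h <;> rw [h] <;> norm_num
      have hcX : ∀ s, ∑ t, ((c * ρ w t s : ℚ) : F) * X t = X s := by
        intro s
        rw [hc0, ← hg (w, Units.map (Int.castRingHom ℚ).toMonoidHom u) s, ← hψ, h]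
        rfl
      have hcρ : ∀ t s, c * ρ w t s = if t = s then 1 else 0 := by
        intro t s
        have h1 := Fintype.linearIndependent_iff.mp hX.linearIndependent
          (fun t => c * ρ w t s - if t = s then 1 else 0) (by
            simp_rw [sub_smul, Finset.sum_sub_distrib, Rat.smul_def]
            rw [hcX s, Finset.sum_eq_single s]
            · rw [if_pos rfl, Rat.cast_one, one_mul, sub_self]
            · intro t _ ht
              rw [if_neg ht, Rat.cast_zero, zero_mul]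
            · intro h
              exact absurd (Finset.mem_univ s) h) t
        exact sub_eq_zero.mp h1
      have hρc : ρ w = c • (1 : Matrix (Fin 7) (Fin 7) ℚ) := by
        ext t s
        rw [Matrix.smul_apply, Matrix.one_apply, smul_eq_mul, ← hcρ t s, ← mul_assoc, hcc,
          one_mul]
      obtain ⟨ε, hε, hB⟩ := hρ w
      have hw : w = 1 := by
        refine eq_one_of_scalar hε hB (c := c) (fun a j => ?_) hc1
        rw [hρc]
        simp only [Matrix.smul_apply, Matrix.one_apply, smul_eq_mul]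
        rw [Finset.sum_eq_single j]
        · rw [if_pos rfl, mul_one]
        · intro l _ hl
          rw [if_neg hl.symm, mul_zero, zero_mul]
        · intro h
          exact absurd (Finset.mem_univ j) h
      have hc2 : c = 1 := by
        have h1 := hcρ 0 0
        rw [hw, map_one, Matrix.one_apply_eq, mul_one, if_pos rfl] at h1
        exact h1
      have hu : u = 1 := by
        rcases Int.units_eq_one_or u with h | h
        · exact h
        · exfalso
          rw [hc0, h] at hc2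
          norm_num at hc2
      rw [hw, hu]
      rfl
    · rintro ⟨w, u⟩
      rw [hψ]
      have h1 : ∀ v : ℚˣ, ((w, v) : S7 × ℚˣ) • z = ((1, v) : S7 × ℚˣ) • z := by
        intro v
        have h2 : ((w, v) : S7 × ℚˣ) = (1, v) * (w, 1) := by
          rw [Prod.mk_mul_mk, one_mul, mul_one]
        rw [h2, mul_smul, ← h7, hz1]
      rw [h1]
      rcases Int.units_eq_one_or u with h | h
      · rw [h, map_one]
        exact one_smul _ z
      · rw [h]
        have h3 : Units.map (Int.castRingHom ℚ).toMonoidHom (-1 : ℤˣ) = -1 := by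
          ext
          simp
        rw [h3, ← hτ, hz2]
  have hΔ0 := dl7_ne hX
  have hΔS : ∀ w : S7, w • dl7 X = dl7 X := by
    intro w
    have hw : w ∈ Subgroup.closure (Set.range tW) := by
      rw [closure_tW]
      exact Subgroup.mem_top w
    induction hw using Subgroup.closure_induction with
    | mem w hw =>
      obtain ⟨i, rfl⟩ := hw
      rw [h7]
      refine smul_dl7_refl (i := i) fun s => ?_
      rw [hg]
      refine Finset.sum_congr rfl fun t _ => ?_
      rw [Units.val_one, one_mul, hρt]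
      split_ifs <;> push_cast <;> ring
    | one => exact one_smul _ _
    | mul x y _ _ hx hy => rw [mul_smul, hy, hx]
    | inv x _ hx => rw [inv_smul_eq_iff, hx]
  have hΔu : ∀ u : ℚˣ, τ u (dl7 X) = ((u : ℚ) : F) ^ 63 * dl7 X := by
    intro u
    rw [hτ]
    exact smul_dl7_scalar (hscal u)
  obtain ⟨t, ht1, ht2⟩ := NS.odd_params (K := ℚ) (S := S7) (n := 6)
    (fun w a => hrat (w, 1) a) f hf ex7 (by decide) (τ (Units.mk0 2 (by norm_num))) (τ (-1))
    (fun i => by
      rw [hτ, hgf, pow_mul]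
      norm_num)
    (fun i => by
      rw [hτ, hgf, pow_mul]
      norm_num)
    (fun w i => by
      rw [h7, hgf]
      simp)
    (fun z => by
      rw [hτ, hτ, smul_smul, Prod.mk_mul_mk, one_mul, neg_mul_neg, one_mul]
      exact one_smul _ z)
    (fun w z => by
      rw [hτ, hτ, h7, h7, smul_smul, smul_smul, Prod.mk_mul_mk, Prod.mk_mul_mk, one_mul, one_mul,
        mul_one, mul_one])
    hfix (dl7 X) 31 hΔ0 hΔS
    (by
      rw [hΔu]
      norm_num)
    (by
      rw [hΔu]
      norm_num)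
  refine ⟨F, fF, hc, act7, X, t, hX, hgen, fun w i => ?_, ht1, ht2⟩
  rw [h7, hg]
  refine Finset.sum_congr rfl fun j _ => ?_
  rw [Units.val_one, one_mul]

end Pool.Agent.Lib.MP_12adaf_nt.E7
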