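import Pool.Agent.Lib.MP_12adaf_ntNS.N0
import Pool.Agent.Lib.MP_12adaf_nt.CM.GVe

/-!
# Groups with a purely transcendental field of invariants
-/

namespace Pool.Agent.Lib.MP_12adaf_nt.NS

universe u

open Polynomial

/-- Embedding of a field generated by algebraically independent elements. -/
private lemma r4_exists_hom {k F E : Type*} [Field k] [Field F] [Algebra k F] [Field E]
    [Algebra k E] {d : ℕ} {x : Fin d → F} (hx : AlgebraicIndependent k x)
    (hgen : IntermediateField.adjoin k (Set.range x) = ⊤)
    {y : Fin d → E} (hy : AlgebraicIndependent k y) : ∃ φ : F →+* E, ∀ i, φ (x i) = y i := by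
  let e : IntermediateField.adjoin k (Set.range x) ≃ₐ[k] IntermediateField.adjoin k (Set.range y) :=
    hx.aevalEquivField.symm.trans hy.aevalEquivField
  have he : ∀ (i : Fin d) (h : x i ∈ IntermediateField.adjoin k (Set.range x)),
      ((e ⟨x i, h⟩ : IntermediateField.adjoin k (Set.range y)) : E) = y i := by
    intro i h
    have h1 : hx.aevalEquivField (algebraMap (MvPolynomial (Fin d) k) _ (MvPolynomial.X i)) = ⟨x i, h⟩ := by
      apply Subtype.ext
      rw [hx.aevalEquivField_algebraMap_apply_coe, MvPolynomial.aeval_X]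
    simp only [e, AlgEquiv.trans_apply]
    rw [← h1, AlgEquiv.symm_apply_apply, hy.aevalEquivField_algebraMap_apply_coe,
      MvPolynomial.aeval_X]
  have hmem : ∀ z : F, z ∈ IntermediateField.adjoin k (Set.range x) := by
    intro z; rw [hgen]; trivial
  let f : F →+* IntermediateField.adjoin k (Set.range x) :=
    { toFun := fun z => ⟨z, hmem z⟩
      map_one' := rfl
      map_mul' := fun _ _ => rfl
      map_zero' := rfl
      map_add' := fun _ _ => rfl }
  refine ⟨((IntermediateField.adjoin k (Set.range y)).val.toRingHom.comp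
    (e : IntermediateField.adjoin k (Set.range x) →+*
      IntermediateField.adjoin k (Set.range y))).comp f, fun i => ?_⟩
  exact he i (hmem (x i))

/-- Homomorphisms agreeing on the generators are equal. -/
private lemma r4_hom_ext {F E : Type*} [Field F] [CharZero F] [Field E] [CharZero E] {d : ℕ}
    {x : Fin d → F} (hgen : IntermediateField.adjoin ℚ (Set.range x) = ⊤)
    {φ ψ : F →+* E} (h : ∀ i, φ (x i) = ψ (x i)) (z : F) : φ z = ψ z := by
  have hz : z ∈ IntermediateField.adjoin ℚ (Set.range x) := by rw [hgen]; trivial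
  induction hz using IntermediateField.adjoin_induction with
  | mem z hz => obtain ⟨i, rfl⟩ := hz; exact h i
  | algebraMap q => rw [eq_ratCast, map_ratCast, map_ratCast]
  | add a b _ _ ha hb => rw [map_add, map_add, ha, hb]
  | inv a _ ha => rw [map_inv₀, map_inv₀, ha]
  | mul a b _ _ ha hb => rw [map_mul, map_mul, ha, hb]

/-- An automorphism of `E` which maps an embedded copy of `F` to itself and fixes the invariants of
`W` acts through an element of `W`. -/
private lemma r4_exists_elt {F E W : Type*} [Field F] [CharZero F] [Field E] [CharZero E] [Group W]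
    [Finite W] [MulSemiringAction W F] {d : ℕ}
    {x : Fin d → F} (hgen : IntermediateField.adjoin ℚ (Set.range x) = ⊤)
    (φ : F →+* E) (γ : E →+* E) (h : ∀ i, ∃ z, γ (φ (x i)) = φ z)
    (hfix : ∀ z : F, (∀ w : W, w • z = z) → γ (φ z) = φ z) :
    ∃ w : W, ∀ z : F, γ (φ z) = φ (w • z) := by
  have h1 : ∀ z : F, ∃ z', γ (φ z) = φ z' := by
    intro z
    have hz : z ∈ IntermediateField.adjoin ℚ (Set.range x) := by rw [hgen]; trivial
    induction hz using IntermediateField.adjoin_induction with
    | mem z hz => obtain ⟨i, rfl⟩ := hz; exact h i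
    | algebraMap q => exact ⟨algebraMap ℚ F q, by rw [eq_ratCast, map_ratCast, map_ratCast]⟩
    | add a b _ _ ha hb =>
      obtain ⟨a', ha⟩ := ha
      obtain ⟨b', hb⟩ := hb
      exact ⟨a' + b', by rw [map_add, map_add, map_add, ha, hb]⟩
    | inv a _ ha =>
      obtain ⟨a', ha⟩ := ha
      exact ⟨a'⁻¹, by rw [map_inv₀, map_inv₀, map_inv₀, ha]⟩
    | mul a b _ _ ha hb =>
      obtain ⟨a', ha⟩ := ha
      obtain ⟨b', hb⟩ := hb
      exact ⟨a' * b', by rw [map_mul, map_mul, map_mul, ha, hb]⟩
  choose f hf using h1
  let θ : F →ₐ[FixedPoints.subfield W F] F :=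
    { toFun := f
      map_one' := φ.injective (by rw [← hf, map_one, map_one])
      map_mul' := fun a b => φ.injective (by
        rw [← hf, map_mul, map_mul, map_mul, hf, hf])
      map_zero' := φ.injective (by rw [← hf, map_zero, map_zero])
      map_add' := fun a b => φ.injective (by
        rw [← hf, map_add, map_add, map_add, hf, hf])
      commutes' := fun a => φ.injective (by
        rw [← hf]
        exact hfix _ fun w => a.2 w) }
  have hb : Function.Bijective θ := Algebra.IsAlgebraic.algHom_bijective θ
  obtain ⟨w, hw⟩ := FixedPoints.toAlgAut_surjective W F (AlgEquiv.ofBijective θ hb)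
  refine ⟨w, fun z => ?_⟩
  have h2 : w • z = f z := by
    have := DFunLike.congr_fun hw z
    exact this
  rw [h2, hf]

/-- The elements fixed by the kernel of the action. -/
private lemma r4_fixed {M E G B W F : Type*} [Field M] [CharZero M] [Field E] [CharZero E]
    [Algebra M E] [Group G] [MulSemiringAction G M] [MulSemiringAction G E] [Finite B]
    [MulAction G B] [Group W] [Finite W] [Field F] [CharZero F] [MulSemiringAction W F] {d : ℕ}
    {x₀ t₀ : Fin d → F} (hgen₀ : IntermediateField.adjoin ℚ (Set.range x₀) = ⊤)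
    (ht₀ : ∀ z : F, (∀ w : W, w • z = z) → z ∈ IntermediateField.adjoin ℚ (Set.range t₀))
    {x : B → Fin d → E} {κ : G → B → W}
    (hact : ∀ (g : G) (m : M), g • algebraMap M E m = algebraMap M E (g • m))
    (hgen : IntermediateField.adjoin M (Set.range fun p : B × Fin d => x p.1 p.2) = ⊤)
    (h1 : ∀ g : G, (∀ m : M, g • m = m) → ∀ b : B, g • b = b)
    (h2 : ∀ τ : B → W, ∃ g : G, (∀ m : M, g • m = m) ∧ ∀ b, κ g b = τ b)
    (φ : B → F →+* E) (hφx : ∀ b i, φ b (x₀ i) = x b i)
    (hφ : ∀ g b z, g • φ b z = φ (g • b) (κ g b • z))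
    {E1 : IntermediateField M E} (ht : ∀ b i, φ b (t₀ i) ∈ E1) :
    Algebra.IsAlgebraic E1 E ∧
      ∀ z : E, (∀ g : G, (∀ m : M, g • m = m) → g • z = z) → z ∈ E1 := by
  classical
  cases nonempty_fintype B
  cases nonempty_fintype W
  have hinv : ∀ (b : B) (z : F), (∀ w : W, w • z = z) → φ b z ∈ E1 := by
    intro b z hz'
    have hz := ht₀ z hz'
    clear hz'
    induction hz using IntermediateField.adjoin_induction with
    | mem z hz => obtain ⟨i, rfl⟩ := hz; exact ht b i
    | algebraMap q =>
      rw [eq_ratCast, map_ratCast]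
      exact SubfieldClass.ratCast_mem E1 q
    | add a b _ _ ha hb => rw [map_add]; exact add_mem ha hb
    | inv a _ ha => rw [map_inv₀]; exact inv_mem ha
    | mul a b _ _ ha hb => rw [map_mul]; exact mul_mem ha hb
  let P : B × Fin d → E[X] := fun p => (MulSemiringAction.charpoly W (x₀ p.2)).map (φ p.1)
  have hPl : ∀ p, ∃ P1 : E1[X], P1.map (algebraMap E1 E) = P p := by
    intro p
    have h3 : P p ∈ Polynomial.lifts (algebraMap E1 E) := by
      rw [Polynomial.lifts_iff_coeff_lifts]
      intro n
      have h4 := hinv p.1 ((MulSemiringAction.charpoly W (x₀ p.2)).coeff n)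
        (fun w => MulSemiringAction.smul_coeff_charpoly _ _ _)
      refine ⟨⟨_, h4⟩, ?_⟩
      simp only [P, Polynomial.coeff_map]
      rfl
    exact Polynomial.mem_lifts _ |>.mp h3
  choose P1 hP1 using hPl
  have hroot : ∀ p : B × Fin d, aeval (x p.1 p.2) (P1 p) = 0 := by
    intro p
    rw [aeval_def, ← eval_map, hP1, ← hφx]
    simp only [P]
    rw [eval_map, eval₂_hom, MulSemiringAction.eval_charpoly, map_zero]
  have hne1 : ∀ p, P p ≠ 0 := fun p =>
    ((MulSemiringAction.monic_charpoly W (x₀ p.2)).map (φ p.1)).ne_zero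
  have hmap : (∏ p, P1 p).map (algebraMap E1 E) = ∏ p, P p := by
    rw [Polynomial.map_prod]
    exact Finset.prod_congr rfl fun p _ => hP1 p
  have hne : (∏ p, P1 p).map (algebraMap E1 E) ≠ 0 := by
    rw [hmap, Finset.prod_ne_zero_iff]
    exact fun p _ => hne1 p
  have hspl : (∏ p, P1 p).IsSplittingField E1 E := by
    rw [isSplittingField_iff_intermediateField]
    constructor
    · rw [hmap]
      exact Splits.prod fun p _ => (MulSemiringAction.splits_charpoly W (x₀ p.2)).map (φ p.1)
    · have h3 : (⊤ : IntermediateField M E) ≤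
          (IntermediateField.adjoin E1 ((∏ p, P1 p).rootSet E)).restrictScalars M := by
        rw [← hgen, IntermediateField.adjoin_le_iff]
        rintro _ ⟨p, rfl⟩
        apply IntermediateField.subset_adjoin E1
        rw [mem_rootSet']
        refine ⟨hne, ?_⟩
        rw [map_prod]
        exact Finset.prod_eq_zero (Finset.mem_univ p) (hroot p)
      rw [eq_top_iff]
      intro z _
      exact h3 (by trivial : z ∈ (⊤ : IntermediateField M E))
  have hfd : FiniteDimensional E1 E := IsSplittingField.finiteDimensional E (∏ p, P1 p)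
  have hnorm : Normal E1 E := Normal.of_isSplittingField (∏ p, P1 p)
  have : CharZero E1 := charZero_of_injective_algebraMap (algebraMap M E1).injective
  have hgal : IsGalois E1 E := ⟨⟩
  refine ⟨inferInstance, fun z hz => ?_⟩
  have hmem : z ∈ (⊥ : IntermediateField E1 E) := by
    rw [IsGalois.mem_bot_iff_fixed]
    intro γ
    have h3 : ∀ b, ∃ w : W, ∀ z : F, γ (φ b z) = φ b (w • z) := by
      intro b
      refine r4_exists_elt hgen₀ (φ b) (γ : E →+* E) (fun i => ?_) fun z hz => ?_
      · have h4 : (P (b, i)).eval (γ (x b i)) = 0 := by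
          rw [← hP1, eval_map, ← aeval_def]
          have : aeval (γ (x b i)) (P1 (b, i)) = γ (aeval (x b i) (P1 (b, i))) :=
            aeval_algHom_apply γ.toAlgHom (x b i) (P1 (b, i))
          rw [this, hroot (b, i), map_zero]
        simp only [P] at h4
        rw [MulSemiringAction.charpoly_eq, Polynomial.map_prod, eval_prod] at h4
        obtain ⟨w, _, hw⟩ := Finset.prod_eq_zero_iff.mp h4
        refine ⟨w • x₀ i, ?_⟩
        rw [Polynomial.map_sub, Polynomial.map_X, Polynomial.map_C, eval_sub, eval_X, eval_C] at hw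
        rw [hφx]
        exact sub_eq_zero.mp hw
      · exact γ.commutes ⟨_, hinv b z hz⟩
    choose w hw using h3
    obtain ⟨g, hgM, hgκ⟩ := h2 w
    have hagree : ∀ w : E, g • w = γ w := by
      intro w
      have hw : w ∈ IntermediateField.adjoin M (Set.range fun p : B × Fin d => x p.1 p.2) := by
        rw [hgen]; trivial
      induction hw using IntermediateField.adjoin_induction with
      | mem w hw =>
        obtain ⟨p, rfl⟩ := hw
        dsimp only
        rw [← hφx, hφ, h1 g hgM, hgκ, hw]
      | algebraMap m =>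
        rw [hact, hgM]
        exact (γ.commutes (algebraMap M E1 m)).symm
      | add a b _ _ ha hb => rw [smul_add, map_add, ha, hb]
      | inv a _ ha =>
        have : g • a⁻¹ = (g • a)⁻¹ := map_inv₀ (MulSemiringAction.toRingHom G E g) a
        rw [this, map_inv₀, ha]
      | mul a b _ _ ha hb => rw [smul_mul', map_mul, ha, hb]
    rw [← hagree, hz g hgM]
  obtain ⟨z1, hz1⟩ := IntermediateField.mem_bot.mp hmem
  rw [← hz1]
  exact z1.2

/-- **The `G`-version for `S = W`.**  If the field of invariants of `W` in its representation `ρ` over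
`ℚ` is generated by as many elements as the dimension, the property `GV` holds for `W ≤ W`.
Proof.  Write `t i = F i (x)` with rational functions `F i` over `ℚ`; in the situation of `GV` put
`t b i = F i (x b)` (the field `ℚ(x b)` is isomorphic to `F` as the `x b i` are algebraically
independent over `ℚ`; this embedding `F → E` is compatible with the actions of the elements of `G`
fixing `b` and in general `g • t b i = t (g • b) i`).  `E` is a Galois extension of
`E₁ = M(t b i)`: it is generated by the `x b i`, which are roots of the separable polynomials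
`∏ over the different conjugates w • x b i`, with coefficients in `ℚ(t b)` (they are invariants, and
all invariants are in `ℚ(t)`), which split in `E`.  An element `σ` of its Galois group maps `ℚ(x b)` to
itself and fixes `ℚ(t b)`, which is the fixed field of `W` on `ℚ(x b)`, so it acts on `ℚ(x b)` as an
element `τ b` of `W`; so it is equal to the action of the element of the kernel `N` of the action of
`G` on `M` given by the hypothesis.  So the invariants of `N` are in `E₁`; `G` permutes the `t b i`.
Now the invariants of `G` in `M(t)`: choose a `K`-independent system as in the proof of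
`gversion6` in MP_12adaf_ntE6/E10.lean and `gversion` in CM/GVe.lean
(`exists_invariant_basis`, `fixed_mem_adjoin`, `algInd_of_card`). -/
theorem GV_of_rational {W : Type} [Group W] [Finite W] {d : ℕ}
    (ρ : W →* Matrix (Fin d) (Fin d) ℚ)
    (h : ∃ (F : Type) (_ : Field F) (_ : CharZero F) (_ : MulSemiringAction W F)
      (x t : Fin d → F), AlgebraicIndependent ℚ x ∧
      IntermediateField.adjoin ℚ (Set.range x) = ⊤ ∧
      (∀ (w : W) (i : Fin d), w • x i = ∑ j, (ρ w j i : F) * x j) ∧
      (∀ (w : W) (i : Fin d), w • t i = t i) ∧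
      ∀ z : F, (∀ w : W, w • z = z) → z ∈ IntermediateField.adjoin ℚ (Set.range t)) :
    GV.{u} (⊤ : Subgroup W) ρ := by
  obtain ⟨F, iF, iC, iW, x₀, t₀, hx₀, hgen₀, hρ₀, hwt₀, ht₀⟩ := h
  intro K M E G B _ _ _ _ _ _ _ _ _ _ _ _ _ _ _ _ _ x κ hact hx hgen hgx h1 h2
  classical
  cases nonempty_fintype G
  cases nonempty_fintype B
  have hyb : ∀ b, AlgebraicIndependent ℚ (x b) := by
    intro b
    have h3 : AlgebraicIndependent M (x b) :=
      hx.comp (fun i : Fin d => (b, i)) fun i j hij => (Prod.mk.inj hij).2
    exact h3.restrictScalars (algebraMap ℚ M).injective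
  choose φ hφx using fun b => r4_exists_hom hx₀ hgen₀ (hyb b)
  have hφ : ∀ (g : G) (b : B) (z : F), g • φ b z = φ (g • b) (κ g b • z) := by
    intro g b z
    refine r4_hom_ext (φ := (MulSemiringAction.toRingHom G E g).comp (φ b))
      (ψ := (φ (g • b)).comp (MulSemiringAction.toRingHom W F (κ g b))) hgen₀ (fun i => ?_) z
    rw [RingHom.comp_apply, RingHom.comp_apply, MulSemiringAction.toRingHom_apply,
      MulSemiringAction.toRingHom_apply, hφx, hgx, hρ₀, map_sum]
    refine Finset.sum_congr rfl fun j _ => ?_
    rw [map_mul, map_ratCast, hφx]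
  have hgt : ∀ (g : G) (b : B) (i : Fin d), g • φ b (t₀ i) = φ (g • b) (t₀ i) := by
    intro g b i
    rw [hφ, hwt₀]
  obtain ⟨w, hw, hwdet⟩ := exists_invariant_basis (M := M) (G := G) (B := B)
    fun g hg b => (h1 g hg b).1
  let t' : B × Fin d → E := fun p => ∑ b, algebraMap M E (w p.1 b) * φ b (t₀ p.2)
  have hgt' : ∀ (g : G) (p : B × Fin d), g • t' p = t' p := by
    intro g p
    simp only [t']
    rw [Finset.smul_sum]
    refine Fintype.sum_bijective (fun b => g • b) (MulAction.bijective g) _ _ fun b => ?_
    rw [smul_mul', hact, hw, hgt]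
  set E1 := IntermediateField.adjoin M (Set.range t') with hE1
  have ht : ∀ b i, φ b (t₀ i) ∈ E1 := by
    intro b i
    have hWu : IsUnit (Matrix.of w).det := isUnit_iff_ne_zero.mpr hwdet
    have h3 : φ b (t₀ i) = ∑ j, algebraMap M E ((Matrix.of w)⁻¹ b j) * t' (j, i) := by
      simp only [t']
      simp_rw [Finset.mul_sum]
      rw [Finset.sum_comm]
      have h4 : ∀ c, ∑ j, algebraMap M E ((Matrix.of w)⁻¹ b j) *
          (algebraMap M E (w j c) * φ c (t₀ i)) =
          algebraMap M E (((Matrix.of w)⁻¹ * Matrix.of w) b c) * φ c (t₀ i) := by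
        intro c
        rw [Matrix.mul_apply, map_sum, Finset.sum_mul]
        refine Finset.sum_congr rfl fun j _ => ?_
        rw [map_mul, Matrix.of_apply, mul_assoc]
      simp_rw [h4]
      rw [Matrix.nonsing_inv_mul _ hWu]
      rw [Finset.sum_eq_single b]
      · rw [Matrix.one_apply_eq, map_one, one_mul]
      · intro c _ hc
        rw [Matrix.one_apply_ne hc.symm, map_zero, zero_mul]
      · intro h; exact absurd (Finset.mem_univ b) h
    rw [h3]
    exact sum_mem fun j _ => mul_mem (E1.algebraMap_mem _)
      (IntermediateField.subset_adjoin M _ ⟨(j, i), rfl⟩)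
  obtain ⟨halg, hfix⟩ := r4_fixed (G := G) hgen₀ ht₀ hact hgen (fun g hg b => (h1 g hg b).1)
    (fun τ => h2 τ fun _ => trivial) φ hφx hφ ht
  have hind : AlgebraicIndependent M t' := algInd_of_card hx hgen halg
  refine ⟨t', hgt', hind.restrictScalars (algebraMap K M).injective, fun z hz => ?_⟩
  exact fixed_mem_adjoin hact hgt' (hfix z fun g _ => hz g) hz

end Pool.Agent.Lib.MP_12adaf_nt.NS
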