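import Pool.Agent.Lib.MP_12adaf_ntE7.F3
import Pool.Agent.Lib.MP_12adaf_ntE7.F4
import Pool.Agent.Lib.MP_12adaf_ntE7.F5
import Pool.Agent.Lib.MP_12adaf_ntE7.G4

/-!
# The rotation group of type `E₇` is good
-/

namespace Pool.Agent.Lib.MP_12adaf_nt.NS

open E7

universe u

/-- The 56 vectors with entries `±1` on one of the lines `{i, i + 1, i + 3}` of the Fano plane with
points `0, …, 6`, and `0` elsewhere: the weights of the minuscule representation of `E₇`. -/
def lines56 : Set (Fin 7 → ℚ) :=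
  {c | ∃ i : Fin 7, ∀ j : Fin 7, if j = i ∨ j = i + 1 ∨ j = i + 3 then c j = 1 ∨ c j = -1
    else c j = 0}

/-- The Weyl group of type `E₇`: the rational `7 × 7` matrices which permute the 56 vectors. -/
def weylE7 : Set (Matrix (Fin 7) (Fin 7) ℚ) :=
  {A | Set.BijOn (fun c => Matrix.vecMul c A) lines56 lines56}

/-- The rotation subgroup of the Weyl group of type `E₇`, isomorphic to the simple group `Sp₆(2)`
of order 1451520. -/
def rotE7 : Subgroup (Matrix.GeneralLinearGroup (Fin 7) ℚ) :=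
  Subgroup.closure {A | (A : Matrix (Fin 7) (Fin 7) ℚ) ∈ weylE7 ∧
    (A : Matrix (Fin 7) (Fin 7) ℚ).det = 1}

/-- the weights as rational vectors -/
private def f6wq (a : Fin 28) : Fin 7 → ℚ := fun j => (wt7 a j : ℚ)

private theorem f6_line : ∀ a : Fin 28, ∃ i : Fin 7, ∀ j : Fin 7,
    if j = i ∨ j = i + 1 ∨ j = i + 3 then wt7 a j = 1 ∨ wt7 a j = -1 else wt7 a j = 0 := by
  decide +kernel

private def f6sg (b : Bool) : ℤ := if b then 1 else -1

private def f6lv (i : Fin 7) (s0 s1 s2 : Bool) (j : Fin 7) : ℤ :=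
  if j = i then f6sg s0 else if j = i + 1 then f6sg s1 else if j = i + 3 then f6sg s2 else 0

private theorem f6_lv : ∀ (i : Fin 7) (s0 s1 s2 : Bool), ∃ a : Fin 28,
    (∀ j, f6lv i s0 s1 s2 j = wt7 a j) ∨ (∀ j, f6lv i s0 s1 s2 j = - wt7 a j) := by
  decide +kernel

private theorem f6_frame : ∀ j l : Fin 7,
    ∑ a : Fin 28, wt7 a j * wt7 a l = if j = l then 12 else 0 := by
  decide +kernel

private lemma f6_frameQ (j l : Fin 7) :
    ∑ a : Fin 28, f6wq a j * f6wq a l = if j = l then 12 else 0 := by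
  have h := f6_frame j l
  have h2 : ((∑ a : Fin 28, wt7 a j * wt7 a l : ℤ) : ℚ) = ((if j = l then 12 else 0 : ℤ) : ℚ) := by
    rw [h]
  push_cast at h2
  exact h2

private lemma f6_mem_wq (a : Fin 28) : f6wq a ∈ lines56 := by
  obtain ⟨i, hi⟩ := f6_line a
  refine ⟨i, fun j => ?_⟩
  have h := hi j
  unfold f6wq
  split_ifs with hj
  · rw [if_pos hj] at h
    rcases h with h | h <;> rw [h] <;> simp
  · rw [if_neg hj] at h
    rw [h]; simp

private lemma f6_neg_mem {c : Fin 7 → ℚ} (hc : c ∈ lines56) : -c ∈ lines56 := by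
  obtain ⟨i, hi⟩ := hc
  refine ⟨i, fun j => ?_⟩
  have h := hi j
  split_ifs with hj
  · rw [if_pos hj] at h
    rcases h with h | h <;> simp [h]
  · rw [if_neg hj] at h
    simp [h]

private lemma f6_exists {c : Fin 7 → ℚ} (hc : c ∈ lines56) :
    ∃ (a : Fin 28) (e : ℤ), (e = 1 ∨ e = -1) ∧ c = (e : ℚ) • f6wq a := by
  obtain ⟨i, hi⟩ := hc
  have hlv : ∀ j, c j = (f6lv i (decide (c i = 1)) (decide (c (i + 1) = 1))
      (decide (c (i + 3) = 1)) j : ℚ) := by
    intro j
    have h := hi j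
    unfold f6lv f6sg
    by_cases h0 : j = i
    · rw [if_pos (Or.inl h0)] at h
      subst h0
      rcases h with h | h <;> rw [if_pos rfl, h] <;> norm_num
    · by_cases h1 : j = i + 1
      · rw [if_pos (Or.inr (Or.inl h1))] at h
        rw [if_neg h0, if_pos h1]
        subst h1
        rcases h with h | h <;> rw [h] <;> norm_num
      · by_cases h3 : j = i + 3
        · rw [if_pos (Or.inr (Or.inr h3))] at h
          rw [if_neg h0, if_neg h1, if_pos h3]
          subst h3
          rcases h with h | h <;> rw [h] <;> norm_num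
        · rw [if_neg (by tauto)] at h
          rw [if_neg h0, if_neg h1, if_neg h3, h]
          simp
  obtain ⟨a, ha⟩ := f6_lv i (decide (c i = 1)) (decide (c (i + 1) = 1)) (decide (c (i + 3) = 1))
  rcases ha with ha | ha
  · refine ⟨a, 1, Or.inl rfl, ?_⟩
    funext j
    rw [hlv j, ha j]
    simp [f6wq]
  · refine ⟨a, -1, Or.inr rfl, ?_⟩
    funext j
    rw [hlv j, ha j]
    simp [f6wq]

private lemma f6_smul_mem {e : ℤ} (he : e = 1 ∨ e = -1) (a : Fin 28) :
    (e : ℚ) • f6wq a ∈ lines56 := by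
  rcases he with rfl | rfl
  · simpa using f6_mem_wq a
  · simpa using f6_neg_mem (f6_mem_wq a)

/-- the inner products -/
private lemma f6_dot (a b : Fin 28) : f6wq a ⬝ᵥ f6wq b = (e7 a b : ℚ) := by
  rw [e7_eq]
  simp [dotProduct, f6wq]

private lemma f6_wq_inj {a b : Fin 28} {e : ℤ} (he : e = 1 ∨ e = -1)
    (h : f6wq a = (e : ℚ) • f6wq b) : a = b := by
  by_contra hab
  have h1 : f6wq a ⬝ᵥ f6wq b = (e : ℚ) * (e7 b b : ℚ) := by
    rw [h, smul_dotProduct, f6_dot, smul_eq_mul]
  rw [f6_dot] at h1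
  have h2 : e7 a b = e * e7 b b := by exact_mod_cast h1
  have h3 : e7 b b = 3 := by
    rcases e7_cases b b with ⟨_, h⟩ | ⟨h, _⟩
    · exact h
    · exact absurd rfl h
  rcases e7_cases a b with ⟨h4, _⟩ | ⟨_, h4⟩
  · exact hab h4
  · rw [h3] at h2
    rcases he with h5 | h5 <;> rcases h4 with h4 | h4 <;> rw [h4, h5] at h2 <;> norm_num at h2

/-- the weights span -/
private lemma f6_span {A B : Matrix (Fin 7) (Fin 7) ℚ}
    (h : ∀ a, Matrix.vecMul (f6wq a) A = Matrix.vecMul (f6wq a) B) : A = B := by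
  have key : ∀ (M : Matrix (Fin 7) (Fin 7) ℚ) (i l : Fin 7),
      ∑ a : Fin 28, f6wq a i * Matrix.vecMul (f6wq a) M l = 12 * M i l := by
    intro M i l
    have h1 : ∀ a : Fin 28, f6wq a i * Matrix.vecMul (f6wq a) M l =
        ∑ m, (f6wq a i * f6wq a m) * M m l := by
      intro a
      simp only [Matrix.vecMul, dotProduct]
      rw [Finset.mul_sum]
      exact Finset.sum_congr rfl fun m _ => by ring
    rw [Finset.sum_congr rfl fun a _ => h1 a, Finset.sum_comm]
    have h2 : ∀ m : Fin 7, ∑ a : Fin 28, (f6wq a i * f6wq a m) * M m l =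
        (if i = m then 12 else 0) * M m l := by
      intro m
      rw [← Finset.sum_mul, f6_frameQ]
    rw [Finset.sum_congr rfl fun m _ => h2 m]
    simp
  ext i l
  have h1 := key A i l
  have h2 := key B i l
  have h3 : ∑ a : Fin 28, f6wq a i * Matrix.vecMul (f6wq a) A l =
      ∑ a : Fin 28, f6wq a i * Matrix.vecMul (f6wq a) B l := by
    refine Finset.sum_congr rfl fun a _ => ?_
    rw [h a]
  rw [h1, h2] at h3
  linarith

/-- a matrix which permutes the weights up to sign is orthogonal -/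
private lemma f6_orth {A : Matrix (Fin 7) (Fin 7) ℚ} (p : Equiv.Perm (Fin 28)) (ε : Fin 28 → ℤ)
    (hε : ∀ a, ε a = 1 ∨ ε a = -1)
    (h : ∀ a, Matrix.vecMul (f6wq a) A = (ε a : ℚ) • f6wq (p a)) : A * A.transpose = 1 := by
  have h1 : A.transpose * A = 1 := by
    ext j l
    have h2 : ∑ a : Fin 28, Matrix.vecMul (f6wq a) A j * Matrix.vecMul (f6wq a) A l =
        if j = l then 12 else 0 := by
      have h3 : ∀ a : Fin 28, Matrix.vecMul (f6wq a) A j * Matrix.vecMul (f6wq a) A l =
          f6wq (p a) j * f6wq (p a) l := by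
        intro a
        rw [h a]
        simp only [Pi.smul_apply, smul_eq_mul]
        rcases hε a with h4 | h4 <;> rw [h4] <;> push_cast <;> ring
      rw [Finset.sum_congr rfl fun a _ => h3 a]
      rw [Equiv.sum_comp p (fun b => f6wq b j * f6wq b l)]
      exact f6_frameQ j l
    have h5 : ∑ a : Fin 28, Matrix.vecMul (f6wq a) A j * Matrix.vecMul (f6wq a) A l =
        12 * (A.transpose * A) j l := by
      have h6 : ∀ a : Fin 28, Matrix.vecMul (f6wq a) A j * Matrix.vecMul (f6wq a) A l =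
          ∑ i, ∑ m, (f6wq a i * f6wq a m) * (A i j * A m l) := by
        intro a
        simp only [Matrix.vecMul, dotProduct]
        rw [Finset.sum_mul_sum]
        exact Finset.sum_congr rfl fun i _ => Finset.sum_congr rfl fun m _ => by ring
      rw [Finset.sum_congr rfl fun a _ => h6 a, Finset.sum_comm]
      have h7 : ∀ i : Fin 7, ∑ a : Fin 28, ∑ m, (f6wq a i * f6wq a m) * (A i j * A m l) =
          12 * (A i j * A i l) := by
        intro i
        rw [Finset.sum_comm]
        have h8 : ∀ m : Fin 7, ∑ a : Fin 28, (f6wq a i * f6wq a m) * (A i j * A m l) =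
            (if i = m then 12 else 0) * (A i j * A m l) := by
          intro m
          rw [← Finset.sum_mul, f6_frameQ]
        rw [Finset.sum_congr rfl fun m _ => h8 m]
        simp
      rw [Finset.sum_congr rfl fun i _ => h7 i, ← Finset.mul_sum]
      simp [Matrix.mul_apply]
    rw [h2] at h5
    rw [Matrix.one_apply]
    split_ifs at h5 ⊢ <;> linarith
  exact mul_eq_one_comm.mp h1

private lemma f6_e7 {A : Matrix (Fin 7) (Fin 7) ℚ} (p : Equiv.Perm (Fin 28)) (ε : Fin 28 → ℤ)
    (hε : ∀ a, ε a = 1 ∨ ε a = -1)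
    (h : ∀ a, Matrix.vecMul (f6wq a) A = (ε a : ℚ) • f6wq (p a)) (a b : Fin 28) :
    e7 (p a) (p b) = ε a * ε b * e7 a b := by
  have h1 := f6_orth p ε hε h
  have h2 : Matrix.vecMul (f6wq a) A ⬝ᵥ Matrix.vecMul (f6wq b) A = f6wq a ⬝ᵥ f6wq b := by
    rw [← Matrix.dotProduct_mulVec, ← Matrix.vecMul_transpose, Matrix.vecMul_vecMul, h1,
      Matrix.vecMul_one]
  rw [h a, h b, smul_dotProduct, dotProduct_smul, f6_dot, f6_dot, smul_eq_mul, smul_eq_mul] at h2
  have h3 : ε a * (ε b * e7 (p a) (p b)) = e7 a b := by exact_mod_cast h2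
  rcases hε a with h4 | h4 <;> rcases hε b with h5 | h5 <;> rw [h4, h5] at h3 ⊢ <;> linarith

private lemma f6_uniq {A B : Matrix (Fin 7) (Fin 7) ℚ} (p : Equiv.Perm (Fin 28))
    (ε ε' : Fin 28 → ℤ) (hε : ∀ a, ε a = 1 ∨ ε a = -1) (hε' : ∀ a, ε' a = 1 ∨ ε' a = -1)
    (hA : ∀ a, Matrix.vecMul (f6wq a) A = (ε a : ℚ) • f6wq (p a))
    (hB : ∀ a, Matrix.vecMul (f6wq a) B = (ε' a : ℚ) • f6wq (p a))
    (dA : A.det = 1) (dB : B.det = 1) : A = B := by
  have h1 : ∀ a, ε a = (ε 0 * ε' 0) * ε' a := by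
    intro a
    have h2 := f6_e7 p ε hε hA a 0
    have h3 := f6_e7 p ε' hε' hB a 0
    have h4 : e7 a 0 ≠ 0 := by
      rcases e7_cases a 0 with ⟨_, h⟩ | ⟨_, h | h⟩ <;> rw [h] <;> norm_num
    rw [h2] at h3
    have h5 : ε a * ε 0 = ε' a * ε' 0 := mul_right_cancel₀ h4 h3
    rcases hε a with h6 | h6 <;> rcases hε 0 with h7 | h7 <;> rcases hε' a with h8 | h8 <;>
      rcases hε' 0 with h9 | h9 <;> rw [h6, h7, h8, h9] at h5 <;>
      first
        | (rw [h6, h7, h8, h9]; norm_num; done)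
        | (exfalso; norm_num at h5)
  have hs : ((ε 0 * ε' 0 : ℤ) : ℚ) = 1 ∨ ((ε 0 * ε' 0 : ℤ) : ℚ) = -1 := by
    rcases hε 0 with h7 | h7 <;> rcases hε' 0 with h9 | h9 <;> rw [h7, h9] <;> norm_num
  have h2 : A = ((ε 0 * ε' 0 : ℤ) : ℚ) • B := by
    refine f6_span fun a => ?_
    rw [Matrix.vecMul_smul, hA, hB, smul_smul, h1 a]
    push_cast
    rfl
  rcases hs with hs | hs
  · rw [h2, hs, one_smul]
  · exfalso
    rw [hs] at h2
    rw [h2, Matrix.det_smul, dB] at dA
    norm_num at dA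

private noncomputable def f6hom (ρ : S7 →* Matrix (Fin 7) (Fin 7) ℚ) :
    S7 →* Matrix (Fin 7) (Fin 7) ℚ where
  toFun := fun w => (ρ w⁻¹).transpose
  map_one' := by rw [inv_one, map_one, Matrix.transpose_one]
  map_mul' := by
    intro u v
    rw [mul_inv_rev, map_mul, Matrix.transpose_mul]

private lemma f6hom_apply (ρ : S7 →* Matrix (Fin 7) (Fin 7) ℚ) (w : S7) :
    f6hom ρ w = (ρ w⁻¹).transpose := rfl

/-- The matrix group is the permutation group of the two-graph (`exists_rho7`; a matrix which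
permutes the 56 vectors preserves, up to sign, the 28 weights; it preserves the inner products
because it preserves the form `∑ c, c ⊗ c` over the 56 vectors, a multiple of the identity). -/
theorem nonempty_rotE7_equiv : Nonempty (rotE7 ≃* S7) := by
  obtain ⟨ρ, hinj, hdet, hε, -⟩ := exists_rho7
  have hv : ∀ w : S7, ∃ ε : Fin 28 → ℤ, (∀ a, ε a = 1 ∨ ε a = -1) ∧
      ∀ a, Matrix.vecMul (f6wq a) (ρ w).transpose = (ε a : ℚ) • f6wq ((w : Equiv.Perm (Fin 28)) a) := by
    intro w
    obtain ⟨ε, h1, h2⟩ := hε w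
    refine ⟨ε, h1, fun a => ?_⟩
    funext j
    rw [Matrix.vecMul_transpose]
    have h3 := h2 a j
    simp only [Matrix.mulVec, dotProduct, f6wq, Pi.smul_apply, smul_eq_mul]
    rw [h3]
    rfl
  have hmaps : ∀ (w : S7) (c : Fin 7 → ℚ), c ∈ lines56 →
      Matrix.vecMul c (f6hom ρ w) ∈ lines56 := by
    intro w c hc
    obtain ⟨a, e, he, rfl⟩ := f6_exists hc
    obtain ⟨ε, h1, h2⟩ := hv w⁻¹
    rw [f6hom_apply, Matrix.smul_vecMul, h2 a, smul_smul]
    have h3 : (e : ℚ) * (ε a : ℚ) = ((e * ε a : ℤ) : ℚ) := by push_cast; rfl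
    rw [h3]
    refine f6_smul_mem ?_ _
    rcases he with rfl | rfl <;> rcases h1 a with h4 | h4 <;> rw [h4] <;> norm_num
  have hcancel : ∀ (w : S7) (c : Fin 7 → ℚ),
      Matrix.vecMul (Matrix.vecMul c (f6hom ρ w)) (f6hom ρ w⁻¹) = c := by
    intro w c
    rw [Matrix.vecMul_vecMul, ← map_mul, mul_inv_cancel, map_one, Matrix.vecMul_one]
  have hweyl : ∀ w : S7, f6hom ρ w ∈ weylE7 := by
    intro w
    refine ⟨fun c hc => hmaps w c hc, ?_, ?_⟩
    · intro c hc d hd hcd
      have h1 := hcancel w c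
      have h2 := hcancel w d
      have h3 : Matrix.vecMul c (f6hom ρ w) = Matrix.vecMul d (f6hom ρ w) := hcd
      rw [← h1, ← h2, h3]
    · intro d hd
      refine ⟨Matrix.vecMul d (f6hom ρ w⁻¹), hmaps w⁻¹ d hd, ?_⟩
      have h1 := hcancel w⁻¹ d
      rw [inv_inv] at h1
      exact h1
  have hdet' : ∀ w : S7, (f6hom ρ w).det = 1 := by
    intro w
    rw [f6hom_apply, Matrix.det_transpose, hdet]
  let f : S7 →* Matrix.GeneralLinearGroup (Fin 7) ℚ := MonoidHom.toHomUnits (f6hom ρ)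
  have hf : ∀ w, ((f w : Matrix.GeneralLinearGroup (Fin 7) ℚ) : Matrix (Fin 7) (Fin 7) ℚ) =
      f6hom ρ w := fun w => rfl
  have finj : Function.Injective f := by
    intro u v huv
    have h1 : f6hom ρ u = f6hom ρ v := by rw [← hf u, ← hf v, huv]
    rw [f6hom_apply, f6hom_apply] at h1
    have h2 := hinj (Matrix.transpose_injective h1)
    exact inv_injective h2
  have frange : f.range = rotE7 := by
    apply le_antisymm
    · rintro _ ⟨w, rfl⟩
      apply Subgroup.subset_closure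
      refine ⟨?_, ?_⟩
      · rw [hf]; exact hweyl w
      · rw [hf]; exact hdet' w
    · unfold rotE7
      rw [Subgroup.closure_le]
      rintro A ⟨hA, hd⟩
      have h1 : ∀ a : Fin 28, ∃ (b : Fin 28) (e : ℤ), (e = 1 ∨ e = -1) ∧
          Matrix.vecMul (f6wq a) (A : Matrix (Fin 7) (Fin 7) ℚ) = (e : ℚ) • f6wq b := by
        intro a
        exact f6_exists (hA.mapsTo (f6_mem_wq a))
      choose π ε he hπ using h1
      have πinj : Function.Injective π := by
        intro a b hab
        have h2 : Matrix.vecMul (f6wq a) (A : Matrix (Fin 7) (Fin 7) ℚ) =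
            Matrix.vecMul (((ε a * ε b : ℤ) : ℚ) • f6wq b) (A : Matrix (Fin 7) (Fin 7) ℚ) := by
          rw [Matrix.smul_vecMul, hπ a, hπ b, hab, smul_smul]
          congr 1
          rcases he b with h3 | h3 <;> rw [h3] <;> push_cast <;> ring
        have h3 : ε a * ε b = 1 ∨ ε a * ε b = -1 := by
          rcases he a with h4 | h4 <;> rcases he b with h5 | h5 <;> rw [h4, h5] <;> norm_num
        exact f6_wq_inj h3 (hA.injOn (f6_mem_wq a) (f6_smul_mem h3 b) h2)
      let p : Equiv.Perm (Fin 28) := Equiv.ofBijective π (Finite.injective_iff_bijective.mp πinj)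
      have hp : ∀ a, p a = π a := fun a => rfl
      have hπ' : ∀ a, Matrix.vecMul (f6wq a) (A : Matrix (Fin 7) (Fin 7) ℚ) =
          (ε a : ℚ) • f6wq (p a) := hπ
      have hpS : p ∈ S7 := by
        rw [mem_S7]
        intro a b c
        unfold tg7
        rw [f6_e7 p ε he hπ' a b, f6_e7 p ε he hπ' b c, f6_e7 p ε he hπ' a c]
        rcases he a with h1 | h1 <;> rcases he b with h2 | h2 <;>
          rcases he c with h3 | h3 <;> rw [h1, h2, h3] <;> ring
      obtain ⟨ε', h1', h2'⟩ := hv ⟨p, hpS⟩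
      refine ⟨(⟨p, hpS⟩ : S7)⁻¹, ?_⟩
      apply Units.ext
      rw [hf, f6hom_apply, inv_inv]
      refine f6_uniq p ε' ε h1' he h2' hπ' ?_ hd
      rw [Matrix.det_transpose, hdet]
  have e1 : S7 ≃* f.range := MonoidHom.ofInjective finj
  have e2 : f.range ≃* rotE7 := MulEquiv.subgroupCongr frange
  exact ⟨(e1.trans e2).symm⟩

/-- **The rotation group of type `E₇` is good.**  `W = S7`, `GV_of_rational`, `exists_invariants7`. -/
theorem isGood_S7 {S : Type u} [Group S] (e : S ≃* S7) : IsGood S := by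
  obtain ⟨ρ, hinj, -, hρ, hρt⟩ := exists_rho7
  have hGV : GV.{u} (⊤ : Subgroup S7) ρ :=
    GV_of_rational ρ (exists_invariants7 ρ hinj hρ hρt)
  have hsimple : IsSimpleGroup S7 := isSimpleGroup_S7
  have hj : ∀ s : S, e.toMonoidHom s = e s := fun s => rfl
  refine ⟨?_, ?_, S7, inferInstance, inferInstance, e.toMonoidHom, 7, ρ, e.injective, hinj,
    ?_, ?_, ?_⟩
  · have : Nontrivial S := e.toEquiv.nontrivial
    exact IsSimpleGroup.isSimpleGroup_of_surjective e.symm.toMonoidHom e.symm.surjective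
  · obtain ⟨a, b, hab⟩ := noncomm_S7
    refine ⟨e.symm a, e.symm b, fun h => hab ?_⟩
    rw [← map_mul, ← map_mul] at h
    exact e.symm.injective h
  · intro φ
    obtain ⟨w, hw⟩ := aut_S7 ((e.symm.trans φ).trans e)
    refine ⟨w, fun s => ?_⟩
    have h1 := hw (e s)
    simp only [MulEquiv.trans_apply, MulEquiv.symm_apply_apply] at h1
    rw [hj, hj]
    exact h1
  · intro w hw
    refine center_S7 w fun s => ?_
    have h1 := hw (e.symm s)
    rw [hj, MulEquiv.apply_symm_apply] at h1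
    exact h1
  · have htop : e.toMonoidHom.range = ⊤ :=
      MonoidHom.range_eq_top.mpr e.surjective
    rw [htop]
    exact @hGV

end Pool.Agent.Lib.MP_12adaf_nt.NS
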