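import Pool.Agent.Lib.MP_12adaf_ntE7.F6
import Pool.Agent.Lib.MP_12adaf_ntNS.P4
import Pool.Agent.Lib.MP_12adaf_ntNS.N9

/-!
# Alternating groups and rotation groups of type `E₆`, `E₇` as composition factors
-/

namespace Pool.Agent.Lib.MP_12adaf_nt.NS

universe u

/-- The group `S` is isomorphic to an alternating group `Aₙ`, `n ≥ 5`, `n ≠ 6`, or to the rotation
subgroup of the Weyl group of type `E₆` or `E₇`, that is to `PSp₄(3)` or `Sp₆(2)`. -/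
def IsAltOrRot (S : Type u) [Group S] : Prop :=
  (∃ n : ℕ, 5 ≤ n ∧ n ≠ 6 ∧ Nonempty (S ≃* alternatingGroup (Fin n))) ∨
    Nonempty (S ≃* rotE6) ∨ Nonempty (S ≃* rotE7)

theorem IsAltOrRot.of_equiv (S T : Type u) [Group S] [Group T] (e : S ≃* T)
    (h : IsAltOrRot S) : IsAltOrRot T := by
  rcases h with ⟨n, h1, h2, ⟨f⟩⟩ | ⟨⟨f⟩⟩ | ⟨⟨f⟩⟩
  · exact Or.inl ⟨n, h1, h2, ⟨e.symm.trans f⟩⟩
  · exact Or.inr (Or.inl ⟨e.symm.trans f⟩)
  · exact Or.inr (Or.inr ⟨e.symm.trans f⟩)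

theorem IsAltOrRot.isGood (S : Type u) [Group S] (h : IsAltOrRot S) : IsGood S := by
  rcases h with ⟨n, h1, h2, ⟨f⟩⟩ | ⟨⟨f⟩⟩ | ⟨⟨f⟩⟩
  · exact isGood_alternating h1 h2 f
  · obtain ⟨e⟩ := nonempty_rotE6_equiv
    exact isGood_rotE6 (f.trans e)
  · obtain ⟨e⟩ := nonempty_rotE7_equiv
    exact isGood_S7 (f.trans e)

theorem goal_altOrRot {K M G : Type u} [Field K] [Field M] [CharZero M] [Algebra K M]
    [Group G] [Finite G] [MulSemiringAction G M] [SMulCommClass G K M]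
    [Algebra.IsInvariant K M G] (h : HasFactors IsAltOrRot (kerSub M G)) : Goal K M G :=
  goal_of_factors IsAltOrRot.of_equiv IsAltOrRot.isGood _ K M G rfl h

end Pool.Agent.Lib.MP_12adaf_nt.NS
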